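import Mathlib

/-!
# Linear algebra: rational structures and nondegenerate forms on subspaces
-/

namespace Pool.Agent.X302.MW

open Module

section

variable {Ω : Type*} [Field Ω] [CharZero Ω] {H : Type*} [AddCommGroup H] [Module Ω H]

/-- An `Ω`-combination of elements of a subgroup is a combination of elements of the subgroup with
coefficients which are linearly independent over `ℚ`. -/
lemma exists_indep_decomp (A : AddSubgroup H) {y : H}
    (hy : y ∈ Submodule.span Ω (A : Set H)) :
    ∃ (k : ℕ) (ω : Fin k → Ω) (z : Fin k → H), LinearIndependent ℚ ω ∧ (∀ s, z s ∈ A) ∧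
      y = ∑ s, ω s • z s := by
  classical
  obtain ⟨r, f, g, hfg⟩ := Submodule.mem_span_set'.1 hy
  let W : Submodule ℚ Ω := Submodule.span ℚ (Set.range f)
  haveI : FiniteDimensional ℚ W := FiniteDimensional.span_of_finite ℚ (Set.finite_range f)
  let b := Module.finBasis ℚ W
  have hf : ∀ i, f i ∈ W := fun i => Submodule.subset_span ⟨i, rfl⟩
  let c : Fin r → Fin (finrank ℚ W) → ℚ := fun i s => b.repr ⟨f i, hf i⟩ s
  have hc : ∀ i, f i = ∑ s, (c i s : Ω) * (b s : Ω) := by
    intro i
    have h1 := b.sum_repr ⟨f i, hf i⟩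
    have h2 := congrArg (fun x : W => (x : Ω)) h1
    simp only [Submodule.coe_sum, Submodule.coe_smul] at h2
    rw [← h2]
    apply Finset.sum_congr rfl
    intro s _
    rw [Rat.smul_def]
  -- a common denominator
  let D : ℕ := ∏ i, ∏ s, (c i s).den
  have hD : D ≠ 0 := Finset.prod_ne_zero_iff.2 fun i _ => Finset.prod_ne_zero_iff.2 fun s _ =>
    (c i s).den_ne_zero
  have hint : ∀ i s, ∃ m : ℤ, (D : ℚ) * c i s = m := by
    intro i s
    have h1 : (c i s).den ∣ D := by
      refine dvd_trans ?_ (Finset.dvd_prod_of_mem _ (Finset.mem_univ i))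
      exact Finset.dvd_prod_of_mem _ (Finset.mem_univ s)
    obtain ⟨e, he⟩ := h1
    refine ⟨e * (c i s).num, ?_⟩
    rw [he]
    push_cast
    have h2 : ((c i s).den : ℚ) * c i s = (c i s).num := by
      rw [mul_comm]
      exact Rat.mul_den_eq_num (c i s)
    calc ((c i s).den : ℚ) * e * c i s = e * (((c i s).den : ℚ) * c i s) := by ring
      _ = e * (c i s).num := by rw [h2]
  choose m hm using hint
  have hDΩ : (D : Ω) ≠ 0 := Nat.cast_ne_zero.2 hD
  refine ⟨finrank ℚ W, fun s => (D : Ω)⁻¹ * (b s : Ω), fun s => ∑ i, m i s • (g i : H), ?_, ?_, ?_⟩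
  · have h1 : LinearIndependent ℚ (fun s => (b s : Ω)) := by
      have := b.linearIndependent.map' W.subtype (Submodule.ker_subtype W)
      exact this
    rw [Fintype.linearIndependent_iff] at h1 ⊢
    intro u hu
    apply h1
    have h2 : ∑ s, u s • ((D : Ω)⁻¹ * (b s : Ω)) = (D : Ω)⁻¹ * ∑ s, u s • (b s : Ω) := by
      rw [Finset.mul_sum]
      apply Finset.sum_congr rfl
      intro s _
      rw [mul_smul_comm]
    rw [h2] at hu
    exact (mul_eq_zero.1 hu).resolve_left (inv_ne_zero hDΩ)
  · intro s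
    exact A.sum_mem fun i _ => A.zsmul_mem (g i).2 _
  · rw [← hfg]
    have h3 : ∀ i, f i • (g i : H) = ∑ s, ((D : Ω)⁻¹ * (b s : Ω)) • (m i s • (g i : H)) := by
      intro i
      rw [hc i, Finset.sum_smul]
      apply Finset.sum_congr rfl
      intro s _
      rw [← Int.cast_smul_eq_zsmul Ω (m i s), smul_smul]
      congr 1
      have h4 : (m i s : Ω) = (D : Ω) * (c i s : Ω) := by
        have := congrArg (fun x : ℚ => (x : Ω)) (hm i s)
        push_cast at this
        exact this.symm
      rw [h4]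
      field_simp
    rw [Finset.sum_congr rfl fun i _ => h3 i, Finset.sum_comm]
    apply Finset.sum_congr rfl
    intro s _
    rw [Finset.smul_sum]

lemma eq_zero_of_int {k : ℕ} {ω : Fin k → Ω} (hω : LinearIndependent ℚ ω) (z : Fin k → Ω)
    (hz : ∀ s, ∃ m : ℤ, z s = m) (h0 : ∑ s, ω s * z s = 0) : ∀ s, z s = 0 := by
  choose m hm using hz
  rw [Fintype.linearIndependent_iff] at hω
  have h1 := hω (fun s => (m s : ℚ)) (by
    rw [← h0]
    apply Finset.sum_congr rfl
    intro s _
    rw [hm, Rat.smul_def, mul_comm]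
    push_cast
    rfl)
  intro s
  rw [hm s]
  have := h1 s
  simp only [Int.cast_eq_zero] at this
  rw [this, Int.cast_zero]

end

section

variable {Ω : Type*} [Field Ω] {E : Type*} [AddCommGroup E] [Module Ω E] [FiniteDimensional Ω E]

/-- A linear form on a subspace on which the bilinear form `Q` is nondegenerate is represented by an
element of the subspace. -/
lemma exists_repr (Q : E →ₗ[Ω] E →ₗ[Ω] Ω) (F : Submodule Ω E)
    (hF : ∀ x ∈ F, (∀ y ∈ F, Q x y = 0) → x = 0) (φ : E →ₗ[Ω] Ω) :
    ∃ v ∈ F, ∀ y ∈ F, Q v y = φ y := by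
  let T : F →ₗ[Ω] Dual Ω F := F.subtype.dualMap ∘ₗ Q ∘ₗ F.subtype
  have hT : Function.Injective T := by
    rw [← LinearMap.ker_eq_bot, LinearMap.ker_eq_bot']
    intro x hx
    apply Subtype.ext
    apply hF x x.2
    intro y hy
    exact LinearMap.congr_fun hx ⟨y, hy⟩
  have hs : Function.Surjective T := by
    have h1 : finrank Ω F = finrank Ω (Dual Ω F) := (Subspace.dual_finrank_eq).symm
    exact (LinearMap.injective_iff_surjective_of_finrank_eq_finrank h1).1 hT
  obtain ⟨v, hv⟩ := hs (F.subtype.dualMap φ)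
  refine ⟨v, v.2, fun y hy => ?_⟩
  exact LinearMap.congr_fun hv ⟨y, hy⟩

/-- A linear form vanishing on the kernel factors through the map. -/
lemma exists_factor {E' : Type*} [AddCommGroup E'] [Module Ω E'] (R : E →ₗ[Ω] E') (φ : E →ₗ[Ω] Ω)
    (h : ∀ x, R x = 0 → φ x = 0) : ∃ φ' : E' →ₗ[Ω] Ω, ∀ x, φ' (R x) = φ x := by
  have h1 : φ ∈ LinearMap.range R.dualMap := by
    rw [LinearMap.range_dualMap_eq_dualAnnihilator_ker, Submodule.mem_dualAnnihilator]
    intro x hx
    exact h x hx
  obtain ⟨φ', hφ'⟩ := h1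
  exact ⟨φ', fun x => LinearMap.congr_fun hφ' x⟩

end

end Pool.Agent.X302.MW
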