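import Pool.Agent.X302.MW.SDefs

/-!
# The Newton polygon of `H^i`, and complete degeneration
-/

namespace Pool.Agent.X302.MW

universe u v

open Module Pool.Agent.Y143

section la

variable {Ω : Type*} [Field Ω] {V : Type*} [AddCommGroup V] [Module Ω V]

/-- The determinant of the operator `T` on the stable subspace `U`. -/
noncomputable def detOn (T : Module.End Ω V) (U : Submodule Ω V) (hU : ∀ x ∈ U, T x ∈ U) : Ω :=
  LinearMap.det (T.restrict hU)

/-- For every subspace `U` stable under `T`, the valuation of the determinant of `T` on `U` is at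
least `dim U - h`, for the valuation with `v(q) = 1`. -/
def SlopeBound (T : Module.End Ω V) (q h : ℕ) (R : ValuationSubring Ω) : Prop :=
  ∀ (U : Submodule Ω V) (hU : ∀ x ∈ U, T x ∈ U),
    detOn T U hU * (q : Ω) ^ h / (q : Ω) ^ finrank Ω U ∈ R

/-- The dimension of a subspace. -/
noncomputable def dimOf (U : Submodule Ω V) : ℕ := finrank Ω U

end la

/-- Newton above Hodge: on a subspace `U` of `H^i` of the generic fibre which is stable under the
Frobenius, the sum of the slopes is at least `dim U - h`. -/
def NewtonBound {Ω : Type u} [Field Ω] [CharZero Ω] {Γ : Type} {n q : ℕ}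
    (X : SemistableModel.{u, v} Ω Γ n q) (i h : ℕ) (R : ValuationSubring Ω) : Prop :=
  SlopeBound (X.actV i X.frob) q h R

/-- The graded pieces of weight zero and one of `H^i` satisfy `h ≤ dim gr_0 + (dim gr_1) / 2`. -/
def IsCompletelyDegenerate {Ω : Type u} [Field Ω] [CharZero Ω] {Γ : Type} {n q : ℕ}
    (X : SemistableModel.{u, v} Ω Γ n q) (i h : ℕ) : Prop :=
  2 * h ≤ dimOf (X.W i 0) + dimOf (X.W i 1)

/-- The eigenvalues of the Frobenius on the graded piece of weight `w` of `H^i` of the generic fibre
are products of `q` and roots of unity. -/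
def GradedTate {Ω : Type u} [Field Ω] [CharZero Ω] {Γ : Type} {n q : ℕ}
    (X : SemistableModel.{u, v} Ω Γ n q) (i : ℕ) (w : ℤ) : Prop :=
  ∀ (α : Ω) (v : X.V i), v ∈ X.W i w → v ∉ X.W i (w - 1) →
    X.actV i X.frob v - α • v ∈ X.W i (w - 1) → IsTateNumber q α

/-- Deligne, Katz-Messing: the Frobenius eigenvalues on the strata are algebraic integers, and the
Frobenius has the same rational characteristic polynomial on `H^2(Y^(1))`, and on `H^2(Y^(2))`, in
the two theories. -/
def AreComparable {Ω : Type u} [Field Ω] [CharZero Ω] {Γ : Type} {Ω' : Type u} [Field Ω']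
    [CharZero Ω'] {Γ' : Type} {n q : ℕ} (X : SpecialFibre.{u, v} Ω Γ n q)
    (X' : SpecialFibre.{u, v} Ω' Γ' n q) : Prop :=
  HasIntegralFrobenius X ∧ HasIntegralFrobenius X' ∧ SameFrobenius X X' 0 2 ∧
    SameFrobenius X X' 1 2

end Pool.Agent.X302.MW
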