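import Pool.Agent.X302.MW.Det
import Pool.Agent.X302.MW.CDefs

/-!
# The weight filtration on `H^3` of a threefold: determinants of the Frobenius
-/

namespace Pool.Agent.X302.MW

universe u v

open Module Pool.Agent.Y143

section la

variable {Ω : Type*} [Field Ω] {V : Type*} [AddCommGroup V] [Module Ω V] {K : Type*}
  [AddCommGroup K] [Module Ω K]

/-- A linear map from its graph. -/
lemma exists_map (G : Submodule Ω (V × K)) (h1 : ∀ v, ∃ k, (v, k) ∈ G)
    (h2 : ∀ k, ((0 : V), k) ∈ G → k = 0) : ∃ φ : V →ₗ[Ω] K, ∀ v, (v, φ v) ∈ G := by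
  choose f hf using h1
  have huniq : ∀ v k k', (v, k) ∈ G → (v, k') ∈ G → k = k' := by
    intro v k k' h h'
    have := G.sub_mem h h'
    rw [Prod.mk_sub_mk, sub_self] at this
    exact sub_eq_zero.1 (h2 _ this)
  refine ⟨{ toFun := f, map_add' := ?_, map_smul' := ?_ }, hf⟩
  · intro x y
    apply huniq _ _ _ (hf _)
    exact G.add_mem (hf x) (hf y)
  · intro c x
    apply huniq _ _ _ (hf _)
    exact G.smul_mem c (hf x)

lemma finite_split {U A : Submodule Ω V} (hAU : A ≤ U) [FiniteDimensional Ω A]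
    [FiniteDimensional Ω K] (φ : U →ₗ[Ω] K)
    (hφ : ∀ x : U, φ x = 0 ↔ (x : V) ∈ A) : FiniteDimensional Ω U := by
  let e : LinearMap.ker φ ≃ₗ[Ω] A :=
      { toFun := fun x => ⟨x.1.1, (hφ x.1).1 x.2⟩
        invFun := fun y => ⟨⟨y.1, hAU y.2⟩, (hφ _).2 y.2⟩
        left_inv := fun x => by rfl
        right_inv := fun y => by rfl
        map_add' := fun x y => by rfl
        map_smul' := fun c x => by rfl }
  have h1 : FiniteDimensional Ω (LinearMap.ker φ) := LinearEquiv.finiteDimensional e.symm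
  have h2 : FiniteDimensional Ω (U ⧸ LinearMap.ker φ) :=
    LinearEquiv.finiteDimensional φ.quotKerEquivRange.symm
  exact Module.Finite.of_submodule_quotient (LinearMap.ker φ)

end la

variable {Ω : Type u} [Field Ω] [CharZero Ω] {Γ : Type} {q : ℕ}

section weights

variable (X : SemistableModel.{u, v} Ω Γ 3 q)

lemma W_neg {w : ℤ} (hw : w < 0) : X.W 3 w = ⊥ := by
  have hZ : ∀ w : ℤ, w < 0 → ∀ x ∈ X.cocycles (3 - w) w, x = 0 := by
    intro w hw x hx
    funext a
    by_cases hc : InColumn (3 - w) a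
    · have h1 := hc.1
      rw [abs_of_nonneg (by omega)] at h1
      exact X.eq_zero_of_lt (by omega) _
    · exact (hx.1 a).2 hc
  have hstep : ∀ w : ℤ, w < 0 → X.W 3 w ≤ X.W 3 (w - 1) := by
    intro w hw v hv
    obtain ⟨x, hx⟩ := (X.weightSequence 3).sp_left w v hv
    rw [← SetLike.mem_coe]
    refine ((X.weightSequence 3).sp_ker w v x hx).2 ?_
    have h2 := ((X.weightSequence 3).sp_mem w v x hx).2
    have : x = 0 := hZ w hw x (by exact_mod_cast h2)
    rw [this]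
    exact Submodule.zero_mem _
  obtain ⟨w0, hw0⟩ := (X.weightSequence 3).W_bot
  have key : ∀ k : ℕ, X.W 3 w ≤ X.W 3 (w - k) := by
    intro k
    induction k with
    | zero => simp
    | succ k ih =>
      refine ih.trans ?_
      have := hstep (w - k) (by omega)
      rwa [show w - (k : ℤ) - 1 = w - ((k + 1 : ℕ) : ℤ) by push_cast; ring] at this
  rw [eq_bot_iff, ← hw0]
  refine (key (w - w0).toNat).trans ((X.weightSequence 3).W_mono ?_)
  have := Int.self_le_toNat (w - w0)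
  omega

/-- The graded piece of weight `m = 0, 1` is the kernel of the Gysin map. -/
lemma exists_gr {b : ℕ} {m : ℤ} (hb : m = 3 - ((b + 1 : ℕ) : ℤ)) (hb1 : 1 ≤ b) (hm0 : 0 ≤ m)
    (hm1 : m ≤ 1)
    (hc : ∀ y ∈ X.gr b m, X.gys b (X.res b y) = 0 → X.res b y = 0) :
    ∃ φ : X.W 3 m →ₗ[Ω] KK X.toSpecialFibre b m,
      (∀ v, φ v = 0 ↔ (v : X.V 3) ∈ X.W 3 (m - 1)) ∧ Function.Surjective φ ∧
      ∀ (v : X.W 3 m) (hv : X.actV 3 X.frob v ∈ X.W 3 m),
        φ ⟨X.actV 3 X.frob v, hv⟩ =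
          ((X.act (b + 1) X.frob).restrict
            (fun _ hx => KK_act (X := X.toSpecialFibre) b m X.frob hx)) (φ v) := by
  classical
  have hm' : m = ((3 : ℕ) : ℤ) - ((b + 1 : ℕ) : ℤ) := hb
  let G : Submodule Ω (X.W 3 m × KK X.toSpecialFibre b m) :=
    { carrier := {p | ∃ x y, ((p.1 : X.V 3), x) ∈ X.sp 3 m ∧ y ∈ X.gr b m ∧
        x (b + 1) - X.res b y = (p.2 : X.H (b + 1))}
      add_mem' := by
        rintro p p' ⟨x, y, hx, hy, h⟩ ⟨x', y', hx', hy', h'⟩
        refine ⟨x + x', y + y', (X.sp 3 m).add_mem hx hx', (X.gr b m).add_mem hy hy', ?_⟩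
        rw [map_add, Pi.add_apply]
        show _ = (p.2 : X.H (b + 1)) + (p'.2 : X.H (b + 1))
        rw [← h, ← h']
        abel
      zero_mem' := ⟨0, 0, (X.sp 3 m).zero_mem, Submodule.zero_mem _, by simp⟩
      smul_mem' := by
        rintro c p ⟨x, y, hx, hy, h⟩
        refine ⟨c • x, c • y, (X.sp 3 m).smul_mem c hx, (X.gr b m).smul_mem c hy, ?_⟩
        rw [map_smul, Pi.smul_apply, ← smul_sub, h]
        rfl }
  have hGmem : ∀ p : X.W 3 m × KK X.toSpecialFibre b m, p ∈ G ↔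
      ∃ x y, ((p.1 : X.V 3), x) ∈ X.sp 3 m ∧ y ∈ X.gr b m ∧
        x (b + 1) - X.res b y = (p.2 : X.H (b + 1)) := fun p => Iff.rfl
  have hspZ : ∀ {v x}, (v, x) ∈ X.sp 3 m → x ∈ X.cocycles (3 - m) m := by
    intro v x h
    have := ((X.weightSequence 3).sp_mem m v x h).2
    exact_mod_cast this
  have hspK : ∀ {v x}, (v, x) ∈ X.sp 3 m → (v ∈ X.W 3 (m - 1) ↔ x ∈ X.coboundaries (3 - m) m) := by
    intro v x h
    have := ((X.weightSequence 3).sp_ker m v x h)
    exact_mod_cast this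
  obtain ⟨φ, hφ⟩ := exists_map G (by
      intro v
      obtain ⟨x, hx⟩ := (X.weightSequence 3).sp_left m v v.2
      obtain ⟨h1, -⟩ := E_last X hb hb1 (hspZ hx).1
      obtain ⟨y, hy, hyk⟩ := exists_KK (X := X.toSpecialFibre) b hm' hc h1
      exact ⟨⟨_, hyk⟩, x, y, hx, hy, rfl⟩) (by
      rintro k ⟨x, y, hx, hy, h⟩
      have h1 := (hspK hx).1 (Submodule.zero_mem _)
      obtain ⟨y', hy', hxy⟩ := (cob_last X hb hb1 hm1 x).1 h1
      rw [hxy, Pi.single_eq_same, ← map_sub] at h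
      apply Subtype.ext
      rw [← h]
      apply KK_unique (X := X.toSpecialFibre) b hc (Submodule.sub_mem _ hy' hy)
      rw [h]
      exact k.2)
  have hφ0 : ∀ v k, (v, k) ∈ G → φ v = k := by
    intro v k hk
    have h1 := G.sub_mem (hφ v) hk
    rw [Prod.mk_sub_mk, sub_self] at h1
    obtain ⟨x, y, hx, hy, h⟩ := h1
    have h1 := (hspK hx).1 (Submodule.zero_mem _)
    obtain ⟨y', hy', hxy⟩ := (cob_last X hb hb1 hm1 x).1 h1
    rw [hxy, Pi.single_eq_same, ← map_sub] at h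
    have h2 : ((φ v - k : KK X.toSpecialFibre b m) : X.H (b + 1)) = 0 := by
      rw [← h]
      apply KK_unique (X := X.toSpecialFibre) b hc (Submodule.sub_mem _ hy' hy)
      rw [h]
      exact (φ v - k).2
    exact sub_eq_zero.1 (Subtype.ext h2)
  refine ⟨φ, ?_, ?_, ?_⟩
  · intro v
    obtain ⟨x, y, hx, hy, h⟩ := hφ v
    obtain ⟨h1, h1'⟩ := E_last X hb hb1 (hspZ hx).1
    rw [hspK hx, cob_last X hb hb1 hm1]
    constructor
    · intro h0
      refine ⟨y, hy, ?_⟩
      rw [h0] at h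
      have h3 : x (b + 1) = X.res b y := sub_eq_zero.1 h
      rw [← h3]
      exact h1'
    · rintro ⟨y', hy', hxy⟩
      apply hφ0
      refine ⟨x, y', hx, hy', ?_⟩
      rw [hxy, Pi.single_eq_same, sub_self]
      rfl
  · intro k
    obtain ⟨v, hv⟩ := (X.weightSequence 3).sp_right m (Pi.single (b + 1) (k : X.H (b + 1)) : X.C)
      (by
        have := coc_last X hb hb1 hm0 k.2.1
        exact_mod_cast this)
    have hvW := ((X.weightSequence 3).sp_mem m _ _ hv).1
    refine ⟨⟨v, hvW⟩, hφ0 _ _ ⟨_, 0, hv, Submodule.zero_mem _, ?_⟩⟩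
    rw [map_zero, sub_zero, Pi.single_eq_same]
  · intro v hv
    obtain ⟨x, y, hx, hy, h⟩ := hφ v
    apply hφ0
    have h1 := (X.monodromy 3).sp_act m v x X.frob hx
    refine ⟨_, X.act b X.frob y, h1, X.act_gr b m _ _ hy, ?_⟩
    have h2 : ((b + 1 : ℕ) : ℤ) - (((3 : ℕ) : ℤ) - m) = 0 := by omega
    show ((X.cyc X.frob ^ ((((b + 1 : ℕ) : ℤ) - (((3 : ℕ) : ℤ) - m)) / 2) : Ωˣ) : Ω) •
      X.act (b + 1) X.frob (x (b + 1)) - X.res b (X.act b X.frob y) =
        X.act (b + 1) X.frob (φ v : X.H (b + 1))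
    rw [h2, Int.zero_ediv, zpow_zero, Units.val_one, one_smul, ← h, map_sub, X.res_act]

lemma W_stable (i : ℕ) (m : ℤ) {x : X.V i} (hx : x ∈ X.W i m) : X.actV i X.frob x ∈ X.W i m := by
  obtain ⟨y, hy⟩ := (X.weightSequence i).sp_left m x hx
  exact ((X.weightSequence i).sp_mem m _ _ ((X.monodromy i).sp_act m _ _ X.frob hy)).1

/-- The dimensions and determinants in weight zero. -/
lemma weight_zero (A : DivisorClasses X.toSpecialFibre) :
    FiniteDimensional Ω (X.W 3 0) ∧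
      LinearMap.det ((X.actV 3 X.frob).restrict (fun _ hx => W_stable X 3 0 hx)) ^ 2 = 1 := by
  obtain ⟨φ, h1, h2, h3⟩ := exists_gr X (b := 2) (m := 0) (by norm_num) (by norm_num) le_rfl
    (by norm_num) (fun y hy => crit0 A 2 hy)
  have hb : X.W 3 (0 - 1) = ⊥ := W_neg X (by norm_num)
  rw [hb] at h1
  have hfin : FiniteDimensional Ω (X.W 3 0) := finite_split (A := ⊥) bot_le φ h1
  refine ⟨hfin, ?_⟩
  rw [det_split (X.actV 3 X.frob) (A := ⊥) bot_le (fun _ hx => W_stable X 3 0 hx)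
    (fun x hx => by rw [Submodule.mem_bot] at hx ⊢; rw [hx, map_zero]) φ h1 h2 _
    (fun v => h3 v (W_stable X 3 0 v.2)), mul_pow, det_KK (X := X.toSpecialFibre) 2 (by norm_num)
    (fun y hy => crit0 A 2 hy), zpow_zero, one_pow, mul_one]
  rw [LinearMap.det_eq_one_of_subsingleton, one_pow]

/-- The dimensions and determinants in weight one. -/
lemma weight_one (A : DivisorClasses X.toSpecialFibre) :
    FiniteDimensional Ω (X.W 3 1) ∧
      finrank Ω (X.W 3 0) ≤ finrank Ω (X.W 3 1) ∧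
      LinearMap.det ((X.actV 3 X.frob).restrict (fun _ hx => W_stable X 3 1 hx)) ^ 2 =
        (q : Ω) ^ (finrank Ω (X.W 3 1) - finrank Ω (X.W 3 0)) := by
  obtain ⟨φ, h1, h2, h3⟩ := exists_gr X (b := 1) (m := 1) (by norm_num) (by norm_num)
    (by norm_num) (by norm_num) (fun y hy => crit1 A 1 hy)
  obtain ⟨hf0, hd0⟩ := weight_zero X A
  have hb : X.W 3 (1 - 1) = X.W 3 0 := by norm_num
  rw [hb] at h1
  have hle : X.W 3 0 ≤ X.W 3 1 := (X.weightSequence 3).W_mono (by norm_num)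
  have hfin : FiniteDimensional Ω (X.W 3 1) := finite_split hle φ h1
  have hr := finrank_split hle φ h1 h2
  refine ⟨hfin, by omega, ?_⟩
  rw [det_split (X.actV 3 X.frob) hle (fun _ hx => W_stable X 3 1 hx)
    (fun x hx => W_stable X 3 0 hx) φ h1 h2 _
    (fun v => h3 v (W_stable X 3 1 v.2)), mul_pow, det_KK (X := X.toSpecialFibre) 1 (by norm_num)
    (fun y hy => crit1 A 1 hy), zpow_one, hd0, one_mul]
  congr 1
  omega

/-- The slopes on the graded piece of weight two. -/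
lemma slope_two (A : DivisorClasses X.toSpecialFibre) {h : ℕ} (R : ValuationSubring Ω)
    (hN : NewtonBound X 3 h R) (hW : IsCompletelyDegenerate X 3 h) {α : Ω}
    {v : X.V 3} (hv1 : v ∉ X.W 3 1)
    (hα : X.actV 3 X.frob v - α • v ∈ X.W 3 1) : α / q ∈ R := by
  classical
  have hq : (q : Ω) ≠ 0 := Nat.cast_ne_zero.2 X.q_ne
  obtain ⟨hf1, hle, hd1⟩ := weight_one X A
  set F := X.actV 3 X.frob with hF
  have hW1 : ∀ x ∈ X.W 3 1, F x ∈ X.W 3 1 := fun x hx => W_stable X 3 1 hx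
  let U : Submodule Ω (X.V 3) := X.W 3 1 ⊔ Submodule.span Ω {v}
  have hvU : v ∈ U := Submodule.mem_sup_right (Submodule.mem_span_singleton_self v)
  have hWU : X.W 3 1 ≤ U := le_sup_left
  have hmem : ∀ x, x ∈ U ↔ ∃ c : Ω, x - c • v ∈ X.W 3 1 := by
    intro x
    constructor
    · intro hx
      obtain ⟨y, hy, z, hz, rfl⟩ := Submodule.mem_sup.1 hx
      obtain ⟨c, rfl⟩ := Submodule.mem_span_singleton.1 hz
      exact ⟨c, by rwa [add_sub_cancel_right]⟩
    · rintro ⟨c, hc⟩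
      have : x = (x - c • v) + c • v := by abel
      rw [this]
      exact U.add_mem (hWU hc) (U.smul_mem c hvU)
  have hFv : F v ∈ U := (hmem _).2 ⟨α, hα⟩
  have hU : ∀ x ∈ U, F x ∈ U := by
    intro x hx
    obtain ⟨c, hc⟩ := (hmem x).1 hx
    have : F x = F (x - c • v) + c • F v := by
      rw [map_sub, map_smul]
      abel
    rw [this]
    exact U.add_mem (hWU (hW1 _ hc)) (U.smul_mem c hFv)
  let G : Submodule Ω (U × Ω) :=
    { carrier := {p | (p.1 : X.V 3) - p.2 • v ∈ X.W 3 1}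
      add_mem' := by
        rintro p p' h h'
        have := (X.W 3 1).add_mem h h'
        show ((p.1 : X.V 3) + (p'.1 : X.V 3)) - (p.2 + p'.2) • v ∈ X.W 3 1
        convert this using 1
        rw [add_smul]
        abel
      zero_mem' := by
        show (0 : X.V 3) - (0 : Ω) • v ∈ X.W 3 1
        simp
      smul_mem' := by
        rintro c p h
        have := (X.W 3 1).smul_mem c h
        show c • (p.1 : X.V 3) - (c • p.2) • v ∈ X.W 3 1
        rwa [smul_assoc, ← smul_sub] }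
  obtain ⟨φ, hφ⟩ := exists_map G (fun x => by
      obtain ⟨c, hc⟩ := (hmem x).1 x.2
      exact ⟨c, hc⟩) (fun c hc => by
      by_contra hne
      have h1 : (0 : X.V 3) - c • v ∈ X.W 3 1 := hc
      rw [zero_sub, Submodule.neg_mem_iff] at h1
      have h2 := (X.W 3 1).smul_mem c⁻¹ h1
      rw [smul_smul, inv_mul_cancel₀ hne, one_smul] at h2
      exact hv1 h2)
  have hφ0 : ∀ (x : U) (c : Ω), (x : X.V 3) - c • v ∈ X.W 3 1 → φ x = c := by
    intro x c hc
    have h1 := (X.W 3 1).sub_mem hc (show (x : X.V 3) - φ x • v ∈ X.W 3 1 from hφ x)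
    have h2 : (x : X.V 3) - c • v - ((x : X.V 3) - φ x • v) = (φ x - c) • v := by
      rw [sub_smul]; abel
    rw [h2] at h1
    by_contra hne
    have h3 := (X.W 3 1).smul_mem (φ x - c)⁻¹ h1
    rw [smul_smul, inv_mul_cancel₀ (sub_ne_zero.2 hne), one_smul] at h3
    exact hv1 h3
  have hk : ∀ x : U, φ x = 0 ↔ (x : X.V 3) ∈ X.W 3 1 := by
    intro x
    constructor
    · intro h0
      have h1 : (x : X.V 3) - φ x • v ∈ X.W 3 1 := hφ x
      rwa [h0, zero_smul, sub_zero] at h1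
    · intro h0
      exact hφ0 x 0 (by rwa [zero_smul, sub_zero])
  have hs : Function.Surjective φ := by
    intro c
    refine ⟨⟨c • v, U.smul_mem c hvU⟩, hφ0 _ _ ?_⟩
    rw [sub_self]
    exact Submodule.zero_mem _
  have hT : ∀ x : U, φ ⟨F x, hU x x.2⟩ = (α • (1 : Module.End Ω Ω)) (φ x) := by
    intro x
    apply hφ0
    show F (x : X.V 3) - (α * φ x) • v ∈ X.W 3 1
    have h1 : (x : X.V 3) - φ x • v ∈ X.W 3 1 := hφ x
    have h2 := (X.W 3 1).add_mem (hW1 _ h1) ((X.W 3 1).smul_mem (φ x) hα)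
    convert h2 using 1
    rw [map_sub, map_smul, smul_sub, smul_smul, mul_comm α]
    abel
  have hfU : FiniteDimensional Ω U := finite_split hWU φ hk
  have hdU := det_split F hWU hU hW1 φ hk hs (α • (1 : Module.End Ω Ω)) hT
  have hrU := finrank_split hWU φ hk hs
  rw [Module.finrank_self] at hrU
  rw [LinearMap.det_smul, Module.finrank_self, pow_one, map_one, mul_one] at hdU
  have key : LinearMap.det (F.restrict hU) * (q : Ω) ^ h / (q : Ω) ^ finrank Ω U ∈ R := hN U hU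
  rw [hdU, hrU] at key
  have hW : 2 * h ≤ finrank Ω (X.W 3 0) + finrank Ω (X.W 3 1) := hW
  -- square
  have key2 := R.mul_mem _ _ key key
  set w0 := finrank Ω (X.W 3 0)
  set w1 := finrank Ω (X.W 3 1)
  set D := LinearMap.det (F.restrict hW1) with hD
  have hd1' : D ^ 2 = (q : Ω) ^ (w1 - w0) := hd1
  have hmul : D * α * (q : Ω) ^ h / (q : Ω) ^ (w1 + 1) *
      (D * α * (q : Ω) ^ h / (q : Ω) ^ (w1 + 1)) * (q : Ω) ^ (w0 + w1 - 2 * h) =
        (α / q) ^ 2 := by
    have e1 : D * α * (q : Ω) ^ h / (q : Ω) ^ (w1 + 1) *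
      (D * α * (q : Ω) ^ h / (q : Ω) ^ (w1 + 1)) * (q : Ω) ^ (w0 + w1 - 2 * h) =
        D ^ 2 * α ^ 2 * ((q : Ω) ^ h * (q : Ω) ^ h * (q : Ω) ^ (w0 + w1 - 2 * h)) /
          ((q : Ω) ^ (w1 + 1) * (q : Ω) ^ (w1 + 1)) := by
      field_simp
    rw [e1, hd1', ← pow_add, ← pow_add, ← pow_add,
      show h + h + (w0 + w1 - 2 * h) = w0 + w1 by omega,
      show w1 + 1 + (w1 + 1) = (w1 - w0) + (w0 + w1) + 2 by omega, pow_add, pow_add]
    field_simp
    ring
  have hqR : (q : Ω) ^ (w0 + w1 - 2 * h) ∈ R := pow_mem (natCast_mem R q) _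
  have h3 := R.mul_mem _ _ key2 hqR
  rw [hmul] at h3
  have h4 : IsIntegral R (α / q) := by
    refine IsIntegral.of_pow (n := 2) (by norm_num) ?_
    exact isIntegral_algebraMap (R := R) (x := ⟨_, h3⟩)
  obtain ⟨y, hy⟩ := (IsIntegrallyClosed.isIntegral_iff (R := R) (K := Ω)).1 h4
  rw [← hy]
  exact y.2

end weights

end Pool.Agent.X302.MW
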