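import Pool.Agent.X302.MW.Cal

/-!
# Surjectivity of the restriction from the slopes of weight two
-/

namespace Pool.Agent.X302.MW

universe u v

open Module Pool.Agent.Y143

variable {Ω : Type u} [Field Ω] [CharZero Ω] {Γ : Type} {n q : ℕ}

section loc

variable [IsAlgClosed Ω] (X : SemistableModel.{u, v} Ω Γ 3 q)

/-- If the slopes of the graded piece of weight two of `H^3` of the generic fibre are at least one,
then the restriction is surjective on the part of `H^2` of the double surfaces of slope less than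
one. -/
lemma res_surj2 (hI : HasIntegralFrobenius X.toSpecialFibre) (R : ValuationSubring Ω)
    (h3 : ∀ (α : Ω) (v : X.V 3), v ∈ X.W 3 2 → v ∉ X.W 3 1 →
      X.actV 3 X.frob v - α • v ∈ X.W 3 1 → α / q ∈ R) {α : Ω} (hα : α / q ∉ R)
    {z : X.H 1} (hz : z ∈ frobPart X.toSpecialFibre 1 2 α) :
    ∃ y ∈ frobPart X.toSpecialFibre 0 2 α, X.res 0 y = z := by
  classical
  have hα' : (q : Ω)⁻¹ * α ∉ R := by rwa [← div_eq_inv_mul]
  have hcol : InColumn 1 1 := ⟨by simp, ⟨0, by simp⟩⟩
  have hxE : (Pi.single 1 z : X.C) ∈ X.E₁ 1 2 := by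
    apply X.single_mem hcol
    simpa using hz.1
  have hres : X.res 1 z = 0 := by
    by_contra hne
    exact hα' (mem_of_int R (h2_curve X.toSpecialFibre rfl hI
      (res_frobPart X.toSpecialFibre 1 2 hz) hne))
  have hxc : (Pi.single 1 z : X.C) ∈ X.cocycles 1 2 := by
    refine ⟨hxE, ?_⟩
    rw [SetLike.mem_coe, LinearMap.mem_ker]
    funext b
    rw [X.diff_apply]
    by_cases hc : InColumn (1 + 1) b
    · have hc1 := hc.1
      rw [show |(1 : ℤ) + 1| = 2 by norm_num] at hc1
      rw [X.cut_of hc, Pi.add_apply, X.gysC_apply, Pi.single_eq_of_ne (by omega), map_zero,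
        add_zero]
      cases b with
      | zero => rfl
      | succ b =>
        rw [X.resC_succ]
        by_cases hb : b = 1
        · subst hb
          rw [Pi.single_eq_same, hres]
          rfl
        · rw [Pi.single_eq_of_ne hb, map_zero]
          rfl
    · rw [X.cut_of_not hc]
      rfl
  have hgen := single_gen X.toSpecialFibre 1 1 rfl hz.2
  by_cases hb : (Pi.single 1 z : X.C) ∈ X.coboundaries 1 2
  · obtain ⟨v, hvE, hvg, hv⟩ := cob_gen X.toSpecialFibre 1 2 hgen hb
    rw [show (1 : ℤ) - 1 = 0 by norm_num] at hvE hvg hv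
    have hv2 : v 2 = 0 := by
      by_contra hne
      have h4 := comp_gen X.toSpecialFibre 0 hvg 2
      rw [show (((2 : ℕ) : ℤ) - 0) / 2 = 1 by norm_num, zpow_one] at h4
      have h5 := (hvE 2).1
      rw [show (2 : ℤ) + 0 - ((2 : ℕ) : ℤ) = 0 by norm_num] at h5
      exact hα' (mem_of_int R (h0_root X.toSpecialFibre hI 2 ⟨h5, h4⟩ hne).1)
    refine ⟨v 0, ⟨?_, ?_⟩, ?_⟩
    · have h5 := (hvE 0).1
      rwa [show (2 : ℤ) + 0 - ((0 : ℕ) : ℤ) = 2 by norm_num] at h5
    · have h4 := comp_gen X.toSpecialFibre 0 hvg 0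
      rwa [show (((0 : ℕ) : ℤ) - 0) / 2 = 0 by norm_num, zpow_zero, inv_one, one_mul] at h4
    · have h6 := congrFun hv 1
      rw [Pi.single_eq_same, X.diff_apply, X.cut_of (by simpa using hcol), Pi.add_apply,
        X.gysC_apply] at h6
      have h7 : X.gys 1 (v (1 + 1)) = 0 := by
        have : v (1 + 1) = 0 := hv2
        rw [this, map_zero]
      rw [h7, add_zero] at h6
      exact h6
  · exfalso
    obtain ⟨x', hx', hxB', hx''⟩ := exists_eigen_mod (X.actC 1 X.frob) α (Z := X.cocycles 1 2)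
      (fun x hx => zc_stable X 1 2 hx) hxc hb hgen
    have e : ((3 : ℕ) : ℤ) - 2 = 1 := by norm_num
    obtain ⟨v, hv⟩ := X.sp_right 3 2 x' (by rw [e]; exact hx')
    refine hα (h3 α v (X.sp_mem 3 2 v x' hv).1 (fun hc => hxB' ?_) ?_)
    · have := (X.sp_ker 3 2 v x' hv).1 (by
        rwa [show (2 : ℤ) - 1 = 1 by norm_num])
      rwa [e] at this
    · have h1 : (X.actV 3 X.frob v - α • v, X.actC (((3 : ℕ) : ℤ) - 2) X.frob x' - α • x') ∈
          X.sp 3 2 :=
        Submodule.sub_mem _ (X.sp_act 3 2 v x' X.frob hv) (Submodule.smul_mem _ α hv)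
      have h2 := (X.sp_ker 3 2 _ _ h1).2 (by rw [e]; exact hx'')
      rwa [show (2 : ℤ) - 1 = 1 by norm_num] at h2

end loc

section final

variable [IsAlgClosed Ω] {Ω' : Type u} [Field Ω'] [CharZero Ω'] [IsAlgClosed Ω'] {Γ' : Type}

/-- The bijectivity of the restriction on the non-Tate part, from the comparison of two theories. -/
theorem surj_of_compare2 (X : SemistableModel.{u, v} Ω Γ n q)
    (X' : SemistableModel.{u, v} Ω' Γ' n q) (hq : IsPrimePow q)
    (hI : HasIntegralFrobenius X.toSpecialFibre)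
    (hC0 : SameFrobenius X.toSpecialFibre X'.toSpecialFibre 0 2)
    (hC1 : SameFrobenius X.toSpecialFibre X'.toSpecialFibre 1 2)
    (R : ValuationSubring Ω') (hR : ((q : Ω'))⁻¹ ∉ R)
    (h2 : ∀ α, IsEigenvalueOn X 2 α → IsTateNumber q α)
    (hs : ∀ α' : Ω', α' / q ∉ R → ∀ z' ∈ frobPart X'.toSpecialFibre 1 2 α',
      ∃ y' ∈ frobPart X'.toSpecialFibre 0 2 α', X'.res 0 y' = z')
    (α : Ω) (hα : ¬ IsTateNumber q α) (z : X.H 1) (hz : z ∈ frobPart X.toSpecialFibre 1 2 α) :
    ∃ y ∈ frobPart X.toSpecialFibre 0 2 α, X.res 0 y = z := by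
  by_cases hz0 : z = 0
  · exact ⟨0, Submodule.zero_mem _, by rw [hz0, map_zero]⟩
  obtain ⟨y, hy, hy0, hyα⟩ := exists_eigen_gr X.toSpecialFibre 1 2 hz hz0
  have hint := hI 1 2 α y hy hy0 hyα
  have hw := X.weil 1 2 α y hy hy0 hyα
  obtain ⟨α', hα', hαR⟩ : ∃ α' : Ω', Polynomial.aeval α' (minpoly ℚ α) = 0 ∧ α' / q ∉ R := by
    by_contra hcon
    push Not at hcon
    exact hα (tate_of_val hq R hR hint hw hcon)
  have hconj : AreConjugate α α' := by
    have halg : IsAlgebraic ℚ α := hw.1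
    refine ⟨halg, ?_, ?_⟩
    · exact ⟨minpoly ℚ α, minpoly.ne_zero halg.isIntegral, hα'⟩
    · exact minpoly.eq_of_irreducible_of_monic (minpoly.irreducible halg.isIntegral) hα'
        (minpoly.monic halg.isIntegral)
  have hle : finrank Ω (frobPart X.toSpecialFibre 1 2 α) ≤
      finrank Ω (frobPart X.toSpecialFibre 0 2 α) := by
    rw [hC0 α α' hconj, hC1 α α' hconj]
    have h4 : frobPart X'.toSpecialFibre 1 2 α' ≤
        (frobPart X'.toSpecialFibre 0 2 α').map (X'.res 0) := by
      intro z' hz'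
      obtain ⟨y', hy', hyz'⟩ := hs α' hαR z' hz'
      exact ⟨y', hy', hyz'⟩
    exact (Submodule.finrank_mono h4).trans (Submodule.finrank_map_le _ _)
  have hinj : Function.Injective ((X.res 0).domRestrict (frobPart X.toSpecialFibre 0 2 α)) := by
    rw [← LinearMap.ker_eq_bot, LinearMap.ker_eq_bot']
    intro y' hy'
    exact Subtype.ext (res_inj X hI h2 hα y'.2 hy')
  have hmap : (frobPart X.toSpecialFibre 0 2 α).map (X.res 0) ≤
      frobPart X.toSpecialFibre 1 2 α := by
    rintro _ ⟨y', hy', rfl⟩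
    exact res_frobPart X.toSpecialFibre 0 2 hy'
  have heq : finrank Ω ((frobPart X.toSpecialFibre 0 2 α).map (X.res 0)) =
      finrank Ω (frobPart X.toSpecialFibre 0 2 α) := by
    have h5 : LinearMap.range ((X.res 0).domRestrict (frobPart X.toSpecialFibre 0 2 α)) =
        (frobPart X.toSpecialFibre 0 2 α).map (X.res 0) := by
      ext t
      constructor
      · rintro ⟨s, rfl⟩
        exact ⟨s, s.2, rfl⟩
      · rintro ⟨s, hs, rfl⟩
        exact ⟨⟨s, hs⟩, rfl⟩
    rw [← h5, LinearMap.finrank_range_of_inj hinj]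
  have hfull := Submodule.eq_of_le_of_finrank_le hmap (by rw [heq]; exact hle)
  rw [← hfull] at hz
  obtain ⟨y', hy', hyz'⟩ := hz
  exact ⟨y', hy', hyz'⟩

/-- mw purity of `H^3` for threefolds whose `H^{0,3}` degenerates completely. -/
theorem mw_cal (hq : IsPrimePow q)
    (X : Degeneration.{u, v} Ω Γ 3 q) (A : DivisorClasses X.toSpecialFibre)
    (X' : SemistableModel.{u, v} Ω' Γ' 3 q) (A' : DivisorClasses X'.toSpecialFibre)
    (hC : AreComparable X.toSpecialFibre X'.toSpecialFibre)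
    (R : ValuationSubring Ω') (hR : ((q : Ω'))⁻¹ ∉ R)
    (h2 : ∀ α, IsEigenvalueOn X.toSemistableModel 2 α → IsTateNumber q α)
    {h : ℕ} (hN : NewtonBound X' 3 h R)
    (hW : IsCompletelyDegenerate X' 3 h)
    (hT : A.TateConj 0) (k : ℕ) :
    IsMWPure q k (X.actV k X.frob) (X.N k) :=
  mw_three X rfl hC.1 A hT (fun α hα z hz => surj_of_compare2 X.toSemistableModel X' hq hC.1
    hC.2.2.1 hC.2.2.2 R hR h2 (fun _ hα' _ hz' => res_surj2 X' hC.2.1 R
      (fun _ _ _ hv1 hvα => slope_two X' A' R hN hW hv1 hvα) hα' hz') α hα z hz) k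

end final

section padic

variable [IsAlgClosed Ω] (X : Degeneration.{u, v} Ω Γ 3 q)

/-- The `p`-adic version of `mw_cal`. -/
theorem mw_cal_slopes (hI : HasIntegralFrobenius X.toSpecialFibre)
    (A : DivisorClasses X.toSpecialFibre) (R : ValuationSubring Ω)
    {h : ℕ} (hN : NewtonBound X.toSemistableModel 3 h R)
    (hW : IsCompletelyDegenerate X.toSemistableModel 3 h)
    (hS : ∀ χ : Γ → Ω, χ X.frob / q ∈ R → q / χ X.frob ∈ R → ControlledAt A 0 2 χ) (k : ℕ) :
    IsMWPure q k (X.actV k X.frob) (X.N k) := by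
  have hq : (q : Ω) ≠ 0 := Nat.cast_ne_zero.2 X.q_ne
  have hcov : ∀ χ : Γ → Ω, χ X.frob / q ∉ R → X.primPart 1 2 χ ≤ X.coboundaries 1 2 := by
    intro χ hχ
    exact covered X rfl hI (not_tate_of_not_mem hq R hχ)
      (fun z hz => res_surj2 X.toSemistableModel hI R
        (fun _ _ _ hv1 hvα => slope_two X.toSemistableModel A R hN hW hv1 hvα) hχ hz)
  apply mw X A k
  intro a w χ h1 h2 h4
  obtain rfl : w = 2 := by omega
  obtain rfl : a = 0 := by omega
  by_cases hα : χ X.frob / q ∈ R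
  · by_cases hα' : (q : Ω) / χ X.frob ∈ R
    · exact hS χ hα hα'
    · by_cases hocc : X.primPart 1 2 χ = ⊥
      · left
        right
        left
        have : X.primPart 1 2 χ ≤ X.coboundaries 1 2 := by rw [hocc]; exact bot_le
        simpa using this
      · obtain ⟨x, hx, hx0⟩ := Submodule.exists_mem_ne_zero_of_ne_bot hocc
        have h5 := inv_of_occurs X.toSpecialFibre 1 hx.2 hx0
        right
        left
        have h6 : dualAt X.toSpecialFibre 2 χ X.frob / q = q / χ X.frob := by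
          have h7 : χ X.frob ≠ 0 := right_ne_zero_of_mul_eq_one h5
          have h8 : χ (X.tr X.frob) = (χ X.frob)⁻¹ := eq_inv_of_mul_eq_one_left h5
          show (X.cyc X.frob : Ω) ^ (2 : ℤ) * χ (X.tr X.frob) / q = q / χ X.frob
          rw [X.cyc_frob, h8, zpow_ofNat]
          field_simp
        have := hcov (dualAt X.toSpecialFibre 2 χ) (by rw [h6]; exact hα')
        show X.primPart _ _ _ ≤ _
        simpa using this
  · left
    right
    left
    have := hcov χ hα
    simpa using this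

end padic

end Pool.Agent.X302.MW
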