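import Pool.Agent.X302.MW.Cal2

/-!
# Threefolds whose forms of degree two and three degenerate completely
-/

namespace Pool.Agent.X302.MW

universe u v

open Module Pool.Agent.Y143

variable {Ω : Type u} [Field Ω] [CharZero Ω] {Γ : Type} {n q : ℕ}

section loc

variable [IsAlgClosed Ω] (X : SemistableModel.{u, v} Ω Γ n q)

/-- If the graded piece of weight two of `H^2` of the generic fibre has only Tate eigenvalues, then
the restriction is injective on the non-Tate part of `H^2` of the components. -/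
lemma res_inj2 (hI : HasIntegralFrobenius X.toSpecialFibre) (h2 : GradedTate X 2 2) {α : Ω}
    (hα : ¬ IsTateNumber q α)
    {y : X.H 0} (hy : y ∈ frobPart X.toSpecialFibre 0 2 α) (h : X.res 0 y = 0) : y = 0 := by
  classical
  by_contra hy0
  have hq : (q : Ω) ≠ 0 := Nat.cast_ne_zero.2 X.q_ne
  have hcol : InColumn 0 0 := ⟨by simp, ⟨0, by simp⟩⟩
  have hxE : (Pi.single 0 y : X.C) ∈ X.E₁ 0 2 := by
    apply X.single_mem hcol
    simpa using hy.1
  have hxc : (Pi.single 0 y : X.C) ∈ X.cocycles 0 2 := by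
    refine ⟨hxE, ?_⟩
    rw [SetLike.mem_coe, LinearMap.mem_ker]
    funext b
    rw [X.diff_apply]
    by_cases hc : InColumn (0 + 1) b
    · rw [X.cut_of hc, Pi.add_apply, X.gysC_apply, Pi.single_eq_of_ne (by omega), map_zero,
        add_zero]
      cases b with
      | zero => rfl
      | succ b =>
        rw [X.resC_succ]
        by_cases hb : b = 0
        · subst hb
          rw [Pi.single_eq_same, h]
          rfl
        · rw [Pi.single_eq_of_ne hb, map_zero]
          rfl
    · rw [X.cut_of_not hc]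
      rfl
  have hgen := single_gen X.toSpecialFibre 0 0 rfl hy.2
  have hxB : (Pi.single 0 y : X.C) ∉ X.coboundaries 0 2 := by
    intro hb
    obtain ⟨v, hvE, hvg, hv⟩ := cob_gen X.toSpecialFibre 0 2 hgen hb
    have hv0 : v = 0 := by
      funext a
      by_cases hc : InColumn (0 - 1) a
      · have h1 := (hvE a).1
        have hc1 := hc.1
        have hc2 := hc.2
        rw [show |(0 : ℤ) - 1| = 1 by norm_num] at hc1
        rcases Nat.lt_or_ge a 2 with ha | ha
        · have ha1 : a = 1 := by omega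
          subst ha1
          by_contra hne
          have h3 := comp_gen X.toSpecialFibre (0 - 1) hvg 1
          rw [show (((1 : ℕ) : ℤ) - (0 - 1)) / 2 = 1 by norm_num, zpow_one] at h3
          rw [show (2 : ℤ) + (0 - 1) - ((1 : ℕ) : ℤ) = 0 by norm_num] at h1
          obtain ⟨-, k, hk, hk'⟩ := h0_root X.toSpecialFibre hI 1 ⟨h1, h3⟩ hne
          exact hα (isTate_of_root hq hk hk')
        · rw [X.gr_eq_bot a _ (Or.inl (by omega)), Submodule.mem_bot] at h1
          exact h1
      · exact (hvE a).2 hc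
    rw [hv0, map_zero] at hv
    apply hy0
    have := congrFun hv 0
    rw [Pi.single_eq_same] at this
    exact this.symm
  obtain ⟨x', hx', hxB', hx''⟩ := exists_eigen_mod (X.actC 0 X.frob) α (Z := X.cocycles 0 2)
    (fun x hx => zc_stable X 0 2 hx) hxc hxB hgen
  have e : ((2 : ℕ) : ℤ) - 2 = 0 := by norm_num
  obtain ⟨v, hv⟩ := X.sp_right 2 2 x' (by rw [e]; exact hx')
  apply hα
  refine h2 α v (X.sp_mem 2 2 v x' hv).1 (fun hc => hxB' ?_) ?_
  · have := (X.sp_ker 2 2 v x' hv).1 hc
    rwa [e] at this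
  · have h1 : (X.actV 2 X.frob v - α • v, X.actC (((2 : ℕ) : ℤ) - 2) X.frob x' - α • x') ∈
        X.sp 2 2 :=
      Submodule.sub_mem _ (X.sp_act 2 2 v x' X.frob hv) (Submodule.smul_mem _ α hv)
    exact (X.sp_ker 2 2 _ _ h1).2 (by rw [e]; exact hx'')

end loc

section final

variable [IsAlgClosed Ω] {Ω' : Type u} [Field Ω'] [CharZero Ω'] [IsAlgClosed Ω'] {Γ' : Type}

/-- The bijectivity of the restriction on the non-Tate part, from the comparison of two theories. -/
theorem surj_of_compare3 (X : SemistableModel.{u, v} Ω Γ n q)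
    (X' : SemistableModel.{u, v} Ω' Γ' n q) (hq : IsPrimePow q)
    (hI : HasIntegralFrobenius X.toSpecialFibre)
    (hC0 : SameFrobenius X.toSpecialFibre X'.toSpecialFibre 0 2)
    (hC1 : SameFrobenius X.toSpecialFibre X'.toSpecialFibre 1 2)
    (R : ValuationSubring Ω') (hR : ((q : Ω'))⁻¹ ∉ R) (h2 : GradedTate X 2 2)
    (hs : ∀ α' : Ω', α' / q ∉ R → ∀ z' ∈ frobPart X'.toSpecialFibre 1 2 α',
      ∃ y' ∈ frobPart X'.toSpecialFibre 0 2 α', X'.res 0 y' = z')
    (α : Ω) (hα : ¬ IsTateNumber q α) (z : X.H 1) (hz : z ∈ frobPart X.toSpecialFibre 1 2 α) :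
    ∃ y ∈ frobPart X.toSpecialFibre 0 2 α, X.res 0 y = z := by
  by_cases hz0 : z = 0
  · exact ⟨0, Submodule.zero_mem _, by rw [hz0, map_zero]⟩
  obtain ⟨y, hy, hy0, hyα⟩ := exists_eigen_gr X.toSpecialFibre 1 2 hz hz0
  have hint := hI 1 2 α y hy hy0 hyα
  have hw := X.weil 1 2 α y hy hy0 hyα
  obtain ⟨α', hα', hαR⟩ : ∃ α' : Ω', Polynomial.aeval α' (minpoly ℚ α) = 0 ∧ α' / q ∉ R := by
    by_contra hcon
    push Not at hcon
    exact hα (tate_of_val hq R hR hint hw hcon)
  have hconj : AreConjugate α α' := by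
    have halg : IsAlgebraic ℚ α := hw.1
    refine ⟨halg, ?_, ?_⟩
    · exact ⟨minpoly ℚ α, minpoly.ne_zero halg.isIntegral, hα'⟩
    · exact minpoly.eq_of_irreducible_of_monic (minpoly.irreducible halg.isIntegral) hα'
        (minpoly.monic halg.isIntegral)
  have hle : finrank Ω (frobPart X.toSpecialFibre 1 2 α) ≤
      finrank Ω (frobPart X.toSpecialFibre 0 2 α) := by
    rw [hC0 α α' hconj, hC1 α α' hconj]
    have h4 : frobPart X'.toSpecialFibre 1 2 α' ≤
        (frobPart X'.toSpecialFibre 0 2 α').map (X'.res 0) := by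
      intro z' hz'
      obtain ⟨y', hy', hyz'⟩ := hs α' hαR z' hz'
      exact ⟨y', hy', hyz'⟩
    exact (Submodule.finrank_mono h4).trans (Submodule.finrank_map_le _ _)
  have hinj : Function.Injective ((X.res 0).domRestrict (frobPart X.toSpecialFibre 0 2 α)) := by
    rw [← LinearMap.ker_eq_bot, LinearMap.ker_eq_bot']
    intro y' hy'
    exact Subtype.ext (res_inj2 X hI h2 hα y'.2 hy')
  have hmap : (frobPart X.toSpecialFibre 0 2 α).map (X.res 0) ≤
      frobPart X.toSpecialFibre 1 2 α := by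
    rintro _ ⟨y', hy', rfl⟩
    exact res_frobPart X.toSpecialFibre 0 2 hy'
  have heq : finrank Ω ((frobPart X.toSpecialFibre 0 2 α).map (X.res 0)) =
      finrank Ω (frobPart X.toSpecialFibre 0 2 α) := by
    have h5 : LinearMap.range ((X.res 0).domRestrict (frobPart X.toSpecialFibre 0 2 α)) =
        (frobPart X.toSpecialFibre 0 2 α).map (X.res 0) := by
      ext t
      constructor
      · rintro ⟨s, rfl⟩
        exact ⟨s, s.2, rfl⟩
      · rintro ⟨s, hs, rfl⟩
        exact ⟨⟨s, hs⟩, rfl⟩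
    rw [← h5, LinearMap.finrank_range_of_inj hinj]
  have hfull := Submodule.eq_of_le_of_finrank_le hmap (by rw [heq]; exact hle)
  rw [← hfull] at hz
  obtain ⟨y', hy', hyz'⟩ := hz
  exact ⟨y', hy', hyz'⟩

/-- mw purity for threefolds whose forms of degree two and three degenerate completely. -/
theorem mw_deg (hq : IsPrimePow q)
    (X : Degeneration.{u, v} Ω Γ 3 q) (A : DivisorClasses X.toSpecialFibre)
    (X' : SemistableModel.{u, v} Ω' Γ' 3 q) (A' : DivisorClasses X'.toSpecialFibre)
    (hC : AreComparable X.toSpecialFibre X'.toSpecialFibre)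
    (R : ValuationSubring Ω') (hR : ((q : Ω'))⁻¹ ∉ R)
    (h2 : GradedTate X.toSemistableModel 2 2)
    {h : ℕ} (hN : NewtonBound X' 3 h R)
    (hW : IsCompletelyDegenerate X' 3 h)
    (hT : A.TateConj 0) (k : ℕ) :
    IsMWPure q k (X.actV k X.frob) (X.N k) :=
  mw_three X rfl hC.1 A hT (fun α hα z hz => surj_of_compare3 X.toSemistableModel X' hq hC.1
    hC.2.2.1 hC.2.2.2 R hR h2 (fun _ hα' _ hz' => res_surj2 X' hC.2.1 R
      (fun _ _ _ hv1 hvα => slope_two X' A' R hN hW hv1 hvα) hα' hz') α hα z hz) k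

end final

end Pool.Agent.X302.MW
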