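import Pool.Agent.Y143.SimpleDefs

/-!
# Controlled characters
-/

namespace Pool.Agent.X302.MW

universe u v

open Module Pool.Agent.Y143

variable {Ω : Type u} [Field Ω] [CharZero Ω] {Γ : Type} {n q : ℕ}

/-- All the classes of character `χ` (simultaneous generalized eigenspace of the operators in `Γ`) in
`H^2(Y^(a+1))` are linear combinations of classes of divisors. -/
def AlgebraicAt {X : SpecialFibre.{u, v} Ω Γ n q} (A : DivisorClasses X) (a : ℕ) (χ : Γ → Ω) :
    Prop :=
  ∀ x ∈ X.gr a 2, x ∈ Wt (X.act a) χ → x ∈ Submodule.span Ω (A.A1 a : Set (X.H a))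

/-- The character `χ` does not occur in `H^w(Y^(a+1))`. -/
def AbsentAt (X : SpecialFibre.{u, v} Ω Γ n q) (a : ℕ) (w : ℤ) (χ : Γ → Ω) : Prop :=
  Disjoint (X.gr a w) (Wt (X.act a) χ)

/-- The character dual to `χ` in weight `w`: its value at the Frobenius is `q ^ w / χ(frob)`. -/
def dualAt (X : SpecialFibre.{u, v} Ω Γ n q) (w : ℤ) (χ : Γ → Ω) : Γ → Ω :=
  fun g => (X.cyc g : Ω) ^ w * χ (X.tr g)

/-- The primitive part of `E_1^(i, w)` of character `χ` is contained in the image of the differential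
`E_1^(i - 1, w) → E_1^(i, w)`. -/
def CoveredAt (X : SpecialFibre.{u, v} Ω Γ n q) (i w : ℤ) (χ : Γ → Ω) : Prop :=
  X.primPart i w χ ≤ X.coboundaries i w

/-- The character `χ` is controlled in weight `w` on `Y^(a+2)`: it is simple in `E_1^(a+1, w)`, or the
dual character is covered, or `χ` does not occur in `H^w(Y^(a+1))`, or `w = 2` and the classes of
character `χ` in `H^2(Y^(a+1))` are algebraic. -/
def ControlledAt {X : SpecialFibre.{u, v} Ω Γ n q} (A : DivisorClasses X) (a w : ℕ)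
    (χ : Γ → Ω) : Prop :=
  X.SimpleAt ((a : ℤ) + 1) w χ ∨ CoveredAt X ((a : ℤ) + 1) w (dualAt X w χ) ∨ AbsentAt X a w χ ∨
    (w = 2 ∧ AlgebraicAt A a χ)

end Pool.Agent.X302.MW
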