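import Pool.Agent.X302.MW.Padic

/-!
# Determinants of the Frobenius on the parts of weight zero and one of `H^3` of a threefold
-/

namespace Pool.Agent.X302.MW

universe u v

open Module Pool.Agent.Y143

section la

variable {Ω : Type*} [Field Ω] {V : Type*} [AddCommGroup V] [Module Ω V] {K : Type*}
  [AddCommGroup K] [Module Ω K]

/-- The determinant of an operator on a stable subspace, as the product of the determinants on a
smaller stable subspace and on the quotient. -/
lemma det_split (T : Module.End Ω V) {U A : Submodule Ω V} (hAU : A ≤ U)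
    (hU : ∀ x ∈ U, T x ∈ U) (hA : ∀ x ∈ A, T x ∈ A) [FiniteDimensional Ω U] (φ : U →ₗ[Ω] K)
    (hφ : ∀ x : U, φ x = 0 ↔ (x : V) ∈ A) (hs : Function.Surjective φ) (T' : Module.End Ω K)
    (hT : ∀ x : U, φ ⟨T x, hU x x.2⟩ = T' (φ x)) :
    LinearMap.det (T.restrict hU) = LinearMap.det (T.restrict hA) * LinearMap.det T' := by
  have he : LinearMap.ker φ ≤ (LinearMap.ker φ).comap (T.restrict hU) := by
    intro x hx
    rw [LinearMap.mem_ker] at hx
    rw [Submodule.mem_comap, LinearMap.mem_ker]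
    have := hT x
    rw [hx, map_zero] at this
    exact this
  rw [LinearMap.det_eq_det_mul_det (LinearMap.ker φ) (T.restrict hU) he]
  congr 1
  · -- the kernel
    let e : LinearMap.ker φ ≃ₗ[Ω] A :=
      { toFun := fun x => ⟨x.1.1, (hφ x.1).1 x.2⟩
        invFun := fun y => ⟨⟨y.1, hAU y.2⟩, (hφ _).2 y.2⟩
        left_inv := fun x => by rfl
        right_inv := fun y => by rfl
        map_add' := fun x y => by rfl
        map_smul' := fun c x => by rfl }
    rw [← LinearMap.det_conj _ e]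
    congr 1
  · -- the quotient
    let e : (U ⧸ LinearMap.ker φ) ≃ₗ[Ω] K := φ.quotKerEquivOfSurjective hs
    rw [← LinearMap.det_conj _ e]
    congr 1
    ext z
    obtain ⟨x, rfl⟩ := hs z
    have h1 : e.symm (φ x) = (LinearMap.ker φ).mkQ x := by
      rw [LinearEquiv.symm_apply_eq]
      rfl
    show e ((LinearMap.ker φ).mapQ (LinearMap.ker φ) (T.restrict hU) he (e.symm (φ x))) = T' (φ x)
    rw [h1, ← hT x]
    rfl

/-- The dimension of a subspace. -/
lemma finrank_split {U A : Submodule Ω V} (hAU : A ≤ U) [FiniteDimensional Ω U] (φ : U →ₗ[Ω] K)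
    (hφ : ∀ x : U, φ x = 0 ↔ (x : V) ∈ A) (hs : Function.Surjective φ) :
    finrank Ω U = finrank Ω A + finrank Ω K := by
  have h1 := LinearMap.finrank_range_add_finrank_ker φ
  have h2 : finrank Ω (LinearMap.range φ) = finrank Ω K := by
    rw [LinearMap.range_eq_top.2 hs, finrank_top]
  let e : LinearMap.ker φ ≃ₗ[Ω] A :=
      { toFun := fun x => ⟨x.1.1, (hφ x.1).1 x.2⟩
        invFun := fun y => ⟨⟨y.1, hAU y.2⟩, (hφ _).2 y.2⟩
        left_inv := fun x => by rfl
        right_inv := fun y => by rfl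
        map_add' := fun x y => by rfl
        map_smul' := fun c x => by rfl }
  have h3 := e.finrank_eq
  omega

/-- The determinant of an operator which multiplies a nondegenerate form by `c`. -/
lemma det_sq [FiniteDimensional Ω K] (B : K →ₗ[Ω] K →ₗ[Ω] Ω)
    (hB : ∀ x, (∀ y, B x y = 0) → x = 0) (T : Module.End Ω K) (c : Ω)
    (hT : ∀ x y, B (T x) (T y) = c * B x y) :
    LinearMap.det T ^ 2 = c ^ finrank Ω K := by
  have hinj : Function.Injective B := by
    rw [← LinearMap.ker_eq_bot, LinearMap.ker_eq_bot']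
    intro x hx
    exact hB x fun y => by rw [hx]; rfl
  have hdim : finrank Ω K = finrank Ω (Dual Ω K) := (Subspace.dual_finrank_eq).symm
  let e : K ≃ₗ[Ω] Dual Ω K := LinearEquiv.ofBijective B
    ⟨hinj, (LinearMap.injective_iff_surjective_of_finrank_eq_finrank hdim).1 hinj⟩
  have h1 : (T.dualMap ∘ₗ (e : K →ₗ[Ω] Dual Ω K)) ∘ₗ T = c • (e : K →ₗ[Ω] Dual Ω K) := by
    ext x y
    exact hT x y
  have h2 : ((e.symm : Dual Ω K →ₗ[Ω] K) ∘ₗ T.dualMap ∘ₗ (e : K →ₗ[Ω] Dual Ω K)) ∘ₗ T =
      c • LinearMap.id := by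
    rw [LinearMap.comp_assoc, h1]
    ext x
    simp
  have h3 := congrArg LinearMap.det h2
  rw [LinearMap.det_comp, LinearMap.det_smul, LinearMap.det_id, mul_one] at h3
  have h4 : LinearMap.det ((e.symm : Dual Ω K →ₗ[Ω] K) ∘ₗ T.dualMap ∘ₗ
      (e : K →ₗ[Ω] Dual Ω K)) = LinearMap.det T := by
    have h5 := LinearMap.det_conj T.dualMap e.symm
    rw [LinearMap.det_dualMap] at h5
    rw [← h5]
    rfl
  rw [h4] at h3
  rw [sq, h3]

end la

variable {Ω : Type u} [Field Ω] [CharZero Ω] {Γ : Type} {n q : ℕ}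

section strata

variable {X : SpecialFibre.{u, v} Ω Γ n q}

/-- The kernel of the Gysin map on the middle cohomology of the stratum `Y^(b+2)`. -/
noncomputable def KK (X : SpecialFibre.{u, v} Ω Γ n q) (b : ℕ) (m : ℤ) :
    Submodule Ω (X.H (b + 1)) :=
  X.gr (b + 1) m ⊓ LinearMap.ker (X.gys b)

lemma KK_act (b : ℕ) (m : ℤ) (g : Γ) {x : X.H (b + 1)} (hx : x ∈ KK X b m) :
    X.act (b + 1) g x ∈ KK X b m := by
  refine ⟨X.act_gr (b + 1) m g x hx.1, ?_⟩
  have h1 : X.gys b x = 0 := hx.2
  have h2 := X.gys_act b g x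
  rw [h1, map_zero] at h2
  exact (smul_eq_zero.1 h2.symm).resolve_left (X.cyc g).ne_zero

/-- The orthogonal decomposition of the middle cohomology of a stratum. -/
lemma exists_KK (b : ℕ) {m : ℤ} (hm : m = n - ((b + 1 : ℕ) : ℤ))
    (hc : ∀ y ∈ X.gr b m, X.gys b (X.res b y) = 0 → X.res b y = 0) {x : X.H (b + 1)}
    (hx : x ∈ X.gr (b + 1) m) : ∃ y ∈ X.gr b m, x - X.res b y ∈ KK X b m := by
  have hgys : ∀ z ∈ X.gr (b + 1) m, (∀ y ∈ X.gr b m, X.pair (b + 1) (X.res b y) z = 0) →
      X.gys b z = 0 := by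
    intro z hz h
    apply X.pair_nondeg'
    intro y
    have hg := X.gys_gr b m z hz
    refine X.gr_induction (P := fun y => X.pair b y (X.gys b z) = 0) (by simp)
      (fun y z hy hz => by rw [map_add, LinearMap.add_apply, hy, hz, add_zero])
      (fun m' y hy => ?_) y
    by_cases hm' : m' = m
    · subst hm'
      rw [← X.pair_res]
      exact h y hy
    · refine X.pair_gr b m' (m + 2) _ _ hy hg ?_
      push_cast at hm
      omega
  obtain ⟨_, ⟨y, hy, rfl⟩, hv⟩ := exists_repr (X.pair (b + 1)) ((X.gr b m).map (X.res b)) (by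
    rintro _ ⟨y, hy, rfl⟩ h
    apply hc y hy
    apply hgys _ (X.res_gr b m y hy)
    intro y' hy'
    have h1 := h _ ⟨y', hy', rfl⟩
    rw [X.pair_symm (b + 1) m _ _ (X.res_gr b m y hy), h1, mul_zero]) (X.pair (b + 1) x)
  refine ⟨y, hy, ?_, ?_⟩
  · exact Submodule.sub_mem _ hx (X.res_gr b m y hy)
  · show X.gys b (x - X.res b y) = 0
    apply hgys _ (Submodule.sub_mem _ hx (X.res_gr b m y hy))
    intro y' hy'
    have h1 := hv _ ⟨y', hy', rfl⟩
    have hd : x - X.res b y ∈ X.gr (b + 1) m := Submodule.sub_mem _ hx (X.res_gr b m y hy)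
    rw [X.pair_symm (b + 1) m _ _ hd, map_sub, LinearMap.sub_apply, h1, sub_self, mul_zero]

lemma KK_unique (b : ℕ) {m : ℤ}
    (hc : ∀ y ∈ X.gr b m, X.gys b (X.res b y) = 0 → X.res b y = 0) {y : X.H b}
    (hy : y ∈ X.gr b m) (h : X.res b y ∈ KK X b m) : X.res b y = 0 := hc y hy h.2

/-- The square of the determinant of the Frobenius. -/
lemma det_KK (b : ℕ) {m : ℤ} (hm : m = n - ((b + 1 : ℕ) : ℤ))
    (hc : ∀ y ∈ X.gr b m, X.gys b (X.res b y) = 0 → X.res b y = 0) :
    LinearMap.det ((X.act (b + 1) X.frob).restrict (fun _ hx => KK_act b m X.frob hx)) ^ 2 =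
      ((q : Ω) ^ m) ^ finrank Ω (KK X b m) := by
  let B : KK X b m →ₗ[Ω] KK X b m →ₗ[Ω] Ω :=
    (X.pair (b + 1)).compl₁₂ (KK X b m).subtype (KK X b m).subtype
  have hBa : ∀ x y, B x y = X.pair (b + 1) (x : X.H (b + 1)) y := fun x y => rfl
  apply det_sq B
  · intro x hx
    apply Subtype.ext
    apply X.pair_nondeg (b + 1)
    intro y
    refine X.gr_induction (P := fun y => X.pair (b + 1) (x : X.H (b + 1)) y = 0) (by simp)
      (fun y z hy hz => by rw [map_add, hy, hz, add_zero]) (fun m' y hy => ?_) y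
    by_cases hm' : m' = m
    · subst hm'
      obtain ⟨z, hz, hyz⟩ := exists_KK b hm hc hy
      have e : y = X.res b z + (y - X.res b z) := by abel
      have h1 := hx ⟨_, hyz⟩
      rw [hBa] at h1
      have h2 : X.pair (b + 1) (x : X.H (b + 1)) (X.res b z) = 0 := by
        rw [← X.pair_gys, show X.gys b (x : X.H (b + 1)) = 0 from x.2.2, map_zero,
          LinearMap.zero_apply]
      rw [e, map_add, h2, zero_add]
      exact h1
    · refine X.pair_gr (b + 1) m m' _ _ x.2.1 hy ?_
      omega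
  · intro x y
    have h1 := X.act_pair (b + 1) X.frob (x : X.H (b + 1)) (X.act (b + 1) X.frob y)
    rw [X.frob_inv, ← hm, Units.val_zpow_eq_zpow_val, X.cyc_frob] at h1
    exact h1

end strata

section weights

variable (X : SemistableModel.{u, v} Ω Γ 3 q)

/-- The term `E_1` in the last position of the rows of weight zero and one. -/
lemma E_last {b : ℕ} {m : ℤ} (hb : m = 3 - ((b + 1 : ℕ) : ℤ)) (hb1 : 1 ≤ b) {x : X.C}
    (hx : x ∈ X.E₁ (3 - m) m) : x (b + 1) ∈ X.gr (b + 1) m ∧ x = Pi.single (b + 1) (x (b + 1)) := by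
  classical
  constructor
  · have := (hx (b + 1)).1
    rwa [show m + (3 - m) - ((b + 1 : ℕ) : ℤ) = m by omega] at this
  · funext a
    by_cases ha : a = b + 1
    · subst ha
      rw [Pi.single_eq_same]
    · rw [Pi.single_eq_of_ne ha]
      by_cases hc : InColumn (3 - m) a
      · have h1 := hc.1
        have h2 := hc.2
        rw [hb, show (3 : ℤ) - (3 - ((b + 1 : ℕ) : ℤ)) = ((b + 1 : ℕ) : ℤ) by ring] at h1 h2
        rw [abs_of_nonneg (by positivity)] at h1
        exact X.eq_zero_of_lt (by omega) _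
      · exact (hx a).2 hc

lemma E_first {b : ℕ} {m : ℤ} (hb : m = 3 - ((b + 1 : ℕ) : ℤ)) (hm1 : m ≤ 1) {x : X.C}
    (hx : x ∈ X.E₁ (3 - m - 1) m) : x b ∈ X.gr b m ∧ x = Pi.single b (x b) := by
  classical
  constructor
  · have := (hx b).1
    rwa [show m + (3 - m - 1) - (b : ℤ) = m by push_cast at hb; omega] at this
  · funext a
    by_cases ha : a = b
    · subst ha
      rw [Pi.single_eq_same]
    · rw [Pi.single_eq_of_ne ha]
      by_cases hc : InColumn (3 - m - 1) a
      · have h1 := hc.1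
        have h2 := hc.2
        rw [hb, show (3 : ℤ) - (3 - ((b + 1 : ℕ) : ℤ)) - 1 = (b : ℤ) by push_cast; ring] at h1 h2
        rw [abs_of_nonneg (by positivity)] at h1
        have h3 := (hx a).1
        rw [X.gr_eq_bot a _ (Or.inl (by push_cast at hb; omega)), Submodule.mem_bot] at h3
        exact h3
      · exact (hx a).2 hc

lemma coc_last {b : ℕ} {m : ℤ} (hb : m = 3 - ((b + 1 : ℕ) : ℤ)) (hb1 : 1 ≤ b) (hm0 : 0 ≤ m)
    {z : X.H (b + 1)} (hz : z ∈ X.gr (b + 1) m) :
    (Pi.single (b + 1) z : X.C) ∈ X.cocycles (3 - m) m := by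
  classical
  have e0 : (3 : ℤ) - m = ((b + 1 : ℕ) : ℤ) := by omega
  refine ⟨X.single_mem ?_ ?_, ?_⟩
  · rw [e0]
    exact ⟨by rw [abs_of_nonneg (by positivity)], ⟨0, by simp⟩⟩
  · rwa [show m + (3 - m) - ((b + 1 : ℕ) : ℤ) = m by omega]
  · rw [SetLike.mem_coe, LinearMap.mem_ker]
    funext a
    rw [X.diff_apply]
    by_cases hc : InColumn (3 - m + 1) a
    · have h1 := hc.1
      rw [e0, abs_of_nonneg (by positivity)] at h1
      rw [X.cut_of hc, Pi.add_apply, X.gysC_apply, Pi.single_eq_of_ne (by omega), map_zero,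
        add_zero]
      cases a with
      | zero => rfl
      | succ a =>
        rw [X.resC_succ]
        by_cases ha : a = b + 1
        · subst ha
          rw [Pi.single_eq_same]
          have h2 := X.res_gr (b + 1) m z hz
          rw [X.gr_eq_bot (b + 1 + 1) m (Or.inr (by push_cast at hb ⊢; omega)),
            Submodule.mem_bot] at h2
          rw [h2]
          rfl
        · rw [Pi.single_eq_of_ne ha, map_zero]
          rfl
    · rw [X.cut_of_not hc]
      rfl

lemma cob_last {b : ℕ} {m : ℤ} (hb : m = 3 - ((b + 1 : ℕ) : ℤ)) (hb1 : 1 ≤ b) (hm1 : m ≤ 1)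
    (x : X.C) : x ∈ X.coboundaries (3 - m) m ↔
      ∃ y ∈ X.gr b m, x = Pi.single (b + 1) (X.res b y) := by
  classical
  have e0 : (3 : ℤ) - m = ((b + 1 : ℕ) : ℤ) := by omega
  have key : ∀ y : X.H b, y ∈ X.gr b m →
      X.diff (3 - m - 1) (Pi.single b y : X.C) = Pi.single (b + 1) (X.res b y) := by
    intro y hy
    funext a
    rw [X.diff_apply]
    by_cases hc : InColumn (3 - m - 1 + 1) a
    · have h1 := hc.1
      have h2 := hc.2
      rw [show (3 : ℤ) - m - 1 + 1 = ((b + 1 : ℕ) : ℤ) by omega] at h1 h2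
      rw [abs_of_nonneg (by positivity)] at h1
      rw [X.cut_of hc, Pi.add_apply, X.gysC_apply, Pi.single_eq_of_ne (by omega), map_zero,
        add_zero]
      cases a with
      | zero => omega
      | succ a =>
        rw [X.resC_succ]
        by_cases ha : a = b
        · subst ha
          rw [Pi.single_eq_same, Pi.single_eq_same]
        · rw [Pi.single_eq_of_ne ha, map_zero, Pi.single_eq_of_ne (by omega)]
    · rw [X.cut_of_not hc]
      by_cases ha : a = b + 1
      · subst ha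
        exfalso
        apply hc
        rw [show (3 : ℤ) - m - 1 + 1 = ((b + 1 : ℕ) : ℤ) by omega]
        exact ⟨by rw [abs_of_nonneg (by positivity)], ⟨0, by simp⟩⟩
      · rw [Pi.single_eq_of_ne ha]
  constructor
  · rintro ⟨y, hy, rfl⟩
    obtain ⟨h1, h2⟩ := E_first X hb hm1 hy
    refine ⟨y b, h1, ?_⟩
    rw [← key _ h1, ← h2]
  · rintro ⟨y, hy, rfl⟩
    refine ⟨Pi.single b y, ?_, key y hy⟩
    apply X.single_mem
    · rw [show (3 : ℤ) - m - 1 = (b : ℤ) by push_cast at hb; omega]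
      exact ⟨by rw [abs_of_nonneg (by positivity)], ⟨0, by simp⟩⟩
    · rwa [show m + (3 - m - 1) - (b : ℤ) = m by push_cast at hb; omega]

end weights

end Pool.Agent.X302.MW
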