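import Pool.Agent.X302.MW.Log
import Pool.Agent.X302.MW.Cal

/-!
# Determinants of the Frobenius on the parts of weight zero and one of `H^m`, in all dimensions
-/

namespace Pool.Agent.X302.MW

universe u v

open Module Submodule Pool.Agent.Y143

variable {Ω : Type u} [Field Ω] [CharZero Ω] {Γ : Type} {n q : ℕ}

section strata

variable (X : SpecialFibre.{u, v} Ω Γ n q)

lemma lef_pow_act (a s : ℕ) (g : Γ) (x : X.H a) :
    X.act a g ((X.lef a ^ s) x) = ((X.cyc g : Ω)) ^ s • (X.lef a ^ s) (X.act a g x) := by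
  induction s with
  | zero => simp
  | succ s ih =>
    rw [pow_succ', Module.End.mul_apply, X.lef_act, ih, map_smul, smul_smul, ← pow_succ',
      Module.End.mul_apply]

lemma pair_frob (a : ℕ) (x y : X.H a) :
    X.pair a (X.act a X.frob x) (X.act a X.frob y) = (q : Ω) ^ ((n : ℤ) - a) * X.pair a x y := by
  have h1 := X.act_pair a X.frob x (X.act a X.frob y)
  rwa [X.frob_inv, Units.val_zpow_eq_zpow_val, X.cyc_frob] at h1

/-- The form `(x, L^s y)` is multiplied by `q ^ w`. -/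
lemma form_frob (a s w : ℕ) (h : s + w + a = n) (x y : X.H a) :
    X.pair a (X.act a X.frob x) ((X.lef a ^ s) (X.act a X.frob y)) =
      (q : Ω) ^ w * X.pair a x ((X.lef a ^ s) y) := by
  have hq : (q : Ω) ≠ 0 := Nat.cast_ne_zero.2 X.q_ne
  have h1 := lef_pow_act X a s X.frob y
  rw [X.cyc_frob] at h1
  have h2 := pair_frob X a x ((X.lef a ^ s) y)
  rw [h1, map_smul, smul_eq_mul] at h2
  have h3 : (q : Ω) ^ ((n : ℤ) - a) = (q : Ω) ^ s * (q : Ω) ^ w := by
    rw [← pow_add, ← zpow_natCast]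
    congr 1
    push_cast
    omega
  rw [h3, mul_assoc] at h2
  exact mul_left_cancel₀ (pow_ne_zero s hq) h2

lemma gr_bot_of_lt (a : ℕ) {w : ℕ} (hw : w ≤ 1) (h : n < w + a) : X.gr a w = ⊥ := by
  rcases Nat.lt_or_ge n a with ha | ha
  · exact X.gr_eq_bot a _ (Or.inr (by omega))
  · have : n = a ∧ w = 1 := by omega
    exact X.gr_eq_bot a _ (Or.inr (by omega))

/-- The square of the determinant of the Frobenius on a stable subspace of `gr a w` on which the
form is nondegenerate. -/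
lemma det_form (a : ℕ) {w : ℕ} (hw : w ≤ 1) (F : Submodule Ω (X.H a)) (hF : F ≤ X.gr a w)
    (hs : ∀ x ∈ F, X.act a X.frob x ∈ F)
    (hnd : ∀ x ∈ F, (∀ y ∈ F, X.pair a x ((X.lef a ^ (n - a - w)) y) = 0) → x = 0) :
    LinearMap.det ((X.act a X.frob).restrict hs) ^ 2 = ((q : Ω) ^ w) ^ finrank Ω F := by
  rcases Nat.lt_or_ge n (w + a) with h | h
  · have hF0 : F = ⊥ := by
      rw [eq_bot_iff, ← gr_bot_of_lt X a hw h]
      exact hF
    subst hF0
    rw [LinearMap.det_eq_one_of_subsingleton, finrank_bot, pow_zero, one_pow]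
  · let B : F →ₗ[Ω] F →ₗ[Ω] Ω :=
      ((X.pair a).compl₂ (X.lef a ^ (n - a - w))).compl₁₂ F.subtype F.subtype
    apply det_sq B
    · intro x hx
      exact Subtype.ext (hnd x x.2 (fun y hy => hx ⟨y, hy⟩))
    · intro x y
      exact form_frob X a (n - a - w) w (by omega) x y

/-- The whole of `H^w`, `w ≤ 1`. -/
lemma det_gr (a : ℕ) {w : ℕ} (hw : w ≤ 1) :
    LinearMap.det ((X.act a X.frob).restrict
      (fun x (hx : x ∈ X.gr a w) => X.act_gr a w X.frob x hx)) ^ 2 =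
        ((q : Ω) ^ w) ^ finrank Ω (X.gr a w) := by
  apply det_form X a hw _ le_rfl
  intro x hx h
  rcases Nat.lt_or_ge n (w + a) with h' | h'
  · rw [gr_bot_of_lt X a hw h', Submodule.mem_bot] at hx
    exact hx
  · apply eq_zero_of_orth X a hx
    intro b hb
    obtain ⟨y, hy, rfl⟩ := X.lef_surj a (n - a - w) b (by
      rwa [show (n : ℤ) - a + ((n - a - w : ℕ) : ℤ) = 2 * ((n : ℤ) - a) - w by omega])
    apply h y
    rwa [show (n : ℤ) - a - ((n - a - w : ℕ) : ℤ) = w by omega] at hy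

/-- The image of the restriction. -/
noncomputable def BB (b : ℕ) (w : ℤ) : Submodule Ω (X.H (b + 1)) := (X.gr b w).map (X.res b)

/-- The kernel of the restriction. -/
noncomputable def ZZ (a : ℕ) (w : ℤ) : Submodule Ω (X.H a) := X.gr a w ⊓ LinearMap.ker (X.res a)

lemma BB_act (b : ℕ) (w : ℤ) {x : X.H (b + 1)} (hx : x ∈ BB X b w) :
    X.act (b + 1) X.frob x ∈ BB X b w := by
  obtain ⟨y, hy, rfl⟩ := hx
  exact ⟨X.act b X.frob y, X.act_gr b w _ _ hy, (X.res_act b X.frob y).symm⟩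

lemma ZZ_act (a : ℕ) (w : ℤ) {x : X.H a} (hx : x ∈ ZZ X a w) :
    X.act a X.frob x ∈ ZZ X a w := by
  refine ⟨X.act_gr a w _ _ hx.1, ?_⟩
  rw [SetLike.mem_coe, LinearMap.mem_ker, ← X.res_act, show X.res a x = 0 from hx.2, map_zero]

lemma BB_le (b : ℕ) (w : ℤ) : BB X b w ≤ ZZ X (b + 1) w := by
  rintro _ ⟨y, hy, rfl⟩
  exact ⟨X.res_gr b w y hy, X.res_res b y⟩

end strata

section classes

variable {X : SpecialFibre.{u, v} Ω Γ n q} (A : DivisorClasses X)
include A

lemma det_BB (b : ℕ) {w : ℕ} (hw : w ≤ 1) :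
    LinearMap.det ((X.act (b + 1) X.frob).restrict
      (fun x (hx : x ∈ BB X b w) => BB_act X b w hx)) ^ 2 =
        ((q : Ω) ^ w) ^ finrank Ω (BB X b w) := by
  apply det_form X (b + 1) hw _ ((BB_le X b w).trans inf_le_left)
  rintro _ ⟨x, hx, rfl⟩ h
  have h' : ∀ u ∈ X.gr b w, X.pair (b + 1) (X.res b x)
      ((X.lef (b + 1) ^ (n - (b + 1) - w)) (X.res b u)) = 0 := fun u hu => h _ ⟨u, hu, rfl⟩
  interval_cases w
  · exact image0 A b hx h'
  · apply A.weil_one b x hx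
    intro u hu
    have := h' u hu
    rwa [show n - (b + 1) - 1 = n - b - 2 by omega] at this

lemma det_ZZ (a : ℕ) {w : ℕ} (hw : w ≤ 1) :
    LinearMap.det ((X.act a X.frob).restrict
      (fun x (hx : x ∈ ZZ X a w) => ZZ_act X a w hx)) ^ 2 =
        ((q : Ω) ^ w) ^ finrank Ω (ZZ X a w) := by
  have hq : (q : Ω) ≠ 0 := Nat.cast_ne_zero.2 X.q_ne
  let φ : X.gr a w →ₗ[Ω] BB X a w :=
    (X.res a).restrict (fun x hx => ⟨x, hx, rfl⟩)
  have hφ : ∀ x : X.gr a w, φ x = 0 ↔ (x : X.H a) ∈ ZZ X a w := by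
    intro x
    constructor
    · intro h
      exact ⟨x.2, congrArg Subtype.val h⟩
    · intro h
      exact Subtype.ext h.2
  have hs : Function.Surjective φ := by
    rintro ⟨_, ⟨x, hx, rfl⟩⟩
    exact ⟨⟨x, hx⟩, rfl⟩
  have h1 := det_split (X.act a X.frob) (U := X.gr a w) (A := ZZ X a w) inf_le_left
    (fun x hx => X.act_gr a w X.frob x hx) (fun x hx => ZZ_act X a w hx) φ hφ hs
    ((X.act (a + 1) X.frob).restrict (fun x (hx : x ∈ BB X a w) => BB_act X a w hx))
    (fun x => Subtype.ext (X.res_act a X.frob x).symm)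
  have h2 := finrank_split (U := X.gr a w) (A := ZZ X a w) inf_le_left φ hφ hs
  have h3 := det_gr X a hw
  have h4 := det_BB A a hw
  have h5 := congrArg (fun t => t ^ 2) h1
  simp only [mul_pow] at h5
  rw [h3, h4, h2, pow_add] at h5
  exact (mul_right_cancel₀ (pow_ne_zero _ (pow_ne_zero _ hq)) h5).symm

/-- The quotient of the cocycles by the coboundaries. -/
lemma det_quot (b : ℕ) {w : ℕ} (hw : w ≤ 1)
    (hle : (BB X b w).comap (ZZ X (b + 1) w).subtype ≤
      ((BB X b w).comap (ZZ X (b + 1) w).subtype).comap ((X.act (b + 1) X.frob).restrict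
        (fun x (hx : x ∈ ZZ X (b + 1) w) => ZZ_act X (b + 1) w hx))) :
    LinearMap.det (((BB X b w).comap (ZZ X (b + 1) w).subtype).mapQ
      ((BB X b w).comap (ZZ X (b + 1) w).subtype) ((X.act (b + 1) X.frob).restrict
        (fun x (hx : x ∈ ZZ X (b + 1) w) => ZZ_act X (b + 1) w hx)) hle) ^ 2 =
        ((q : Ω) ^ w) ^ finrank Ω (ZZ X (b + 1) w ⧸ (BB X b w).comap (ZZ X (b + 1) w).subtype) := by
  have hq : (q : Ω) ≠ 0 := Nat.cast_ne_zero.2 X.q_ne
  set B' := (BB X b w).comap (ZZ X (b + 1) w).subtype with hB'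
  let φ : ZZ X (b + 1) w →ₗ[Ω] (ZZ X (b + 1) w ⧸ B') := B'.mkQ
  have hφ : ∀ x : ZZ X (b + 1) w, φ x = 0 ↔ (x : X.H (b + 1)) ∈ BB X b w := by
    intro x
    show B'.mkQ x = 0 ↔ _
    rw [Submodule.mkQ_apply, Submodule.Quotient.mk_eq_zero]
    rfl
  have hs : Function.Surjective φ := Submodule.mkQ_surjective B'
  have h1 := det_split (X.act (b + 1) X.frob) (BB_le X b w) (fun x hx => ZZ_act X (b + 1) w hx)
    (fun x hx => BB_act X b w hx) φ hφ hs
    (B'.mapQ B' ((X.act (b + 1) X.frob).restrict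
        (fun x (hx : x ∈ ZZ X (b + 1) w) => ZZ_act X (b + 1) w hx)) hle) (fun x => rfl)
  have h2 := finrank_split (BB_le X b w) φ hφ hs
  have h3 := det_ZZ A (b + 1) hw
  have h4 := det_BB A b hw
  have h5 := congrArg (fun t => t ^ 2) h1
  simp only [mul_pow] at h5
  rw [h3, h4, h2, pow_add] at h5
  exact (mul_left_cancel₀ (pow_ne_zero _ (pow_ne_zero _ hq)) h5).symm

end classes

section generic

variable {X : SemistableModel.{u, v} Ω Γ n q} (A : DivisorClasses X.toSpecialFibre)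

lemma W_stable' (i : ℕ) (m : ℤ) {x : X.V i} (hx : x ∈ X.W i m) :
    X.actV i X.frob x ∈ X.W i m := by
  obtain ⟨y, hy⟩ := X.sp_left i m x hx
  exact (X.sp_mem i m _ _ (X.sp_act i m _ _ X.frob hy)).1

include A in
/-- One step of the weight filtration. -/
lemma det_step (m b : ℕ) {w : ℕ} (hw : w ≤ 1) (hm : m = b + 1 + w) :
    finrank Ω (X.W m ((w : ℤ) - 1)) ≤ finrank Ω (X.W m w) ∧
    LinearMap.det ((X.actV m X.frob).restrict
      (fun x (hx : x ∈ X.W m w) => W_stable' m w hx)) ^ 2 =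
    LinearMap.det ((X.actV m X.frob).restrict
      (fun x (hx : x ∈ X.W m ((w : ℤ) - 1)) => W_stable' m ((w : ℤ) - 1) hx)) ^ 2 *
      ((q : Ω) ^ w) ^ (finrank Ω (X.W m w) - finrank Ω (X.W m ((w : ℤ) - 1))) := by
  classical
  have hW := W_finite X m w
  have hr : (m : ℤ) - w = ((b + 1 : ℕ) : ℤ) := by subst hm; push_cast; ring
  have hw' : (w : ℤ) ≤ 1 := by exact_mod_cast hw
  set Z := ZZ X.toSpecialFibre (b + 1) w with hZ
  set B' := (BB X.toSpecialFibre b w).comap Z.subtype with hB'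
  have hcoc : ∀ v x, (v, x) ∈ X.sp m w → ∃ z : Z, x = Pi.single (b + 1) (z : X.H (b + 1)) := by
    intro v x h
    obtain ⟨z, hz, hz', rfl⟩ := (coc_row X.toSpecialFibre (b + 1) hw' x).1
      (sp_mem' X m w _ hr v x h).2
    exact ⟨⟨z, hz, hz'⟩, rfl⟩
  have hcob : ∀ v (z : Z), (v, (Pi.single (b + 1) (z : X.H (b + 1)) : X.C)) ∈ X.sp m w →
      (v ∈ X.W m ((w : ℤ) - 1) ↔ z ∈ B') := by
    intro v z h
    rw [sp_ker' X m w _ hr v _ h]
    have e : (((b + 1 : ℕ) : ℤ)) = (b : ℤ) + 1 := by push_cast; ring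
    rw [e, cob_row X.toSpecialFibre b hw']
    constructor
    · rintro ⟨y, hy, hyz⟩
      have := congrFun hyz (b + 1)
      rw [Pi.single_eq_same, Pi.single_eq_same] at this
      exact ⟨y, hy, this.symm⟩
    · rintro ⟨y, hy, hyz⟩
      exact ⟨y, hy, by rw [hyz]; rfl⟩
  let G : Submodule Ω (X.W m w × (Z ⧸ B')) :=
    { carrier := {p | ∃ z : Z, ((p.1 : X.V m), (Pi.single (b + 1) (z : X.H (b + 1)) : X.C)) ∈
        X.sp m w ∧ B'.mkQ z = p.2}
      add_mem' := by
        rintro p p' ⟨z, hz, h⟩ ⟨z', hz', h'⟩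
        refine ⟨z + z', ?_, by rw [map_add, h, h']; rfl⟩
        have := (X.sp m w).add_mem hz hz'
        rw [Prod.mk_add_mk, ← Pi.single_add] at this
        exact this
      zero_mem' := ⟨0, by
        have : (Pi.single (b + 1) ((0 : Z) : X.H (b + 1)) : X.C) = 0 := by simp
        rw [this]
        exact (X.sp m w).zero_mem, by simp⟩
      smul_mem' := by
        rintro c p ⟨z, hz, h⟩
        refine ⟨c • z, ?_, by rw [map_smul, h]; rfl⟩
        have := (X.sp m w).smul_mem c hz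
        rw [Prod.smul_mk, ← Pi.single_smul] at this
        exact this }
  obtain ⟨φ, hφ⟩ := exists_map G (by
      intro v
      obtain ⟨x, hx⟩ := X.sp_left m w v v.2
      obtain ⟨z, rfl⟩ := hcoc v x hx
      exact ⟨B'.mkQ z, z, hx, rfl⟩) (by
      rintro k ⟨z, hz, h⟩
      have h1 := (hcob 0 z hz).1 (Submodule.zero_mem _)
      have h' : B'.mkQ z = k := h
      rw [← h', Submodule.mkQ_apply, Submodule.Quotient.mk_eq_zero]
      exact h1)
  have hφ0 : ∀ v k, (v, k) ∈ G → φ v = k := by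
    intro v k hk
    have h1 := G.sub_mem (hφ v) hk
    rw [Prod.mk_sub_mk, sub_self] at h1
    obtain ⟨z, hz, h⟩ := h1
    have h1 := (hcob 0 z hz).1 (Submodule.zero_mem _)
    have h2 : B'.mkQ z = 0 := by
      rw [Submodule.mkQ_apply, Submodule.Quotient.mk_eq_zero]
      exact h1
    rw [h2] at h
    exact sub_eq_zero.1 h.symm
  have hk : ∀ v : X.W m w, φ v = 0 ↔ (v : X.V m) ∈ X.W m ((w : ℤ) - 1) := by
    intro v
    obtain ⟨z, hz, h⟩ := hφ v
    have h' : B'.mkQ z = φ v := h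
    rw [← h', Submodule.mkQ_apply, Submodule.Quotient.mk_eq_zero]
    exact (hcob v z hz).symm
  have hs : Function.Surjective φ := by
    intro k
    obtain ⟨z, rfl⟩ := Submodule.mkQ_surjective B' k
    obtain ⟨v, hv⟩ := sp_right' X m w _ hr (Pi.single (b + 1) (z : X.H (b + 1)) : X.C)
      ((coc_row X.toSpecialFibre (b + 1) hw' _).2 ⟨z, z.2.1, z.2.2, rfl⟩)
    exact ⟨⟨v, (X.sp_mem m w v _ hv).1⟩, hφ0 _ _ ⟨z, hv, rfl⟩⟩
  have hle : B' ≤ B'.comap ((X.act (b + 1) X.frob).restrict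
        (fun x (hx : x ∈ ZZ X.toSpecialFibre (b + 1) w) =>
          ZZ_act X.toSpecialFibre (b + 1) w hx)) := by
    intro x hx
    exact BB_act X.toSpecialFibre b w hx
  have hT : ∀ v : X.W m w, φ ⟨X.actV m X.frob v, W_stable' m w v.2⟩ =
      (B'.mapQ B' ((X.act (b + 1) X.frob).restrict
        (fun x (hx : x ∈ ZZ X.toSpecialFibre (b + 1) w) =>
          ZZ_act X.toSpecialFibre (b + 1) w hx)) hle) (φ v) := by
    intro v
    obtain ⟨z, hz, h⟩ := hφ v
    apply hφ0
    refine ⟨⟨X.act (b + 1) X.frob z, ZZ_act X.toSpecialFibre (b + 1) w z.2⟩, ?_, ?_⟩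
    · have h1 := X.sp_act m w v _ X.frob hz
      have h2 : X.actC ((m : ℤ) - w) X.frob (Pi.single (b + 1) (z : X.H (b + 1)) : X.C) =
          Pi.single (b + 1) (X.act (b + 1) X.frob z) := by
        funext c
        rw [X.actC_apply]
        by_cases hc : c = b + 1
        · subst hc
          rw [Pi.single_eq_same, Pi.single_eq_same, hr, sub_self, Int.zero_ediv, zpow_zero,
            Units.val_one, one_smul]
        · rw [Pi.single_eq_of_ne hc, Pi.single_eq_of_ne hc, map_zero, smul_zero]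
      rw [h2] at h1
      exact h1
    · have h' : B'.mkQ z = φ v := h
      show _ = (B'.mapQ B' _ hle) (φ v)
      rw [← h']
      rfl
  have hAU : X.W m ((w : ℤ) - 1) ≤ X.W m w := X.W_mono m (by omega)
  have h1 := det_split (X.actV m X.frob) hAU (fun x hx => W_stable' m w hx)
    (fun x hx => W_stable' m ((w : ℤ) - 1) hx) φ hk hs _ hT
  have h2 := finrank_split hAU φ hk hs
  have h3 := det_quot A b hw hle
  refine ⟨by omega, ?_⟩
  rw [h1, mul_pow, h3, h2, Nat.add_sub_cancel_left]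

include A in
/-- The square of the determinant of the Frobenius on `W_1 H^m`. -/
theorem det_weight_one (m : ℕ) (hm : 2 ≤ m) :
    finrank Ω (X.W m 0) ≤ finrank Ω (X.W m 1) ∧
      LinearMap.det ((X.actV m X.frob).restrict
        (fun x (hx : x ∈ X.W m 1) => W_stable' m 1 hx)) ^ 2 =
        (q : Ω) ^ (finrank Ω (X.W m 1) - finrank Ω (X.W m 0)) := by
  obtain ⟨b0, hb0⟩ : ∃ b, m = b + 1 + 0 := ⟨m - 1, by omega⟩
  obtain ⟨b1, hb1⟩ : ∃ b, m = b + 1 + 1 := ⟨m - 2, by omega⟩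
  obtain ⟨h0, h0'⟩ := det_step A m b0 (w := 0) (by norm_num) hb0
  obtain ⟨h1, h1'⟩ := det_step A m b1 (w := 1) le_rfl hb1
  have hbot : X.W m (((0 : ℕ) : ℤ) - 1) = ⊥ := W_eq_bot X m (by norm_num)
  have e0 : LinearMap.det ((X.actV m X.frob).restrict
      (fun x (hx : x ∈ X.W m ((0 : ℕ) : ℤ)) => W_stable' m ((0 : ℕ) : ℤ) hx)) ^ 2 = 1 := by
    rw [h0']
    have : ∀ (U : Submodule Ω (X.V m)) (hU : ∀ x ∈ U, X.actV m X.frob x ∈ U), U = ⊥ →
        LinearMap.det ((X.actV m X.frob).restrict hU) = 1 := by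
      rintro U hU rfl
      exact LinearMap.det_eq_one_of_subsingleton _
    rw [this _ _ hbot]
    simp
  have e1 : ∀ (u u' : ℤ) (h : u = u') , LinearMap.det ((X.actV m X.frob).restrict
      (fun x (hx : x ∈ X.W m u) => W_stable' m u hx)) = LinearMap.det ((X.actV m X.frob).restrict
      (fun x (hx : x ∈ X.W m u') => W_stable' m u' hx)) := by
    rintro u u' rfl
    rfl
  rw [e1 (((1 : ℕ) : ℤ) - 1) ((0 : ℕ) : ℤ) (by norm_num), e0, one_mul, pow_one,
    e1 ((1 : ℕ) : ℤ) 1 (by norm_num)] at h1'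
  have e2 : X.W m (((1 : ℕ) : ℤ) - 1) = X.W m 0 := by norm_num
  have e3 : X.W m ((1 : ℕ) : ℤ) = X.W m 1 := by norm_num
  rw [e2, e3] at h1 h1'
  exact ⟨h1, h1'⟩

end generic

end Pool.Agent.X302.MW
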