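import Pool.Agent.Y143.Basic2
import Pool.Agent.X302.MW.Alg

/-!
# Positivity: the critical classes of weight at most two
-/

namespace Pool.Agent.X302.MW

universe u v

open Module Pool.Agent.Y143

variable {Ω : Type u} [Field Ω] [CharZero Ω] {Γ : Type} {n q : ℕ}

section basic

variable (X : SpecialFibre.{u, v} Ω Γ n q)

lemma lef_pow_pair (a s : ℕ) (x y : X.H a) :
    X.pair a ((X.lef a ^ s) x) y = X.pair a x ((X.lef a ^ s) y) := by
  induction s generalizing y with
  | zero => rfl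
  | succ s ih =>
    rw [pow_succ', Module.End.mul_apply, X.lef_pair, ih, ← Module.End.mul_apply (X.lef a ^ s),
      ← pow_succ, pow_succ']

lemma res_lef_pow (a s : ℕ) (x : X.H a) :
    X.res a ((X.lef a ^ s) x) = (X.lef (a + 1) ^ s) (X.res a x) := by
  induction s generalizing x with
  | zero => rfl
  | succ s ih =>
    rw [pow_succ', Module.End.mul_apply, X.res_lef, ih, pow_succ', Module.End.mul_apply]

lemma gys_lef_pow (a s : ℕ) (x : X.H (a + 1)) :
    X.gys a ((X.lef (a + 1) ^ s) x) = (X.lef a ^ s) (X.gys a x) := by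
  induction s generalizing x with
  | zero => rfl
  | succ s ih =>
    rw [pow_succ', Module.End.mul_apply, X.gys_lef, ih, pow_succ', Module.End.mul_apply]

lemma lef_pow_gr (a s : ℕ) {m : ℤ} {x : X.H a} (hx : x ∈ X.gr a m) :
    (X.lef a ^ s) x ∈ X.gr a (m + 2 * s) := by
  induction s with
  | zero => simpa using hx
  | succ s ih =>
    rw [pow_succ', Module.End.mul_apply]
    have := X.lef_gr a _ _ ih
    rwa [show m + 2 * (s : ℤ) + 2 = m + 2 * ((s + 1 : ℕ) : ℤ) by push_cast; ring] at this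

/-- An element of degree `2 dim` is zero if it is orthogonal to `H^0`. -/
lemma eq_zero_of_orth (a : ℕ) {m : ℤ} {x : X.H a} (hx : x ∈ X.gr a m)
    (h : ∀ b ∈ X.gr a (2 * ((n : ℤ) - a) - m), X.pair a x b = 0) : x = 0 := by
  apply X.pair_nondeg
  intro y
  refine X.gr_induction (P := fun y => X.pair a x y = 0) (by simp)
    (fun y z hy hz => by rw [map_add, hy, hz, add_zero]) (fun m' y hy => ?_) y
  by_cases hm : m + m' = 2 * ((n : ℤ) - a)
  · apply h
    rwa [show 2 * ((n : ℤ) - a) - m = m' by omega]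
  · exact X.pair_gr a m m' _ _ hx hy hm

end basic

section classes

variable {X : SpecialFibre.{u, v} Ω Γ n q} (A : DivisorClasses X)
include A

/-- The degree form is nondegenerate on the image of `H^0` under the restriction. -/
lemma image0 (a : ℕ) {x : X.H a} (hx : x ∈ X.gr a 0)
    (h : ∀ u ∈ X.gr a 0, X.pair (a + 1) (X.res a x)
      ((X.lef (a + 1) ^ (n - (a + 1))) (X.res a u)) = 0) : X.res a x = 0 := by
  obtain ⟨k, ω, z, hω, hz, rfl⟩ := exists_indep_decomp (A.A0 a) (A.span_A0 a hx)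
  have key : ∀ s, X.res a (z s) = 0 := by
    intro s
    have h1 : ∀ u ∈ A.A0 a, X.pair (a + 1) (X.res a (z s))
        ((X.lef (a + 1) ^ (n - (a + 1))) (X.res a u)) = 0 := by
      intro u hu
      refine eq_zero_of_int hω (fun s => X.pair (a + 1) (X.res a (z s))
        ((X.lef (a + 1) ^ (n - (a + 1))) (X.res a u))) (fun s => ?_) ?_ s
      · exact A.int0 (a + 1) _ (A.res_A0 a _ (hz s)) _ (A.res_A0 a _ hu)
      · have := h u (A.A0_le a u hu)
        rw [map_sum, map_sum, LinearMap.sum_apply] at this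
        rw [← this]
        apply Finset.sum_congr rfl
        intro s _
        rw [map_smul, map_smul, LinearMap.smul_apply, smul_eq_mul]
    by_contra hne
    obtain ⟨m, hm, hm'⟩ := A.pos0 (a + 1) _ (A.res_A0 a _ (hz s)) hne
    rw [h1 _ (hz s)] at hm'
    have h3 : (m : Ω) = 0 := hm'.symm
    rw [Int.cast_eq_zero] at h3
    omega
  rw [map_sum]
  apply Finset.sum_eq_zero
  intro s _
  rw [map_smul, key, smul_zero]

/-- Weight zero. -/
lemma crit0 (a : ℕ) {y : X.H a} (hy : y ∈ X.gr a 0) (h : X.gys a (X.res a y) = 0) :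
    X.res a y = 0 := by
  apply image0 A a hy
  intro u _
  rw [← res_lef_pow, ← X.pair_gys, h, map_zero, LinearMap.zero_apply]

/-- Weight one. -/
lemma crit1 (a : ℕ) {y : X.H a} (hy : y ∈ X.gr a 1) (h : X.gys a (X.res a y) = 0) :
    X.res a y = 0 := by
  apply A.weil_one a y hy
  intro u _
  rw [← res_lef_pow, ← X.pair_gys, h, map_zero, LinearMap.zero_apply]

/-- Harmonic classes of degree zero are killed by the Gysin map. -/
lemma gys_harm (a : ℕ) {h : X.H (a + 1)} (hh : h ∈ X.gr (a + 1) 0) (hR : X.res (a + 1) h = 0)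
    (ho : ∀ u ∈ X.gr a 0, X.pair (a + 1) h ((X.lef (a + 1) ^ (n - (a + 1))) (X.res a u)) = 0) :
    X.gys a h = 0 := by
  obtain ⟨k, ω, z, hω, hz, rfl⟩ := exists_indep_decomp (A.A0 (a + 1)) (A.span_A0 (a + 1) hh)
  have hRs : ∀ s, X.res (a + 1) (z s) = 0 := by
    intro s
    have h1 : ∀ u ∈ A.A0 (a + 2), X.pair (a + 2) (X.res (a + 1) (z s))
        ((X.lef (a + 2) ^ (n - (a + 2))) u) = 0 := by
      intro u hu
      refine eq_zero_of_int hω (fun s => X.pair (a + 2) (X.res (a + 1) (z s))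
        ((X.lef (a + 2) ^ (n - (a + 2))) u)) (fun s => ?_) ?_ s
      · exact A.int0 (a + 2) _ (A.res_A0 (a + 1) _ (hz s)) _ hu
      · have : X.pair (a + 2) (X.res (a + 1) (∑ s, ω s • z s))
            ((X.lef (a + 2) ^ (n - (a + 2))) u) = 0 := by
          rw [hR, map_zero, LinearMap.zero_apply]
        rw [map_sum, map_sum, LinearMap.sum_apply] at this
        rw [← this]
        apply Finset.sum_congr rfl
        intro s _
        rw [map_smul, map_smul, LinearMap.smul_apply, smul_eq_mul]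
    by_contra hne
    obtain ⟨m, hm, hm'⟩ := A.pos0 (a + 2) _ (A.res_A0 (a + 1) _ (hz s)) hne
    rw [h1 _ (A.res_A0 (a + 1) _ (hz s))] at hm'
    have h3 : (m : Ω) = 0 := hm'.symm
    rw [Int.cast_eq_zero] at h3
    omega
  have hos : ∀ s, ∀ u ∈ A.A0 a, X.pair (a + 1) (z s)
      ((X.lef (a + 1) ^ (n - (a + 1))) (X.res a u)) = 0 := by
    intro s u hu
    refine eq_zero_of_int hω (fun s => X.pair (a + 1) (z s)
      ((X.lef (a + 1) ^ (n - (a + 1))) (X.res a u))) (fun s => ?_) ?_ s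
    · exact A.int0 (a + 1) _ (hz s) _ (A.res_A0 a _ hu)
    · have := ho u (A.A0_le a u hu)
      rw [map_sum, LinearMap.sum_apply] at this
      rw [← this]
      apply Finset.sum_congr rfl
      intro s _
      rw [map_smul, LinearMap.smul_apply, smul_eq_mul]
  have key : ∀ s, X.gys a (z s) = 0 := by
    intro s
    have hgA : X.gys a (z s) ∈ A.A1 a := A.gys_A0 a _ (hz s)
    by_contra hne
    have hprim : (X.lef a ^ (n - a - 1)) (X.gys a (z s)) = 0 := by
      by_cases hna : a + 1 ≤ n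
      · apply eq_zero_of_orth X a (lef_pow_gr X a _ (A.A1_le a _ hgA))
        intro b hb
        have hb0 : b ∈ X.gr a 0 := by
          rwa [show 2 * ((n : ℤ) - a) - (2 + 2 * ((n - a - 1 : ℕ) : ℤ)) = 0 by omega] at hb
        have hf : X.gr a 0 ≤ LinearMap.ker ((X.pair (a + 1) (z s)) ∘ₗ
            (X.lef (a + 1) ^ (n - (a + 1))) ∘ₗ X.res a) := by
          refine (A.span_A0 a).trans (Submodule.span_le.2 fun u hu => ?_)
          exact hos s u hu
        have h5 : X.pair (a + 1) (z s) ((X.lef (a + 1) ^ (n - (a + 1))) (X.res a b)) = 0 := hf hb0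
        rw [lef_pow_pair, X.pair_gys, res_lef_pow, show n - a - 1 = n - (a + 1) by omega, h5]
      · have := X.subsingleton_H (a := a + 1) (by omega)
        rw [Subsingleton.elim (z s) 0, map_zero, map_zero]
    obtain ⟨m, hm, hm'⟩ := A.hodge_index a _ hgA hprim hne
    have h4 : X.pair a (X.gys a (z s)) ((X.lef a ^ (n - a - 2)) (X.gys a (z s))) = 0 := by
      rw [X.pair_gys, res_lef_pow]
      have h5 : X.res a (X.gys a (z s)) = 0 := by
        have := X.res_gys a (z s)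
        rwa [hRs, map_zero, add_zero] at this
      rw [h5, map_zero, map_zero]
    rw [h4] at hm'
    have h3 : (m : Ω) = 0 := hm'.symm
    rw [Int.cast_eq_zero] at h3
    omega
  rw [map_sum]
  apply Finset.sum_eq_zero
  intro s _
  rw [map_smul, key, smul_zero]

/-- Weight two, algebraic classes. -/
lemma crit2 (a : ℕ) (hn : a + 3 ≤ n) {y : X.H a} (hyA : y ∈ Submodule.span Ω (A.A1 a : Set (X.H a)))
    (hG : X.gys a (X.res a y) = 0) :
    ∃ v ∈ X.gr (a + 2) 0, X.res (a + 2) v = 0 ∧ X.res a y = X.gys (a + 1) v := by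
  obtain ⟨d, hd⟩ : ∃ d, n = a + 3 + d := ⟨n - (a + 3), by omega⟩
  -- the form on `H^0` of the next two strata
  let Q1 : X.H (a + 1) →ₗ[Ω] X.H (a + 1) →ₗ[Ω] Ω :=
    (X.pair (a + 1)).compl₂ (X.lef (a + 1) ^ (n - (a + 1)))
  let Q2 : X.H (a + 2) →ₗ[Ω] X.H (a + 2) →ₗ[Ω] Ω :=
    (X.pair (a + 2)).compl₂ (X.lef (a + 2) ^ (n - (a + 2)))
  have hQ1 : ∀ x y, Q1 x y = X.pair (a + 1) x ((X.lef (a + 1) ^ (n - (a + 1))) y) := fun x y => rfl
  have hQ2 : ∀ x y, Q2 x y = X.pair (a + 2) x ((X.lef (a + 2) ^ (n - (a + 2))) y) := fun x y => rfl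
  let F1 : Submodule Ω (X.H (a + 1)) := (X.gr a 0).map (X.res a)
  let F2 : Submodule Ω (X.H (a + 2)) := (X.gr (a + 1) 0).map (X.res (a + 1))
  have hF1 : ∀ x ∈ F1, (∀ y ∈ F1, Q1 x y = 0) → x = 0 := by
    rintro _ ⟨x, hx, rfl⟩ h
    exact image0 A a hx fun u hu => h _ ⟨u, hu, rfl⟩
  have hF2 : ∀ x ∈ F2, (∀ y ∈ F2, Q2 x y = 0) → x = 0 := by
    rintro _ ⟨x, hx, rfl⟩ h
    exact image0 A (a + 1) hx fun u hu => h _ ⟨u, hu, rfl⟩
  -- the functional vanishes on the kernel of the restriction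
  have hker : ∀ k ∈ X.gr (a + 1) 0, X.res (a + 1) k = 0 →
      X.pair (a + 1) (X.res a y) ((X.lef (a + 1) ^ (d + 1)) k) = 0 := by
    intro k hk hRk
    obtain ⟨_, ⟨u0, hu0, rfl⟩, hf⟩ := exists_repr Q1 F1 hF1 (Q1 k)
    set h := k - X.res a u0 with hh
    have hh0 : h ∈ X.gr (a + 1) 0 := Submodule.sub_mem _ hk (X.res_gr a 0 _ hu0)
    have hRh : X.res (a + 1) h = 0 := by rw [hh, map_sub, hRk, X.res_res, sub_zero]
    have hg : X.gys a h = 0 := by
      apply gys_harm A a hh0 hRh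
      intro u hu
      have h1 := hf _ (show X.res a u ∈ F1 from ⟨u, hu, rfl⟩)
      rw [hQ1, hQ1] at h1
      rw [hh, map_sub, LinearMap.sub_apply, h1, sub_self]
    have hk' : k = X.res a u0 + h := by rw [hh]; abel
    rw [hk', map_add, map_add, ← res_lef_pow, ← X.pair_gys, hG, map_zero, LinearMap.zero_apply,
      X.pair_res, gys_lef_pow, hg, map_zero, map_zero, add_zero]
  obtain ⟨φ', hφ'⟩ := exists_factor ((X.res (a + 1)).domRestrict (X.gr (a + 1) 0))
    ((X.pair (a + 1) (X.res a y) ∘ₗ (X.lef (a + 1) ^ (d + 1))).domRestrict (X.gr (a + 1) 0))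
    (fun k hk => hker k k.2 hk)
  obtain ⟨_, ⟨b0, hb0, rfl⟩, hv⟩ := exists_repr Q2 F2 hF2 φ'
  have hv' : ∀ b ∈ X.gr (a + 1) 0, X.pair (a + 2) (X.res (a + 1) b0)
      ((X.lef (a + 2) ^ (n - (a + 2))) (X.res (a + 1) b)) =
        X.pair (a + 1) (X.res a y) ((X.lef (a + 1) ^ (d + 1)) b) := by
    intro b hb
    rw [← hQ2, hv _ ⟨b, hb, rfl⟩]
    exact hφ' ⟨b, hb⟩
  refine ⟨X.res (a + 1) b0, X.res_gr (a + 1) 0 _ hb0, X.res_res (a + 1) b0, ?_⟩
  set z := X.res a y - X.gys (a + 1) (X.res (a + 1) b0) with hz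
  have hGz : X.gys a z = 0 := by rw [hz, map_sub, hG, X.gys_gys, sub_zero]
  have hRz : X.res (a + 1) z = 0 := by
    rw [hz, map_sub, X.res_res, zero_sub]
    have := X.res_gys (a + 1) (X.res (a + 1) b0)
    rw [X.res_res, map_zero, add_zero] at this
    rw [this, neg_zero]
  have hD1 : ∀ b ∈ X.gr (a + 1) 0, X.pair (a + 1) z ((X.lef (a + 1) ^ (d + 1)) b) = 0 := by
    intro b hb
    rw [hz, map_sub, LinearMap.sub_apply, ← hv' b hb, X.pair_gys, res_lef_pow,
      show n - (a + 2) = d + 1 by omega, sub_self]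
  have hD2 : ∀ u, X.pair (a + 1) z ((X.lef (a + 1) ^ d) (X.res a u)) = 0 := by
    intro u
    rw [← res_lef_pow, ← X.pair_gys, hGz, map_zero, LinearMap.zero_apply]
  have hD3 : ∀ u, X.pair (a + 1) z ((X.lef (a + 1) ^ d) (X.gys (a + 1) u)) = 0 := by
    intro u
    rw [← gys_lef_pow, ← X.pair_res, hRz, map_zero, LinearMap.zero_apply]
  -- the rational decomposition
  obtain ⟨k, ω, p, hω, hp, hyb⟩ : ∃ (k : ℕ) (ω : Fin k → Ω) (p : Fin k → X.H a × X.H (a + 1)),
      LinearIndependent ℚ ω ∧ (∀ s, p s ∈ (A.A1 a).prod (A.A0 (a + 1))) ∧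
        (y, b0) = ∑ s, ω s • p s := by
    apply exists_indep_decomp
    let S : Submodule Ω (X.H a × X.H (a + 1)) := Submodule.span Ω
      (((A.A1 a).prod (A.A0 (a + 1)) : AddSubgroup (X.H a × X.H (a + 1))) :
        Set (X.H a × X.H (a + 1)))
    have e1 : Submodule.span Ω (A.A1 a : Set (X.H a)) ≤ S.comap (LinearMap.inl Ω _ _) := by
      rw [Submodule.span_le]
      intro x hx
      exact Submodule.subset_span ⟨hx, zero_mem _⟩
    have e2 : Submodule.span Ω (A.A0 (a + 1) : Set (X.H (a + 1))) ≤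
        S.comap (LinearMap.inr Ω _ _) := by
      rw [Submodule.span_le]
      intro x hx
      exact Submodule.subset_span ⟨zero_mem _, hx⟩
    have h1 : ((y, 0) : X.H a × X.H (a + 1)) ∈ S := e1 hyA
    have h2 : ((0, b0) : X.H a × X.H (a + 1)) ∈ S := e2 (A.span_A0 (a + 1) hb0)
    have := Submodule.add_mem _ h1 h2
    simpa using this
  let T : X.H a × X.H (a + 1) →ₗ[Ω] X.H (a + 1) :=
    (X.res a).coprod (-(X.gys (a + 1) ∘ₗ X.res (a + 1)))
  have hT : ∀ c, T c = X.res a c.1 - X.gys (a + 1) (X.res (a + 1) c.2) := by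
    intro c
    show X.res a c.1 + -(X.gys (a + 1) (X.res (a + 1) c.2)) = _
    rw [sub_eq_add_neg]
  have hzT : z = ∑ s, ω s • T (p s) := by
    have : z = T (y, b0) := by rw [hT]
    rw [this, hyb, map_sum]
    apply Finset.sum_congr rfl
    intro s _
    rw [map_smul]
  have hTA : ∀ s, T (p s) ∈ A.A1 (a + 1) := by
    intro s
    rw [hT]
    exact sub_mem (A.res_A1 a _ (hp s).1) (A.gys_A0 (a + 1) _ (A.res_A0 (a + 1) _ (hp s).2))
  have hdesc : ∀ u ∈ A.A1 (a + 1), X.pair (a + 1) z ((X.lef (a + 1) ^ d) u) = 0 →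
      ∀ s, X.pair (a + 1) (T (p s)) ((X.lef (a + 1) ^ d) u) = 0 := by
    intro u hu h s
    refine eq_zero_of_int hω (fun s => X.pair (a + 1) (T (p s)) ((X.lef (a + 1) ^ d) u))
      (fun s => ?_) ?_ s
    · have := A.int1 (a + 1) _ (hTA s) u hu
      rwa [show n - (a + 1) - 2 = d by omega] at this
    · rw [hzT, map_sum, LinearMap.sum_apply] at h
      rw [← h]
      apply Finset.sum_congr rfl
      intro s _
      rw [map_smul, LinearMap.smul_apply, smul_eq_mul]
  have hzero : ∀ s, T (p s) = 0 := by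
    intro s
    by_contra hne
    have hprim : (X.lef (a + 1) ^ (n - (a + 1) - 1)) (T (p s)) = 0 := by
      apply eq_zero_of_orth X (a + 1) (lef_pow_gr X (a + 1) _ (A.A1_le (a + 1) _ (hTA s)))
      intro b hb
      have hb0 : b ∈ X.gr (a + 1) 0 := by
        rwa [show 2 * ((n : ℤ) - ((a + 1 : ℕ) : ℤ)) - (2 + 2 * ((n - (a + 1) - 1 : ℕ) : ℤ)) = 0 by
          omega] at hb
      have hf : X.gr (a + 1) 0 ≤ LinearMap.ker ((X.pair (a + 1) (T (p s))) ∘ₗ
          (X.lef (a + 1) ^ (d + 1))) := by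
        refine (A.span_A0 (a + 1)).trans (Submodule.span_le.2 fun u hu => ?_)
        show X.pair (a + 1) (T (p s)) ((X.lef (a + 1) ^ (d + 1)) u) = 0
        have h1 := hD1 u (A.A0_le (a + 1) u hu)
        rw [pow_succ, Module.End.mul_apply] at h1 ⊢
        exact hdesc _ (A.lef_A0 (a + 1) u hu) h1 s
      have h5 : X.pair (a + 1) (T (p s)) ((X.lef (a + 1) ^ (d + 1)) b) = 0 := hf hb0
      rw [lef_pow_pair, show n - (a + 1) - 1 = d + 1 by omega, h5]
    obtain ⟨m, hm, hm'⟩ := A.hodge_index (a + 1) _ (hTA s) hprim hne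
    have h4 : X.pair (a + 1) (T (p s)) ((X.lef (a + 1) ^ (n - (a + 1) - 2)) (T (p s))) = 0 := by
      rw [show n - (a + 1) - 2 = d by omega]
      conv_lhs => rw [show T (p s) = X.res a (p s).1 - X.gys (a + 1) (X.res (a + 1) (p s).2) from
        hT (p s)]
      rw [← hT (p s)]
      have g1 := hdesc _ (A.res_A1 a _ (hp s).1) (hD2 _) s
      have g2 := hdesc _ (A.gys_A0 (a + 1) _ (A.res_A0 (a + 1) _ (hp s).2)) (hD3 _) s
      have g3 : X.pair (a + 1) (T (p s)) ((X.lef (a + 1) ^ d)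
          (X.res a (p s).1 - X.gys (a + 1) (X.res (a + 1) (p s).2))) = 0 := by
        rw [map_sub, map_sub, g1, g2, sub_zero]
      rw [← hT (p s)] at g3
      exact g3
    rw [h4] at hm'
    have h3 : (m : Ω) = 0 := hm'.symm
    rw [Int.cast_eq_zero] at h3
    omega
  have hz0 : z = 0 := by
    rw [hzT]
    apply Finset.sum_eq_zero
    intro s _
    rw [hzero, smul_zero]
  exact sub_eq_zero.1 hz0

end classes

end Pool.Agent.X302.MW
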