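import Pool.Agent.Y143.Pure
import Pool.Agent.X302.MW.Core
import Pool.Agent.X302.MW.Low
import Pool.Agent.X302.MW.Defs

/-!
# The weight-monodromy theorem for simple characters: assembly
-/

namespace Pool.Agent.X302.MW

universe u v

open Module Pool.Agent.Y143

variable {Ω : Type u} [Field Ω] [CharZero Ω] {Γ : Type} {n q : ℕ}

section reduce

variable (X : SpecialFibre.{u, v} Ω Γ n q)

lemma inCol_succ_self (a : ℕ) : InColumn ((a : ℤ) + 1) (a + 1) := by
  refine ⟨?_, ⟨0, by push_cast; ring⟩⟩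
  rw [abs_of_nonneg (by positivity)]
  push_cast
  rfl

/-- Every element of `Z^(-i) ∩ B^i` is represented by the restriction of a class on `Y^(i)`. -/
lemma reduce (a : ℕ) (w : ℤ) {y : X.C} (hy : y ∈ X.E₁ a w)
    (hx : X.diff (-((a : ℤ) + 1)) (X.diff a y) = 0) :
    X.gys a (X.res a (y a)) = 0 ∧ ∃ y' ∈ X.E₁ (-((a : ℤ) + 1) - 1) (w + 2 * ((a : ℤ) + 1)),
      X.diff a y = X.diff (-((a : ℤ) + 1) - 1) y' + Pi.single (a + 1) (X.res a (y a)) := by
  classical
  let y' : X.C := fun b => if a + 2 ≤ b then y b else 0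
  have hy'1 : ∀ b, a + 2 ≤ b → y' b = y b := fun b hb => if_pos hb
  have hy'0 : ∀ b, ¬ a + 2 ≤ b → y' b = 0 := fun b hb => if_neg hb
  have hyE : y' ∈ X.E₁ (-((a : ℤ) + 1) - 1) (w + 2 * ((a : ℤ) + 1)) := by
    intro b
    by_cases hb : a + 2 ≤ b
    · rw [hy'1 b hb]
      refine ⟨?_, fun hc => ?_⟩
      · have := (hy b).1
        rwa [show w + 2 * ((a : ℤ) + 1) + (-((a : ℤ) + 1) - 1) - b = w + a - b by ring]
      · apply (hy b).2
        rintro ⟨-, h2⟩
        apply hc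
        refine ⟨?_, by omega⟩
        rw [show -((a : ℤ) + 1) - 1 = -((a : ℤ) + 2) by ring, abs_neg,
          abs_of_nonneg (by positivity)]
        exact_mod_cast hb
    · rw [hy'0 b hb]
      exact ⟨Submodule.zero_mem _, fun _ => rfl⟩
  have heq : X.diff a y = X.diff (-((a : ℤ) + 1) - 1) y' + Pi.single (a + 1) (X.res a (y a)) := by
    funext b
    rw [Pi.add_apply, X.diff_apply, X.diff_apply,
      show -((a : ℤ) + 1) - 1 + 1 = -((a : ℤ) + 1) by ring, X.cut_neg]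
    by_cases hc : InColumn ((a : ℤ) + 1) b
    · rw [X.cut_of hc, X.cut_of hc]
      have hab : a + 1 ≤ b := by
        have := hc.1
        rw [abs_of_nonneg (by positivity)] at this
        exact_mod_cast this
      obtain ⟨b', rfl⟩ : ∃ b', b = b' + 1 := ⟨b - 1, by omega⟩
      rw [Pi.add_apply, Pi.add_apply, X.resC_succ, X.resC_succ, X.gysC_apply, X.gysC_apply,
        hy'1 (b' + 1 + 1) (by omega)]
      by_cases hb' : b' = a
      · subst hb'
        rw [hy'0 b' (by omega), map_zero, Pi.single_eq_same]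
        abel
      · have h2 := hc.2
        push_cast at h2
        rw [hy'1 b' (by omega), Pi.single_eq_of_ne (by omega), add_zero]
    · rw [X.cut_of_not hc, X.cut_of_not hc, Pi.single_eq_of_ne, add_zero]
      rintro rfl
      exact hc (inCol_succ_self a)
  refine ⟨?_, y', hyE, heq⟩
  rw [heq, map_add] at hx
  have h1 := X.diff_diff hyE
  rw [show -((a : ℤ) + 1) - 1 + 1 = -((a : ℤ) + 1) by ring] at h1
  rw [h1, zero_add] at hx
  have h2 := congrFun hx a
  rw [X.diff_apply, show -((a : ℤ) + 1) + 1 = -(a : ℤ) by ring, X.cut_neg, X.cut_of, Pi.add_apply,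
    X.gysC_apply, Pi.single_eq_same] at h2
  · cases a with
    | zero =>
      rw [X.resC_zero, zero_add] at h2
      exact h2
    | succ a =>
      rw [X.resC_succ, Pi.single_eq_of_ne (by omega), map_zero, zero_add] at h2
      exact h2
  · refine ⟨?_, ⟨0, by ring⟩⟩
    rw [Nat.abs_cast]

end reduce

section degeneration

variable [IsAlgClosed Ω] (X : Degeneration.{u, v} Ω Γ n q)

lemma wt_comp {a : ℕ} {μ : Γ → Ω} {y : X.C} (hy : y ∈ Wt (X.actC a) μ) :
    y a ∈ Wt (X.act a) μ := by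
  rw [mem_Wt] at hy ⊢
  intro g
  obtain ⟨k, hk⟩ := hy g
  refine ⟨k, ?_⟩
  have h1 : ∀ (k : ℕ) (x : X.C), (((X.actC a g - μ g • (1 : Module.End Ω X.C)) ^ k) x) a =
      ((X.act a g - μ g • (1 : Module.End Ω (X.H a))) ^ k) (x a) := by
    intro k
    induction k with
    | zero => intro x; rfl
    | succ k ih =>
      intro x
      rw [pow_succ, Module.End.mul_apply, ih, pow_succ, Module.End.mul_apply]
      congr 1
      have h2 : X.actC a g x a = X.act a g (x a) := by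
        rw [X.actC_apply, show ((a : ℤ) - a) / 2 = 0 by simp, zpow_zero, Units.val_one, one_smul]
      show X.actC a g x a - μ g • x a = X.act a g (x a) - μ g • x a
      rw [h2]
  rw [← h1, hk]
  rfl

lemma bd_tot_eq (i j : ℤ) : Bd X.diff X.tot i j = X.coboundaries i (n + j - i) := X.bd_eq i j

/-- A class in the part of character `χ` which is a coboundary is a coboundary in this part. -/
lemma bd_cls {χ : Γ → Ω} {p i j : ℤ} {x : X.C} (hx : x ∈ X.cls χ p i j)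
    (hb : x ∈ Bd X.diff X.tot i j) : x ∈ Bd X.diff (X.cls χ p) i j := by
  have h1 := X.sym.prj_bd χ n p hb
  rwa [prj_of_mem (X.sym.comm i) hx.2] at h1

lemma nInj_cls {χ : Γ → Ω} {p : ℤ} (a m : ℕ) {w : ℤ} (hw : w = n - m - ((a : ℤ) + 1))
    (hK : ∀ y ∈ X.gr a w, y ∈ Wt (X.act a) (chr X.cyc' χ n p ((a : ℤ) + 1) (-m)) →
      X.gys a (X.res a y) = 0 → (Pi.single (a + 1) (X.res a y) : X.C) ∈
        X.coboundaries (-((a : ℤ) + 1)) (w + 2 * ((a : ℤ) + 1))) :
    NInj X.diff (X.cls χ p) ((a : ℤ) + 1) (-m) := by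
  rintro x ⟨hx1, hx2⟩
  apply bd_cls X hx1.1
  obtain ⟨y, hy, hyx⟩ := hx2
  rw [show (a : ℤ) + 1 - 1 = a by ring] at hy hyx
  have hyE : y ∈ X.E₁ a w := X.mem_E₁_cast rfl (by rw [hw]; ring) hy.1
  have hyW : y ∈ Wt (X.actC a) (chr X.cyc' χ n p ((a : ℤ) + 1) (-m)) := by
    have h1 := hy.2
    rw [show (-(m : ℤ)) = (-(m : ℤ) - 1) + 1 by ring, chr_d]
    exact h1
  have hx0 : X.diff (-((a : ℤ) + 1)) (X.diff a y) = 0 := by
    rw [hyx]
    exact hx1.2
  obtain ⟨h1, y', hy', h2⟩ := reduce X.toSpecialFibre a w hyE hx0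
  have hya : y a ∈ X.gr a w := by
    have := (hyE a).1
    rwa [show w + (a : ℤ) - a = w by ring] at this
  have h3 := hK (y a) hya (wt_comp X hyW) h1
  rw [bd_tot_eq, show (n : ℤ) + -(m : ℤ) - -((a : ℤ) + 1) = w + 2 * ((a : ℤ) + 1) by
    rw [hw]; ring, ← hyx, h2]
  exact Submodule.add_mem _ ⟨y', hy', rfl⟩ h3

lemma single_mem_cobound (a : ℕ) {v : X.H (a + 2)} (hv : v ∈ X.gr (a + 2) 0)
    (hR : X.res (a + 2) v = 0) :
    (Pi.single (a + 1) (X.gys (a + 1) v) : X.C) ∈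
      X.coboundaries (-((a : ℤ) + 1)) (2 + 2 * ((a : ℤ) + 1)) := by
  classical
  refine ⟨Pi.single (a + 2) v, ?_, ?_⟩
  · apply X.single_mem
    · refine ⟨?_, ?_⟩
      · rw [show -((a : ℤ) + 1) - 1 = -((a : ℤ) + 2) by ring, abs_neg,
          abs_of_nonneg (by positivity)]
        push_cast
        rfl
      · refine ⟨(a : ℤ) + 2, by push_cast; ring⟩
    · rwa [show 2 + 2 * ((a : ℤ) + 1) + (-((a : ℤ) + 1) - 1) - ((a + 2 : ℕ) : ℤ) = 0 by
        push_cast; ring]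
  · funext b
    rw [X.diff_apply, show -((a : ℤ) + 1) - 1 + 1 = -((a : ℤ) + 1) by ring, X.cut_neg]
    by_cases hc : InColumn ((a : ℤ) + 1) b
    · rw [X.cut_of hc, Pi.add_apply, X.gysC_apply]
      have hab : a + 1 ≤ b := by
        have := hc.1
        rw [abs_of_nonneg (by positivity)] at this
        exact_mod_cast this
      obtain ⟨b', rfl⟩ : ∃ b', b = b' + 1 := ⟨b - 1, by omega⟩
      rw [X.resC_succ]
      by_cases hb : b' = a
      · subst hb
        rw [Pi.single_eq_of_ne (by omega), map_zero, zero_add, Pi.single_eq_same,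
          Pi.single_eq_same]
      · by_cases hb2 : b' = a + 2
        · subst hb2
          rw [Pi.single_eq_same, hR, zero_add, Pi.single_eq_of_ne (by omega), map_zero,
            Pi.single_eq_of_ne (by omega)]
        · rw [Pi.single_eq_of_ne hb2, map_zero, zero_add, Pi.single_eq_of_ne (by omega), map_zero,
            Pi.single_eq_of_ne (by omega)]
    · rw [X.cut_of_not hc, Pi.single_eq_of_ne]
      rintro rfl
      exact hc (inCol_succ_self a)

lemma simple_cases {C : Type*} [AddCommGroup C] [Module Ω C] [FiniteDimensional Ω C]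
    {P B : Submodule Ω C} (h : IsSimpleIn P B) : P ≤ B ∨ Disjoint P B := by
  rcases h with h | h | h
  · by_cases h0 : P ⊓ B = ⊥
    · exact Or.inr (disjoint_iff.2 h0)
    · left
      have h1 : 0 < finrank Ω (P ⊓ B : Submodule Ω C) := by
        rw [Nat.pos_iff_ne_zero]
        intro h2
        exact h0 (Submodule.finrank_eq_zero.1 h2)
      have h3 : P ⊓ B = P := Submodule.eq_of_le_of_finrank_le inf_le_left (by omega)
      exact inf_eq_left.1 h3
  · exact Or.inl h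
  · exact Or.inr h

lemma critI_low (A : DivisorClasses X.toSpecialFibre) (χ : Γ → Ω) (p : ℤ) (a m : ℕ)
    (hw : (n : ℤ) - m - ((a : ℤ) + 1) < 2) :
    CritI X.diff X.lefC (X.cls χ p) ((a : ℤ) + 1) m := by
  left
  apply nInj_cls X a m rfl
  intro y hy _ hG
  have h0 : X.res a y = 0 := by
    rcases lt_or_ge ((n : ℤ) - m - ((a : ℤ) + 1)) 0 with hw' | hw'
    · rw [X.gr_eq_bot a _ (Or.inl hw'), Submodule.mem_bot] at hy
      rw [hy, map_zero]
    · obtain ⟨w, hw2⟩ := Int.eq_ofNat_of_zero_le hw'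
      rw [hw2] at hy hw
      have : w < 2 := by omega
      interval_cases w
      · exact crit0 A a (by simpa using hy) hG
      · exact crit1 A a (by simpa using hy) hG
  rw [h0, Pi.single_zero]
  exact Submodule.zero_mem _

lemma prim_le (χ : Γ → Ω) (p : ℤ) (a m w : ℕ) (hw : (n : ℤ) - m - ((a : ℤ) + 1) = w) :
    Pr X.lefC (X.cls χ p) ((a : ℤ) + 1) m ≤
      X.primPart ((a : ℤ) + 1) w (chr X.cyc' χ n p ((a : ℤ) + 1) (-m)) := by
  rintro x ⟨⟨hx1, hx2⟩, hx3⟩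
  refine ⟨⟨X.mem_E₁_cast rfl (by omega) hx1, ?_⟩, hx2⟩
  show x ∈ kerPow X.lefC ((n : ℤ) + 1 - ((a : ℤ) + 1) - w).toNat
  rw [show ((n : ℤ) + 1 - ((a : ℤ) + 1) - w).toNat = m + 1 by omega]
  exact hx3

lemma bd_tot_eq' (a m w : ℕ) (hw : (n : ℤ) - m - ((a : ℤ) + 1) = w) :
    Bd X.diff X.tot ((a : ℤ) + 1) (-m) = X.coboundaries ((a : ℤ) + 1) w := by
  rw [bd_tot_eq, show (n : ℤ) + -(m : ℤ) - ((a : ℤ) + 1) = w by omega]

lemma critS_of_covered (χ : Γ → Ω) (p : ℤ) (a m w : ℕ) (hw : (n : ℤ) - m - ((a : ℤ) + 1) = w)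
    (h : CoveredAt X.toSpecialFibre ((a : ℤ) + 1) w (chr X.cyc' χ n p ((a : ℤ) + 1) (-m))) :
    CritS X.diff X.lefC (X.cls χ p) ((a : ℤ) + 1) m := by
  intro x hx
  apply bd_cls X hx.1
  rw [bd_tot_eq' X a m w hw]
  exact h (prim_le X χ p a m w hw hx)

lemma crit_of_controlled (A : DivisorClasses X.toSpecialFibre) (χ : Γ → Ω) (p : ℤ) (a m w : ℕ)
    (hn : a + 1 + w ≤ n) (hw : (n : ℤ) - m - ((a : ℤ) + 1) = w)
    (h : ControlledAt A a w (chr X.cyc' χ n p ((a : ℤ) + 1) (-m))) :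
    CritI X.diff X.lefC (X.cls χ p) ((a : ℤ) + 1) m ∨
      CritS X.diff X.lefC (X.cls χ p) ((a : ℤ) + 1) m ∨
      CoveredAt X.toSpecialFibre ((a : ℤ) + 1) w
        (dualAt X.toSpecialFibre w (chr X.cyc' χ n p ((a : ℤ) + 1) (-m))) := by
  rcases h with h | h | h | ⟨h3, h⟩
  · rcases simple_cases h with h | h
    · exact Or.inr (Or.inl (critS_of_covered X χ p a m w hw h))
    · left
      right
      rw [← bd_tot_eq' X a m w hw] at h
      exact (h.mono_left (prim_le X χ p a m w hw)).mono_right (Sym.bd_cl_le χ n p _ _)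
  · exact Or.inr (Or.inr h)
  · left
    left
    apply nInj_cls X a m rfl
    intro y hy hyW _
    rw [hw] at hy
    rw [(Submodule.disjoint_def.1 h) y hy hyW, map_zero, Pi.single_zero]
    exact Submodule.zero_mem _
  · left
    left
    subst h3
    apply nInj_cls X a m rfl
    intro y hy hyW hG
    rw [hw] at hy ⊢
    obtain ⟨v, hv, hR, hz⟩ := crit2 A a (by omega) (h y hy hyW) hG
    rw [hz]
    exact single_mem_cobound X a hv hR

lemma chr_dual (χ : Γ → Ω) (p : ℤ) (i : ℤ) (m : ℕ) {w : ℤ} (hw : (n : ℤ) - m - i = w) :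
    chr X.cyc' (X.dualChar χ) n (1 - p) i (-m) =
      dualAt X.toSpecialFibre w (chr X.cyc' χ n p i (-m)) := by
  funext g
  show X.cyc' g ^ ex n (1 - p) i (-m) * (X.cyc' g * χ (X.tr g)) =
    X.cyc' g ^ w * (X.cyc' (X.tr g) ^ ex n p i (-m) * χ (X.tr g))
  rw [X.cyc'_tr, inv_zpow', ← mul_assoc, ← mul_assoc, ← zpow_add_one₀ (X.cyc'_ne g),
    ← zpow_add₀ (X.cyc'_ne g)]
  congr 2
  unfold ex
  omega

lemma dualAt_dualAt (w : ℤ) (μ : Γ → Ω) :
    dualAt X.toSpecialFibre w (dualAt X.toSpecialFibre w μ) = μ := by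
  funext g
  show X.cyc' g ^ w * (X.cyc' (X.tr g) ^ w * μ (X.tr (X.tr g))) = μ g
  rw [X.cyc'_tr, X.tr_tr, inv_zpow', ← mul_assoc, ← zpow_add₀ (X.cyc'_ne g), add_neg_cancel,
    zpow_zero, one_mul]

lemma critP_cls (A : DivisorClasses X.toSpecialFibre) (M : ℕ)
    (hA : ∀ (a w : ℕ) (χ : Γ → Ω), 2 ≤ w → a + 1 + w + M ≤ n → ControlledAt A a w χ)
    (χ : Γ → Ω) (p : ℤ) (i : ℤ) (hi : 1 ≤ i) (m : ℕ) (hm : M ≤ m) :
    CritP X.diff X.lefC (X.cls χ p) (X.cls (X.dualChar χ) (1 - p)) i m := by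
  obtain ⟨a, ha⟩ := Int.eq_ofNat_of_zero_le (show 0 ≤ i - 1 by omega)
  obtain rfl : i = (a : ℤ) + 1 := by omega
  rcases lt_or_ge ((n : ℤ) - m - ((a : ℤ) + 1)) 2 with hw | hw
  · exact Or.inl ⟨critI_low X A χ p a m hw, critI_low X A _ _ a m hw⟩
  obtain ⟨w, hw'⟩ := Int.eq_ofNat_of_zero_le (show 0 ≤ (n : ℤ) - m - ((a : ℤ) + 1) by omega)
  have h2 : 2 ≤ w := by omega
  have hn : a + 1 + w + M ≤ n := by omega
  have hdual := chr_dual X χ p ((a : ℤ) + 1) m hw'
  rcases crit_of_controlled X A χ p a m w (by omega) hw' (hA _ _ _ h2 hn) with h | h | h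
  · rcases crit_of_controlled X A (X.dualChar χ) (1 - p) a m w (by omega) hw' (hA _ _ _ h2 hn) with
      h' | h' | h'
    · exact Or.inl ⟨h, h'⟩
    · exact Or.inr (Or.inr h')
    · rw [hdual, dualAt_dualAt] at h'
      exact Or.inr (Or.inl (critS_of_covered X χ p a m w hw' h'))
  · exact Or.inr (Or.inl h)
  · rw [← hdual] at h
    exact Or.inr (Or.inr (critS_of_covered X _ _ a m w hw' h))

lemma good_cls (A : DivisorClasses X.toSpecialFibre) (M : ℕ)
    (hA : ∀ (a w : ℕ) (χ : Γ → Ω), 2 ≤ w → a + 1 + w + M ≤ n → ControlledAt A a w χ)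
    (χ : Γ → Ω) (p : ℤ) (i j : ℤ) (hi : 1 ≤ i) (hj : (M : ℤ) ≤ |j|) :
    Good2 X.diff (X.cls χ p) (X.cls (X.dualChar χ) (1 - p)) i j :=
  good (X.cls_dual p χ) (X.cls_lefComplex χ p) (X.cls_lefComplex (X.dualChar χ) (1 - p)) M
    (fun i hi m hm => critP_cls X A M hA χ p i hi m hm) i j hi hj

lemma exists_chr (μ : Γ → Ω) (i j : ℤ) : ∃ χ : Γ → Ω, chr X.cyc' χ n 0 i j = μ := by
  refine ⟨fun g => (X.cyc' g ^ ex n 0 i j)⁻¹ * μ g, ?_⟩
  funext g
  unfold chr
  rw [mul_inv_cancel_left₀ (zpow_ne_zero _ (X.cyc'_ne g))]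

theorem nInj_tot (A : DivisorClasses X.toSpecialFibre) (M : ℕ)
    (hA : ∀ (a w : ℕ) (χ : Γ → Ω), 2 ≤ w → a + 1 + w + M ≤ n → ControlledAt A a w χ)
    (i : ℤ) (hi : 1 ≤ i) (j : ℤ) (hj : (M : ℤ) ≤ |j|) : NInj X.diff X.tot i j := by
  rintro x ⟨hx1, hx2⟩
  apply mem_of_prj_mem (X.sym.comm (-i))
  intro μ
  obtain ⟨χ, hχ⟩ := exists_chr X μ (-i) j
  have h1 := X.sym.prj_zc χ n 0 hx1
  have h2 := X.sym.prj_bd χ n 0 hx2
  have h3 := (good_cls X A M hA χ 0 i j hi hj).inj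
  have h4 : prj (X.actC (-i)) (X.sym.comm (-i)) μ x =
      prj (X.actC i) (X.sym.comm i) (chr X.cyc' χ n 0 i j) x := by
    have h5 := prj_equiv (X.sym.comm i) (X.sym.comm (-i)) (c := fun g => X.cyc' g ^ i)
      (fun g => zpow_ne_zero _ (X.cyc'_ne g)) (1 : Module.End Ω X.C)
      (fun g x => by
        have := X.sym.shift i i g x
        rwa [show i - 2 * i = -i by ring] at this) (chr X.cyc' χ n 0 i j) x
    rw [← chr_neg X.cyc'_ne, hχ] at h5
    exact h5
  rw [hχ] at h1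
  have h6 : prj (X.actC (-i)) (X.sym.comm (-i)) μ x ∈ Bd X.diff (X.cls χ 0) (-i) j := by
    apply h3
    refine ⟨h1, ?_⟩
    rw [h4]
    exact h2
  exact Sym.bd_cl_le χ n 0 _ _ h6

theorem nSurj_tot (A : DivisorClasses X.toSpecialFibre) (M : ℕ)
    (hA : ∀ (a w : ℕ) (χ : Γ → Ω), 2 ≤ w → a + 1 + w + M ≤ n → ControlledAt A a w χ)
    (i : ℤ) (hi : 1 ≤ i) (j : ℤ) (hj : (M : ℤ) ≤ |j|) : NSurj X.diff X.tot i j := by
  intro y hy
  apply mem_of_prj_mem (X.sym.comm i)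
  intro μ
  obtain ⟨χ, hχ⟩ := exists_chr X μ i j
  have h1 := X.sym.prj_zc χ n 0 hy
  rw [hχ] at h1
  have h3 := (good_cls X A M hA χ 0 i j hi hj).surj
  obtain ⟨u, hu, v, hv, huv⟩ := Submodule.mem_sup.1 (h3 h1)
  exact Submodule.mem_sup.2 ⟨u, Sym.zc_cl_le χ n 0 _ _ hu, v, Sym.bd_cl_le χ n 0 _ _ hv, huv⟩

/-- `H^k` is mw pure if all characters are controlled in the weights `w ≥ 2` on the `Y^(a+2)` with
`a + 1 + w ≤ min(k, 2 n - k)`. -/
theorem mw (A : DivisorClasses X.toSpecialFibre) (k : ℕ)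
    (hA : ∀ (a w : ℕ) (χ : Γ → Ω), 2 ≤ w → a + 1 + w ≤ k → a + 1 + w + k ≤ 2 * n →
      ControlledAt A a w χ) :
    IsMWPure q k (X.actV k X.frob) (X.N k) := by
  have hA' : ∀ (a w : ℕ) (χ : Γ → Ω), 2 ≤ w → a + 1 + w + ((k : ℤ) - n).natAbs ≤ n →
      ControlledAt A a w χ := by
    intro a w χ h1 h2
    apply hA a w χ h1 <;> omega
  apply X.toSemistableModel.isMWPure_of k
  · intro a ha
    exact nInj_tot X A _ hA' a (by exact_mod_cast ha) _ (by rw [Int.abs_eq_natAbs])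
  · intro a ha
    exact nSurj_tot X A _ hA' a (by exact_mod_cast ha) _ (by rw [Int.abs_eq_natAbs])

end degeneration

end Pool.Agent.X302.MW
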