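import Pool.Agent.X302.MW.Fin

/-!
# Lefschetz complexes without the hard Lefschetz theorem on cohomology
-/

namespace Pool.Agent.X302.MW

open Module Submodule Pool.Agent.Y143

variable {Ω : Type*} [Field Ω] {C : Type*} [AddCommGroup C] [Module Ω C]

/-- The axioms of a Lefschetz complex that do not involve the hard Lefschetz theorem on the
cohomology. -/
structure PreComplex (d : ℤ → Module.End Ω C) (L : Module.End Ω C)
    (G : ℤ → ℤ → Submodule Ω C) : Prop where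
  neg : ∀ i j, G (-i) j = G i j
  d_mem : ∀ i j x, x ∈ G i j → d i x ∈ G (i + 1) (j + 1)
  dd : ∀ i j x, x ∈ G i j → d (i + 1) (d i x) = 0
  L_mem : ∀ i j x, x ∈ G i j → L x ∈ G i (j + 2)
  dL : ∀ i x, d i (L x) = L (d i x)
  lefInj : ∀ i (m : ℕ) x, x ∈ G i (-m) → (L ^ m) x = 0 → x = 0
  lefSurj : ∀ i (m : ℕ) y, y ∈ G i m → ∃ x ∈ G i (-m), (L ^ m) x = y
  out : ∀ i, 1 ≤ i → ∀ j x, x ∈ G i j → d (-i) x = 0 → d i x = 0
  incl : ∀ i, 1 ≤ i → ∀ j z, z ∈ G (i + 1) j → z ∈ G (i - 1) j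
  dneg : ∀ i, d (-i - 1) = d (i - 1)

namespace PreComplex

variable {d : ℤ → Module.End Ω C} {L : Module.End Ω C} {G : ℤ → ℤ → Submodule Ω C}

lemma mem_cast (i j i' j' : ℤ) (hi : i = i') (hj : j = j') {x : C} (hx : x ∈ G i j) :
    x ∈ G i' j' := by
  subst hi; subst hj; exact hx

lemma bd_le (h : PreComplex d L G) (i j : ℤ) : Bd d G i j ≤ Zc d G i j := by
  rintro _ ⟨x, hx, rfl⟩
  refine ⟨mem_cast _ _ _ _ (by ring) (by ring) (h.d_mem _ _ _ hx), ?_⟩
  have := h.dd _ _ _ hx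
  rw [SetLike.mem_coe, LinearMap.mem_ker]
  rwa [show i - 1 + 1 = i by ring] at this

lemma zc_neg_le (h : PreComplex d L G) (i : ℤ) (hi : 1 ≤ i) (j : ℤ) :
    Zc d G (-i) j ≤ Zc d G i j := by
  rintro x ⟨h1, h2⟩
  rw [h.neg] at h1
  exact ⟨h1, h.out i hi j x h1 h2⟩

lemma bd_neg_le (h : PreComplex d L G) (i : ℤ) (hi : 1 ≤ i) (j : ℤ) :
    Bd d G (-i) j ≤ Bd d G i j := by
  rintro _ ⟨x, hx, rfl⟩
  refine ⟨x, ?_, by rw [h.dneg]⟩
  apply h.incl i hi
  rw [← h.neg]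
  exact mem_cast _ _ _ _ (by ring) rfl hx

lemma bd_le_G (h : PreComplex d L G) (i j : ℤ) : Bd d G i j ≤ G i j :=
  (h.bd_le i j).trans inf_le_left

lemma dLpow (h : PreComplex d L G) (i : ℤ) (m : ℕ) (x : C) :
    d i ((L ^ m) x) = (L ^ m) (d i x) := by
  induction m with
  | zero => rfl
  | succ m ih => rw [pow_succ', Module.End.mul_apply, h.dL, ih, Module.End.mul_apply]

lemma Lpow_mem (h : PreComplex d L G) {i j : ℤ} (m : ℕ) {x : C} (hx : x ∈ G i j) :
    (L ^ m) x ∈ G i (j + 2 * m) := by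
  induction m with
  | zero => simpa using hx
  | succ m ih =>
    rw [pow_succ', Module.End.mul_apply]
    exact mem_cast _ _ _ _ rfl (by push_cast; ring) (h.L_mem _ _ _ ih)

lemma Lpow_zc (h : PreComplex d L G) {i j : ℤ} (m : ℕ) {x : C} (hx : x ∈ Zc d G i j) :
    (L ^ m) x ∈ Zc d G i (j + 2 * m) := by
  refine ⟨h.Lpow_mem m hx.1, ?_⟩
  rw [SetLike.mem_coe, LinearMap.mem_ker, h.dLpow, show d i x = 0 from hx.2, map_zero]

lemma Lpow_bd (h : PreComplex d L G) {i j : ℤ} (m : ℕ) {x : C} (hx : x ∈ Bd d G i j) :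
    (L ^ m) x ∈ Bd d G i (j + 2 * m) := by
  obtain ⟨y, hy, rfl⟩ := hx
  exact ⟨(L ^ m) y, mem_cast _ _ _ _ rfl (by ring) (h.Lpow_mem m hy), h.dLpow _ _ _⟩

/-- Lefschetz reduction: the kernel of `N ^ i` on cohomology is represented by primitive
elements. -/
lemma lred (h : PreComplex d L G) (i : ℤ) (hi : 1 ≤ i) (m : ℕ)
    (hI : NInj d G i ((m : ℤ) + 2)) {x : C} (hx : x ∈ Zc d G (-i) (-m) ⊓ Bd d G i (-m)) :
    ∃ z ∈ Bd d G (-i) (-m), x - z ∈ Zp d L G i m := by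
  have h1 : (L ^ (m + 1)) x ∈ Bd d G (-i) ((m : ℤ) + 2) := by
    apply hI
    refine ⟨?_, ?_⟩
    · have := h.Lpow_zc (m + 1) hx.1
      rwa [show (-(m : ℤ) + 2 * ((m + 1 : ℕ) : ℤ)) = m + 2 by push_cast; ring] at this
    · have := h.Lpow_bd (m + 1) hx.2
      rwa [show (-(m : ℤ) + 2 * ((m + 1 : ℕ) : ℤ)) = m + 2 by push_cast; ring] at this
  obtain ⟨z, hz, hzx⟩ := h1
  obtain ⟨z', hz', hzz⟩ := h.lefSurj (-i - 1) (m + 1) z
    (mem_cast _ _ _ _ rfl (by push_cast; ring) hz)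
  have hzb : d (-i - 1) z' ∈ Bd d G (-i) (-m) :=
    ⟨z', mem_cast _ _ _ _ rfl (by push_cast; ring) hz', rfl⟩
  refine ⟨d (-i - 1) z', hzb, ⟨?_, ?_⟩, ?_⟩
  · exact Submodule.sub_mem _ hx.1 (h.bd_le _ _ hzb)
  · exact Submodule.sub_mem _ hx.2 (h.bd_neg_le i hi _ hzb)
  · rw [SetLike.mem_coe, LinearMap.mem_ker, map_sub, ← h.dLpow, hzz, hzx, sub_self]

lemma nInj_of_Zp (h : PreComplex d L G) (i : ℤ) (hi : 1 ≤ i) (m : ℕ)
    (hI : NInj d G i ((m : ℤ) + 2)) (hZ : Zp d L G i m = ⊥) : NInj d G i (-m) := by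
  intro x hx
  obtain ⟨z, hz, hz'⟩ := h.lred i hi m hI hx
  rw [hZ, Submodule.mem_bot, sub_eq_zero] at hz'
  rw [hz']
  exact hz

/-- The primitive decomposition. -/
lemma prim_decomp (h : PreComplex d L G) (i : ℤ) (m : ℕ) {x : C} (hx : x ∈ G i (-m)) :
    ∃ p ∈ Pr L G i m, ∃ w ∈ G i (-m - 2), x = p + L w := by
  have h1 : (L ^ (m + 1)) x ∈ G i ((m + 2 : ℕ) : ℤ) :=
    mem_cast _ _ _ _ rfl (by push_cast; ring) (h.Lpow_mem (m + 1) hx)
  obtain ⟨w, hw, hw'⟩ := h.lefSurj i (m + 2) _ h1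
  have hw2 : w ∈ G i (-m - 2) := mem_cast _ _ _ _ rfl (by push_cast; ring) hw
  have hLw : L w ∈ G i (-m) := mem_cast _ _ _ _ rfl (by ring) (h.L_mem _ _ _ hw2)
  refine ⟨x - L w, ⟨Submodule.sub_mem _ hx hLw, ?_⟩, w, hw2, by abel⟩
  rw [SetLike.mem_coe, LinearMap.mem_ker, map_sub, ← Module.End.mul_apply (L ^ (m + 1)) L w,
    ← pow_succ, hw', sub_self]

lemma zp_eq_bot_of_disjoint (hG : PreComplex d L G) (i : ℤ) (hi : 1 ≤ i) (m : ℕ)
    (hD : Disjoint (Pr L G i m) (Bd d G i (-m))) : Zp d L G i m = ⊥ := by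
  rw [eq_bot_iff]
  intro x hx
  have h1 : x ∈ G i (-m) := (hG.zc_neg_le i hi _ hx.1.1).1
  exact (Submodule.disjoint_def.1 hD) x ⟨h1, hx.2⟩ hx.1.2

variable [FiniteDimensional Ω C]

lemma kk_abs (h : PreComplex d L G) (i j : ℤ) :
    finrank Ω (G i (-j)) = finrank Ω (G i j) := by
  have key : ∀ m : ℕ, finrank Ω (G i (-(m : ℤ))) = finrank Ω (G i m) := by
    intro m
    have h1 := finrank_map_add_ker (L ^ m) (G i (-m))
    have h2 : G i (-m) ⊓ LinearMap.ker (L ^ m) = ⊥ := by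
      rw [eq_bot_iff]
      rintro x ⟨hx1, hx2⟩
      exact h.lefInj i m x hx1 hx2
    have h3 : (G i (-m)).map (L ^ m) = G i m := by
      apply le_antisymm
      · rintro _ ⟨x, hx, rfl⟩
        have := h.Lpow_mem m hx
        rwa [show (-(m : ℤ) + 2 * m) = m by ring] at this
      · intro y hy
        obtain ⟨x, hx, rfl⟩ := h.lefSurj i m y hy
        exact ⟨x, hx, rfl⟩
    rw [h2, h3, finrank_bot] at h1
    omega
  rcases le_total 0 j with hj | hj
  · obtain ⟨m, rfl⟩ := Int.eq_ofNat_of_zero_le hj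
    exact key m
  · obtain ⟨m, hm⟩ := Int.eq_ofNat_of_zero_le (show 0 ≤ -j by omega)
    obtain rfl : j = -m := by omega
    rw [neg_neg]
    exact (key m).symm

lemma hh_le_of_nInj (h : PreComplex d L G) (i : ℤ) (hi : 1 ≤ i) (j : ℤ) (hI : NInj d G i j) :
    hh d G (-i) j ≤ hh d G i j := by
  have h1 := Submodule.finrank_sup_add_finrank_inf_eq (Zc d G (-i) j) (Bd d G i j)
  have h2 : Zc d G (-i) j ⊔ Bd d G i j ≤ Zc d G i j :=
    sup_le (h.zc_neg_le i hi j) (h.bd_le i j)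
  have h3 := Submodule.finrank_mono h2
  have h4 := Submodule.finrank_mono hI
  unfold hh
  omega

lemma nSurj_of_hh (h : PreComplex d L G) (i : ℤ) (hi : 1 ≤ i) (j : ℤ) (hI : NInj d G i j)
    (he : hh d G i j ≤ hh d G (-i) j) : NSurj d G i j := by
  have h1 := Submodule.finrank_sup_add_finrank_inf_eq (Zc d G (-i) j) (Bd d G i j)
  have h2 : Zc d G (-i) j ⊔ Bd d G i j ≤ Zc d G i j :=
    sup_le (h.zc_neg_le i hi j) (h.bd_le i j)
  have h4 := Submodule.finrank_mono hI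
  unfold hh at he
  have h5 : Zc d G (-i) j ⊔ Bd d G i j = Zc d G i j :=
    Submodule.eq_of_le_of_finrank_le h2 (by omega)
  exact h5.ge

lemma hh_eq_of_good (h : PreComplex d L G) (i : ℤ) (hi : 1 ≤ i) (j : ℤ) (hI : NInj d G i j)
    (hS : NSurj d G i j) : hh d G (-i) j = hh d G i j := by
  have h1 := Submodule.finrank_sup_add_finrank_inf_eq (Zc d G (-i) j) (Bd d G i j)
  have h2 : Zc d G (-i) j ⊔ Bd d G i j = Zc d G i j :=
    le_antisymm (sup_le (h.zc_neg_le i hi j) (h.bd_le i j)) hS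
  have h3 : Zc d G (-i) j ⊓ Bd d G i j = Bd d G (-i) j :=
    le_antisymm hI (le_inf (h.bd_le _ _) (h.bd_neg_le i hi j))
  rw [h2, h3] at h1
  unfold hh
  omega

end PreComplex

section dual

variable {ψ : C →ₗ[Ω] C →ₗ[Ω] Ω} {d : ℤ → Module.End Ω C} {L : Module.End Ω C}
  {G G' : ℤ → ℤ → Submodule Ω C} [FiniteDimensional Ω C]

lemma pre_annR_zc (h : LefDual ψ d L G G') (hG : PreComplex d L G) (hG' : PreComplex d L G')
    (i j : ℤ) : annR ψ (Zc d G i j) (G' (-i) (-j)) = Bd d G' (-i) (-j) := by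
  have h1 := h.perf (i + 1) (j + 1)
  have h2 : Perf ψ (G (i + 1) (j + 1)) (G' (-i - 1) (-j - 1)) := by
    rwa [show -(i + 1) = -i - 1 by ring, show -(j + 1) = -j - 1 by ring] at h1
  exact annR_ker (h.perf i j) h2 (fun x hx => hG.d_mem _ _ _ hx)
    (fun y hy => PreComplex.mem_cast _ _ _ _ (by ring) (by ring) (hG'.d_mem _ _ _ hy))
    (fun x hx y hy => h.adj_d _ _ _ _ hx hy)

omit [FiniteDimensional Ω C] in
lemma pre_annR_bd (h : LefDual ψ d L G G') (hG' : PreComplex d L G')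
    (i j : ℤ) : annR ψ (Bd d G i j) (G' (-i) (-j)) = Zc d G' (-i) (-j) := by
  have h1 := h.perf (i - 1) (j - 1)
  refine annR_map h1 (fun y hy => ?_) (fun x hx y hy => ?_)
  · exact PreComplex.mem_cast _ _ _ _ (by ring) (by ring) (hG'.d_mem _ _ _ hy)
  · have := h.adj_d (i - 1) (j - 1) x y hx (PreComplex.mem_cast _ _ _ _ (by ring) (by ring) hy)
    rwa [show -(i - 1) - 1 = -i by ring] at this

lemma pre_hh_dual (h : LefDual ψ d L G G') (hG : PreComplex d L G) (hG' : PreComplex d L G')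
    (i j : ℤ) : hh d G i j = hh d G' (-i) (-j) := by
  have h1 := (h.perf i j).finrank_annR (show Zc d G i j ≤ G i j from inf_le_left)
  have h2 := (h.perf i j).finrank_annR (hG.bd_le_G i j)
  rw [pre_annR_zc h hG hG'] at h1
  rw [pre_annR_bd h hG'] at h2
  unfold hh
  omega

/-- Surjectivity for `G'` in degree `-j` gives injectivity for `G` in degree `j`. -/
lemma pre_nInj_of_nSurj (h : LefDual ψ d L G G') (hG : PreComplex d L G)
    (hG' : PreComplex d L G') (i j : ℤ) (hS : NSurj d G' i (-j)) : NInj d G i j := by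
  have hf := h.flip
  have e1 : annR ψ.flip (Zc d G' i (-j)) (G (-i) j) = Bd d G (-i) j := by
    have := pre_annR_zc hf hG' hG i (-j)
    rwa [neg_neg] at this
  have e2 : annR ψ.flip (Bd d G' i (-j)) (G (-i) j) = Zc d G (-i) j := by
    have := pre_annR_bd hf hG i (-j)
    rwa [neg_neg] at this
  have e3 : annR ψ.flip (Zc d G' (-i) (-j)) (G i j) = Bd d G i j := by
    have := pre_annR_zc hf hG' hG (-i) (-j)
    rwa [neg_neg, neg_neg] at this
  intro x hx
  rw [← e1]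
  refine ⟨hx.1.1, fun y hy => ?_⟩
  obtain ⟨u, hu, v, hv, rfl⟩ := Submodule.mem_sup.1 (hS hy)
  have hx1 : x ∈ annR ψ.flip (Bd d G' i (-j)) (G (-i) j) := by rw [e2]; exact hx.1
  have hx2 : x ∈ annR ψ.flip (Zc d G' (-i) (-j)) (G i j) := by rw [e3]; exact hx.2
  rw [map_add, LinearMap.add_apply, hx1.2 v hv, hx2.2 u hu, add_zero]

/-- Injectivity for `G` in degree `-j` gives surjectivity for `G'` in degree `j`. -/
lemma pre_nSurj_of_nInj (h : LefDual ψ d L G G') (hG : PreComplex d L G)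
    (hG' : PreComplex d L G') (i : ℤ) (hi : 1 ≤ i) (j : ℤ) (hI : NInj d G i (-j)) :
    NSurj d G' i j := by
  -- the annihilator of the sum is the intersection of the annihilators
  have hle : Zc d G' (-i) j ⊔ Bd d G' i j ≤ G' i j :=
    sup_le ((hG'.zc_neg_le i hi j).trans inf_le_left) (hG'.bd_le_G i j)
  have hf := h.flip
  have hP : Perf ψ.flip (G' i j) (G (-i) (-j)) := hf.perf i j
  have e1 : annR ψ.flip (Zc d G' (-i) j ⊔ Bd d G' i j) (G (-i) (-j)) ≤ Bd d G (-i) (-j) := by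
    rw [annR_sup]
    intro x hx
    apply hI
    have a1 := pre_annR_zc hf hG' hG (-i) j
    have a2 := pre_annR_bd hf hG i j
    refine ⟨?_, ?_⟩
    · rw [← a2]
      exact hx.2
    · have hx1 : x ∈ annR ψ.flip (Zc d G' (-i) j) (G (- -i) (-j)) := by
        refine ⟨?_, hx.1.2⟩
        rw [neg_neg, ← hG.neg]
        exact hx.1.1
      rw [a1, neg_neg] at hx1
      exact hx1
  have e2 : Bd d G (-i) (-j) = annR ψ.flip (Zc d G' i j) (G (-i) (-j)) :=
    (pre_annR_zc hf hG' hG i j).symm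
  rw [e2] at e1
  have e3 := hP.annR_annR hle
  have e4 := hP.annR_annR (show Zc d G' i j ≤ G' i j from inf_le_left)
  unfold NSurj
  rw [← e3, ← e4]
  exact annR_mono e1

/-- In the middle degree, injectivity for both complexes gives surjectivity. -/
lemma pre_good_middle (h : LefDual ψ d L G G') (hG : PreComplex d L G) (hG' : PreComplex d L G')
    (i : ℤ) (hi : 1 ≤ i) (hI : NInj d G i 0) : NSurj d G' i 0 := by
  apply pre_nSurj_of_nInj h hG hG' i hi 0
  rwa [neg_zero]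

omit [FiniteDimensional Ω C] in
/-- If the primitive part of `G` consists of coboundaries, then the critical part of `G'` is
zero. -/
lemma pre_zp_eq_bot (h : LefDual ψ d L G G') (hG : PreComplex d L G) (hG' : PreComplex d L G')
    (i : ℤ) (m : ℕ) (hP : Pr L G i m ≤ Bd d G i (-m)) : Zp d L G' i m = ⊥ := by
  rw [eq_bot_iff]
  intro x' hx'
  have hx1 : x' ∈ G' (-i) (-m) := hx'.1.1.1
  have hx2 : (L ^ m) x' ∈ G' (-i) (-(-(m : ℤ))) :=
    PreComplex.mem_cast _ _ _ _ rfl (by ring) (hG'.Lpow_mem m hx1)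
  have hx3 : d (-i) ((L ^ m) x') = 0 := by
    rw [hG'.dLpow, show d (-i) x' = 0 from hx'.1.1.2, map_zero]
  have key : (L ^ m) x' = 0 := by
    apply (h.perf i (-m)).right _ hx2
    intro x hx
    obtain ⟨p, hp, w, hw, rfl⟩ := hG.prim_decomp i m hx
    rw [map_add, LinearMap.add_apply]
    have e1 : ψ p ((L ^ m) x') = 0 := by
      obtain ⟨y, hy, rfl⟩ := hP hp
      have := h.adj_d (i - 1) (-m - 1) y _ hy
        (PreComplex.mem_cast _ _ _ _ (by ring) (by ring) hx2)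
      rw [show -(i - 1) - 1 = -i by ring, hx3, map_zero] at this
      exact this
    have e2 : ψ (L w) ((L ^ m) x') = 0 := by
      rw [h.adj_L i (-m - 2) w _ hw (PreComplex.mem_cast _ _ _ _ rfl (by ring) hx2),
        ← Module.End.mul_apply L (L ^ m) x', ← pow_succ', show (L ^ (m + 1)) x' = 0 from hx'.2,
        map_zero]
    rw [e1, e2, add_zero]
  exact hG'.lefInj (-i) m x' hx1 key

end dual

end Pool.Agent.X302.MW
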