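import Pool.Agent.X302.MW.Free

/-!
# The rows of weight zero and one of the weight spectral sequence
-/

namespace Pool.Agent.X302.MW

universe u v

open Module Submodule Pool.Agent.Y143

variable {Ω : Type u} [Field Ω] [CharZero Ω] {Γ : Type} {n q : ℕ}

section basic

variable (X : SpecialFibre.{u, v} Ω Γ n q)

theorem preComplex : PreComplex X.diff X.lefC X.tot where
  neg i j := by
    unfold SpecialFibre.tot
    have := X.E₁_neg i (n + j - i)
    rwa [show (n : ℤ) + j - i + 2 * i = n + j - -i by ring] at this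
  d_mem i j x hx := X.mem_E₁_cast rfl (by ring) (X.diff_mem hx)
  dd i j x hx := X.diff_diff hx
  L_mem i j x hx := X.mem_E₁_cast rfl (by ring) (X.lefC_mem hx)
  dL i x := X.diff_lefC i x
  lefInj i m x hx h := X.lefC_inj m (X.mem_E₁_cast rfl (by ring) hx) h
  lefSurj i m y hy := by
    obtain ⟨x, hx, h⟩ := X.lefC_surj (r := i) m (y := y) (X.mem_E₁_cast rfl (by ring) hy)
    exact ⟨x, X.mem_E₁_cast rfl (by ring) hx, h⟩
  out i hi j x _ h := X.diff_out (w := 0) hi h
  incl i hi j z hz := X.mem_E₁_cast rfl (by ring) (X.E₁_incl hi hz)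
  dneg i := X.diff_neg i

lemma inCol_self (a : ℕ) : InColumn (a : ℤ) a :=
  ⟨by rw [Nat.abs_cast], ⟨0, by ring⟩⟩

/-- The term `E_1^(a, w)` for `w ≤ 1`. -/
lemma E_row (a : ℕ) {w : ℤ} (hw : w ≤ 1) {x : X.C} (hx : x ∈ X.E₁ a w) :
    x a ∈ X.gr a w ∧ x = Pi.single a (x a) := by
  classical
  constructor
  · have := (hx a).1
    rwa [show w + (a : ℤ) - a = w by ring] at this
  · funext b
    by_cases hb : b = a
    · subst hb
      rw [Pi.single_eq_same]
    · rw [Pi.single_eq_of_ne hb]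
      by_cases hc : InColumn (a : ℤ) b
      · have h1 := hc.1
        have h2 := hc.2
        rw [Nat.abs_cast] at h1
        have h3 := (hx b).1
        rw [X.gr_eq_bot b _ (Or.inl (by omega)), Submodule.mem_bot] at h3
        exact h3
      · exact (hx b).2 hc

lemma diff_single (a : ℕ) (u : X.H a) :
    X.diff a (Pi.single a u : X.C) = Pi.single (a + 1) (X.res a u) := by
  classical
  funext b
  rw [X.diff_apply]
  by_cases hc : InColumn ((a : ℤ) + 1) b
  · have h1 := hc.1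
    rw [abs_of_nonneg (by positivity)] at h1
    rw [X.cut_of hc, Pi.add_apply, X.gysC_apply, Pi.single_eq_of_ne (by omega), map_zero, add_zero]
    cases b with
    | zero => omega
    | succ b =>
      rw [X.resC_succ]
      by_cases hb : b = a
      · subst hb
        rw [Pi.single_eq_same, Pi.single_eq_same]
      · rw [Pi.single_eq_of_ne hb, map_zero, Pi.single_eq_of_ne (by omega)]
  · rw [X.cut_of_not hc, Pi.single_eq_of_ne]
    rintro rfl
    exact hc (inCol_succ_self a)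

lemma diff_neg_single (a : ℕ) (z : X.H (a + 1)) (hz : X.res (a + 1) z = 0)
    (hz' : X.gys a z = 0) : X.diff (-((a : ℤ) + 1)) (Pi.single (a + 1) z : X.C) = 0 := by
  classical
  funext b
  rw [X.diff_apply]
  by_cases hc : InColumn (-((a : ℤ) + 1) + 1) b
  · rw [X.cut_of hc, Pi.add_apply, X.gysC_apply]
    have h1 : X.gys b ((Pi.single (a + 1) z : X.C) (b + 1)) = 0 := by
      by_cases hb : b = a
      · subst hb
        rw [Pi.single_eq_same, hz']
      · rw [Pi.single_eq_of_ne (by omega), map_zero]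
    rw [h1, add_zero]
    cases b with
    | zero => rfl
    | succ b =>
      rw [X.resC_succ]
      by_cases hb : b = a + 1
      · subst hb
        rw [Pi.single_eq_same, hz]
        rfl
      · rw [Pi.single_eq_of_ne hb, map_zero]
        rfl
  · rw [X.cut_of_not hc]
    rfl

/-- The cocycles in the row of weight `w ≤ 1`. -/
lemma coc_row (a : ℕ) {w : ℤ} (hw : w ≤ 1) (x : X.C) : x ∈ X.cocycles a w ↔
    ∃ z ∈ X.gr a w, X.res a z = 0 ∧ x = Pi.single a z := by
  classical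
  constructor
  · rintro ⟨h1, h2⟩
    obtain ⟨h3, h4⟩ := E_row X a hw h1
    refine ⟨x a, h3, ?_, h4⟩
    have h5 : X.diff a x = 0 := h2
    rw [h4, diff_single] at h5
    have := congrFun h5 (a + 1)
    rwa [Pi.single_eq_same] at this
  · rintro ⟨z, hz, hr, rfl⟩
    refine ⟨X.single_mem (inCol_self a) (by rwa [show w + (a : ℤ) - a = w by ring]), ?_⟩
    rw [SetLike.mem_coe, LinearMap.mem_ker, diff_single, hr, Pi.single_zero]

/-- The coboundaries in the row of weight `w ≤ 1`. -/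
lemma cob_row (a : ℕ) {w : ℤ} (hw : w ≤ 1) (x : X.C) : x ∈ X.coboundaries ((a : ℤ) + 1) w ↔
    ∃ y ∈ X.gr a w, x = Pi.single (a + 1) (X.res a y) := by
  classical
  unfold StrataData.coboundaries
  rw [show (a : ℤ) + 1 - 1 = a by ring]
  constructor
  · rintro ⟨y, hy, rfl⟩
    obtain ⟨h3, h4⟩ := E_row X a hw hy
    refine ⟨y a, h3, ?_⟩
    rw [h4, diff_single, Pi.single_eq_same]
  · rintro ⟨y, hy, rfl⟩
    exact ⟨Pi.single a y, X.single_mem (inCol_self a) (by rwa [show w + (a : ℤ) - a = w by ring]),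
      diff_single X a y⟩

/-- A harmonic class is a cocycle in the negative column. -/
lemma coc_neg_row (a : ℕ) {w : ℤ} {z : X.H (a + 1)} (hz : z ∈ X.gr (a + 1) w)
    (hr : X.res (a + 1) z = 0) (hg : X.gys a z = 0) :
    (Pi.single (a + 1) z : X.C) ∈ X.cocycles (-((a : ℤ) + 1)) (w + 2 * ((a : ℤ) + 1)) := by
  refine ⟨?_, ?_⟩
  · rw [X.E₁_neg]
    apply X.single_mem (inCol_succ_self a)
    rwa [show w + ((a : ℤ) + 1) - ((a + 1 : ℕ) : ℤ) = w by push_cast; ring]
  · rw [SetLike.mem_coe, LinearMap.mem_ker]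
    exact diff_neg_single X a z hr hg

/-- Injectivity of `N ^ (a + 1)` from the injectivity of the Gysin map on the image of the
restriction. -/
lemma nInj_of_crit (a : ℕ) {w j : ℤ} (hj : w = n + j - ((a : ℤ) + 1))
    (hK : ∀ y ∈ X.gr a w, X.gys a (X.res a y) = 0 → X.res a y = 0) :
    NInj X.diff X.tot ((a : ℤ) + 1) j := by
  rintro x ⟨hx1, hx2⟩
  rw [X.zc_eq] at hx1
  rw [X.bd_eq] at hx2
  rw [X.bd_eq]
  obtain ⟨y, hy, hyx⟩ := hx2
  rw [show (a : ℤ) + 1 - 1 = a by ring] at hy hyx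
  have hyE : y ∈ X.E₁ a w := X.mem_E₁_cast rfl (by rw [hj]) hy
  have hx0 : X.diff (-((a : ℤ) + 1)) (X.diff a y) = 0 := by
    rw [hyx]
    exact hx1.2
  obtain ⟨h1, y', hy', h2⟩ := reduce X a w hyE hx0
  have hya : y a ∈ X.gr a w := by
    have := (hyE a).1
    rwa [show w + (a : ℤ) - a = w by ring] at this
  rw [hK (y a) hya h1, Pi.single_zero, add_zero] at h2
  rw [show (n : ℤ) + j - -((a : ℤ) + 1) = w + 2 * ((a : ℤ) + 1) by rw [hj]; ring, ← hyx, h2]
  exact ⟨y', hy', rfl⟩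

end basic

section classes

variable {X : SpecialFibre.{u, v} Ω Γ n q} (A : DivisorClasses X)
include A

/-- `N ^ i : gr_(2 i) H^i → gr_0 H^i` is injective. -/
lemma inj_zero (i : ℤ) (hi : 1 ≤ i) : NInj X.diff X.tot i (i - n) := by
  obtain ⟨a, ha⟩ := Int.eq_ofNat_of_zero_le (show 0 ≤ i - 1 by omega)
  obtain rfl : i = (a : ℤ) + 1 := by omega
  exact nInj_of_crit X a (w := 0) (by ring) (fun y hy h => crit0 A a hy h)

/-- `N ^ i : gr_(2 i + 1) H^(i + 1) → gr_1 H^(i + 1)` is injective. -/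
lemma inj_one (i : ℤ) (hi : 1 ≤ i) : NInj X.diff X.tot i (i + 1 - n) := by
  obtain ⟨a, ha⟩ := Int.eq_ofNat_of_zero_le (show 0 ≤ i - 1 by omega)
  obtain rfl : i = (a : ℤ) + 1 := by omega
  exact nInj_of_crit X a (w := 1) (by ring) (fun y hy h => crit1 A a hy h)

/-- `N ^ i : gr_(2 i) H^i → gr_0 H^i` is surjective. -/
lemma surj_zero (i : ℤ) (hi : 1 ≤ i) : NSurj X.diff X.tot i (i - n) := by
  classical
  obtain ⟨a, ha⟩ := Int.eq_ofNat_of_zero_le (show 0 ≤ i - 1 by omega)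
  obtain rfl : i = (a : ℤ) + 1 := by omega
  intro x hx
  rw [X.zc_eq, show (n : ℤ) + ((a : ℤ) + 1 - n) - ((a : ℤ) + 1) = 0 by ring] at hx
  have hx' : x ∈ X.cocycles ((a + 1 : ℕ) : ℤ) 0 := by push_cast; exact hx
  obtain ⟨z, hz, hr, rfl⟩ := (coc_row X (a + 1) (by norm_num) x).1 hx'
  obtain ⟨_, ⟨u, hu, rfl⟩, hv⟩ := exists_repr
    ((X.pair (a + 1)).compl₂ (X.lef (a + 1) ^ (n - (a + 1)))) ((X.gr a 0).map (X.res a)) (by
      rintro _ ⟨x, hx, rfl⟩ h
      exact image0 A a hx fun u hu => h _ ⟨u, hu, rfl⟩)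
    ((X.pair (a + 1)).compl₂ (X.lef (a + 1) ^ (n - (a + 1))) z)
  have hh0 : z - X.res a u ∈ X.gr (a + 1) 0 := Submodule.sub_mem _ hz (X.res_gr a 0 _ hu)
  have hRh : X.res (a + 1) (z - X.res a u) = 0 := by rw [map_sub, hr, X.res_res, sub_zero]
  have hg : X.gys a (z - X.res a u) = 0 := by
    apply gys_harm A a hh0 hRh
    intro u' hu'
    have h1 := hv _ (show X.res a u' ∈ (X.gr a 0).map (X.res a) from ⟨u', hu', rfl⟩)
    rw [map_sub, LinearMap.sub_apply, sub_eq_zero]
    exact h1.symm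
  have e : (Pi.single (a + 1) z : X.C) = Pi.single (a + 1) (z - X.res a u) +
      Pi.single (a + 1) (X.res a u) := by
    rw [← Pi.single_add, sub_add_cancel]
  rw [e]
  refine Submodule.add_mem_sup ?_ ?_
  · rw [X.zc_eq, show (n : ℤ) + ((a : ℤ) + 1 - n) - -((a : ℤ) + 1) = 0 + 2 * ((a : ℤ) + 1) by ring]
    exact coc_neg_row X a hh0 hRh hg
  · rw [X.bd_eq, show (n : ℤ) + ((a : ℤ) + 1 - n) - ((a : ℤ) + 1) = 0 by ring]
    exact (cob_row X a (by norm_num) _).2 ⟨u, hu, rfl⟩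

/-- The dual statements. -/
lemma inj_zero' (i : ℤ) (hi : 1 ≤ i) : NInj X.diff X.tot i (n - i) := by
  apply pre_nInj_of_nSurj X.lefDual (preComplex X) (preComplex X)
  rw [show -((n : ℤ) - i) = i - n by ring]
  exact surj_zero A i hi

lemma surj_zero' (i : ℤ) (hi : 1 ≤ i) : NSurj X.diff X.tot i (n - i) := by
  apply pre_nSurj_of_nInj X.lefDual (preComplex X) (preComplex X) i hi
  rw [show -((n : ℤ) - i) = i - n by ring]
  exact inj_zero A i hi

lemma surj_one' (i : ℤ) (hi : 1 ≤ i) : NSurj X.diff X.tot i (n - 1 - i) := by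
  apply pre_nSurj_of_nInj X.lefDual (preComplex X) (preComplex X) i hi
  rw [show -((n : ℤ) - 1 - i) = i + 1 - n by ring]
  exact inj_one A i hi

end classes

/-- In a bidegree without classes, `N ^ i` is bijective. -/
lemma nInj_of_bot (X : SpecialFibre.{u, v} Ω Γ n q) (i j : ℤ) (h : X.tot (i - 1) (j - 1) = ⊥) :
    NInj X.diff X.tot i j := by
  unfold NInj Bd
  rw [h, Submodule.map_bot, inf_bot_eq]
  exact bot_le

/-- The `E_1` term vanishes for weights out of range. -/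
lemma tot_eq_bot (X : SpecialFibre.{u, v} Ω Γ n q) (i j : ℤ) (hi : 0 ≤ i) (h : (n : ℤ) + j - i < 0) :
    X.tot i j = ⊥ := by
  rw [eq_bot_iff]
  intro x hx
  rw [Submodule.mem_bot]
  funext a
  by_cases hc : InColumn i a
  · have h1 := hc.1
    rw [abs_of_nonneg hi] at h1
    have h3 := (hx a).1
    rw [X.gr_eq_bot a _ (Or.inl (by omega)), Submodule.mem_bot] at h3
    exact h3
  · exact (hx a).2 hc

lemma nInj_of_neg (X : SpecialFibre.{u, v} Ω Γ n q) (i j : ℤ) (hi : 1 ≤ i)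
    (h : (n : ℤ) + j - i < 0) : NInj X.diff X.tot i j :=
  nInj_of_bot X i j (tot_eq_bot X _ _ (by omega) (by omega))

lemma nSurj_of_neg (X : SpecialFibre.{u, v} Ω Γ n q) (i j : ℤ) (hi : 1 ≤ i)
    (h : (n : ℤ) + j - i < 0) : NSurj X.diff X.tot i j := by
  unfold NSurj Zc
  rw [tot_eq_bot X i j (by omega) h, bot_inf_eq]
  exact bot_le

lemma nInj_of_neg' (X : SpecialFibre.{u, v} Ω Γ n q) (i j : ℤ) (hi : 1 ≤ i)
    (h : (n : ℤ) - j - i < 0) : NInj X.diff X.tot i j := by
  apply pre_nInj_of_nSurj X.lefDual (preComplex X) (preComplex X)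
  exact nSurj_of_neg X i _ hi (by omega)

lemma nSurj_of_neg' (X : SpecialFibre.{u, v} Ω Γ n q) (i j : ℤ) (hi : 1 ≤ i)
    (h : (n : ℤ) - j - i < 0) : NSurj X.diff X.tot i j := by
  apply pre_nSurj_of_nInj X.lefDual (preComplex X) (preComplex X) i hi
  exact nInj_of_neg X i _ hi (by omega)

end Pool.Agent.X302.MW
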