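import Pool.Agent.X302.MW.Slope

/-!
# Threefolds without differential forms of degree two and three
-/

namespace Pool.Agent.X302.MW

universe u v

open Module Pool.Agent.Y143

lemma mem_of_int {F : Type*} [Field F] (R : ValuationSubring F) {x : F} (hx : IsIntegral ℤ x) :
    x ∈ R := by
  have h1 : IsIntegral R x := hx.tower_top
  obtain ⟨y, hy⟩ := (IsIntegrallyClosed.isIntegral_iff (R := R) (K := F)).1 h1
  rw [← hy]
  exact y.2

section tate

variable {Ω : Type u} [Field Ω] [CharZero Ω] {q : ℕ}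

lemma isTate_of_root {α : Ω} (hq : (q : Ω) ≠ 0) {k : ℕ} (hk : 0 < k)
    (h : ((q : Ω)⁻¹ * α) ^ k = 1) : IsTateNumber q α := by
  refine ⟨k, hk, ?_⟩
  rw [mul_pow, inv_pow, inv_mul_eq_one₀ (pow_ne_zero _ hq)] at h
  exact h.symm

end tate

variable {Ω : Type u} [Field Ω] [CharZero Ω] {Γ : Type} {n q : ℕ}

section special

variable (X : SpecialFibre.{u, v} Ω Γ n q)

/-- The eigenvalues on `H^0` are roots of unity. -/
lemma h0_root (hI : HasIntegralFrobenius X) (a : ℕ) {β : Ω} {x : X.H a}
    (hx : x ∈ frobPart X a 0 β) (hx0 : x ≠ 0) : IsIntegral ℤ β ∧ ∃ k : ℕ, 0 < k ∧ β ^ k = 1 := by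
  obtain ⟨y, hy, hy0, h⟩ := exists_eigen_gr X a 0 hx hx0
  have h1 := hI a 0 β y hy hy0 h
  refine ⟨h1, root_of_unity h1 fun z hz => ?_⟩
  have := (X.weil a 0 β y hy hy0 h).2 z hz
  rwa [Int.cast_zero, zero_div, Real.rpow_zero] at this

lemma res_gen (a : ℕ) {α : Ω} {z : X.H a} (hz : z ∈ (X.act a X.frob).maxGenEigenspace α) :
    X.res a z ∈ (X.act (a + 1) X.frob).maxGenEigenspace α := by
  obtain ⟨k, hk⟩ := Module.End.mem_maxGenEigenspace _ _ _ |>.1 hz
  rw [Module.End.mem_maxGenEigenspace]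
  refine ⟨k, ?_⟩
  have h1 : ∀ (k : ℕ) (z : X.H a),
      ((X.act (a + 1) X.frob - α • (1 : Module.End Ω (X.H (a + 1)))) ^ k) (X.res a z) =
      X.res a (((X.act a X.frob - α • (1 : Module.End Ω (X.H a))) ^ k) z) := by
    intro k
    induction k with
    | zero => intro z; rfl
    | succ k ih =>
      intro z
      have h3 : (X.act (a + 1) X.frob - α • (1 : Module.End Ω (X.H (a + 1)))) (X.res a z) =
          X.res a ((X.act a X.frob - α • (1 : Module.End Ω (X.H a))) z) := by
        show X.act (a + 1) X.frob (X.res a z) - α • X.res a z =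
          X.res a (X.act a X.frob z - α • z)
        rw [X.res_act, map_sub, map_smul]
      rw [pow_succ, Module.End.mul_apply, h3, ih, pow_succ, Module.End.mul_apply]
  rw [h1, hk, map_zero]

lemma res_frobPart (a : ℕ) (m : ℤ) {α : Ω} {z : X.H a} (hz : z ∈ frobPart X a m α) :
    X.res a z ∈ frobPart X (a + 1) m α :=
  ⟨X.res_gr a m z hz.1, res_gen X a hz.2⟩

/-- On the double curves, the eigenvalues on `H^2` are `q` times eigenvalues on `H^0`. -/
lemma h2_curve (hn : n = 3) (hI : HasIntegralFrobenius X) {α : Ω} {x : X.H 2}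
    (hx : x ∈ frobPart X 2 2 α) (hx0 : x ≠ 0) : IsIntegral ℤ ((q : Ω)⁻¹ * α) := by
  subst hn
  obtain ⟨y, hy, hy0, h⟩ := exists_eigen_gr X 2 2 hx hx0
  have hq : (q : Ω) ≠ 0 := Nat.cast_ne_zero.2 X.q_ne
  obtain ⟨u, hu, huy⟩ := X.lef_surj 2 1 y (by
    rwa [show ((3 : ℕ) : ℤ) - ((2 : ℕ) : ℤ) + ((1 : ℕ) : ℤ) = 2 by norm_num])
  rw [pow_one] at huy
  have hu0 : u ∈ X.gr 2 0 := by
    rwa [show ((3 : ℕ) : ℤ) - ((2 : ℕ) : ℤ) - ((1 : ℕ) : ℤ) = 0 by norm_num] at hu
  have h1 : X.lef 2 ((q : Ω) • X.act 2 X.frob u - α • u) = 0 := by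
    rw [map_sub, map_smul, map_smul, ← X.cyc_frob, ← X.lef_act, huy, h, sub_self]
  have h2 : (q : Ω) • X.act 2 X.frob u - α • u = 0 := by
    apply X.lef_inj 2 1 _ _ (by rw [pow_one]; exact h1)
    rw [show ((3 : ℕ) : ℤ) - ((2 : ℕ) : ℤ) - ((1 : ℕ) : ℤ) = 0 by norm_num]
    exact Submodule.sub_mem _ (Submodule.smul_mem _ _ (X.act_gr 2 0 _ _ hu0))
      (Submodule.smul_mem _ _ hu0)
  have h3 : X.act 2 X.frob u = ((q : Ω)⁻¹ * α) • u := by
    rw [sub_eq_zero] at h2
    rw [mul_smul, ← h2, smul_smul, inv_mul_cancel₀ hq, one_smul]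
  apply hI 2 0 _ u hu0 _ h3
  rintro rfl
  exact hy0 (by rw [← huy, map_zero])

end special

section loc

variable [IsAlgClosed Ω] (X : SemistableModel.{u, v} Ω Γ n q)

/-- If `H^2` of the generic fibre has only Tate eigenvalues, then the restriction is injective on
the non-Tate part of `H^2` of the components. -/
lemma res_inj (hI : HasIntegralFrobenius X.toSpecialFibre)
    (h2 : ∀ α, IsEigenvalueOn X 2 α → IsTateNumber q α) {α : Ω} (hα : ¬ IsTateNumber q α)
    {y : X.H 0} (hy : y ∈ frobPart X.toSpecialFibre 0 2 α) (h : X.res 0 y = 0) : y = 0 := by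
  classical
  by_contra hy0
  have hq : (q : Ω) ≠ 0 := Nat.cast_ne_zero.2 X.q_ne
  have hcol : InColumn 0 0 := ⟨by simp, ⟨0, by simp⟩⟩
  have hxE : (Pi.single 0 y : X.C) ∈ X.E₁ 0 2 := by
    apply X.single_mem hcol
    simpa using hy.1
  have hxc : (Pi.single 0 y : X.C) ∈ X.cocycles 0 2 := by
    refine ⟨hxE, ?_⟩
    rw [SetLike.mem_coe, LinearMap.mem_ker]
    funext b
    rw [X.diff_apply]
    by_cases hc : InColumn (0 + 1) b
    · rw [X.cut_of hc, Pi.add_apply, X.gysC_apply, Pi.single_eq_of_ne (by omega), map_zero,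
        add_zero]
      cases b with
      | zero => rfl
      | succ b =>
        rw [X.resC_succ]
        by_cases hb : b = 0
        · subst hb
          rw [Pi.single_eq_same, h]
          rfl
        · rw [Pi.single_eq_of_ne hb, map_zero]
          rfl
    · rw [X.cut_of_not hc]
      rfl
  have hgen := single_gen X.toSpecialFibre 0 0 rfl hy.2
  have hxB : (Pi.single 0 y : X.C) ∉ X.coboundaries 0 2 := by
    intro hb
    obtain ⟨v, hvE, hvg, hv⟩ := cob_gen X.toSpecialFibre 0 2 hgen hb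
    have hv0 : v = 0 := by
      funext a
      by_cases hc : InColumn (0 - 1) a
      · have h1 := (hvE a).1
        have hc1 := hc.1
        have hc2 := hc.2
        rw [show |(0 : ℤ) - 1| = 1 by norm_num] at hc1
        rcases Nat.lt_or_ge a 2 with ha | ha
        · have ha1 : a = 1 := by omega
          subst ha1
          by_contra hne
          have h3 := comp_gen X.toSpecialFibre (0 - 1) hvg 1
          rw [show (((1 : ℕ) : ℤ) - (0 - 1)) / 2 = 1 by norm_num, zpow_one] at h3
          rw [show (2 : ℤ) + (0 - 1) - ((1 : ℕ) : ℤ) = 0 by norm_num] at h1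
          obtain ⟨-, k, hk, hk'⟩ := h0_root X.toSpecialFibre hI 1 ⟨h1, h3⟩ hne
          exact hα (isTate_of_root hq hk hk')
        · rw [X.gr_eq_bot a _ (Or.inl (by omega)), Submodule.mem_bot] at h1
          exact h1
      · exact (hvE a).2 hc
    rw [hv0, map_zero] at hv
    apply hy0
    have := congrFun hv 0
    rw [Pi.single_eq_same] at this
    exact this.symm
  obtain ⟨x', hx', hxB', hx''⟩ := exists_eigen_mod (X.actC 0 X.frob) α (Z := X.cocycles 0 2)
    (fun x hx => zc_stable X 0 2 hx) hxc hxB hgen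
  have e : ((2 : ℕ) : ℤ) - 2 = 0 := by norm_num
  apply hα
  apply h2
  apply eigen_generic X 2 2 (x := x')
  · rw [e]; exact hx'
  · rw [e]; exact hxB'
  · rw [e]; exact hx''

/-- If the slopes of `H^3` of the generic fibre are at least one, then the restriction is
surjective on the part of `H^2` of the double surfaces of slope less than one. -/
lemma res_surj (hn : n = 3) (hI : HasIntegralFrobenius X.toSpecialFibre) (R : ValuationSubring Ω)
    (h3 : ∀ α, IsEigenvalueOn X 3 α → α / q ∈ R) {α : Ω} (hα : α / q ∉ R)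
    {z : X.H 1} (hz : z ∈ frobPart X.toSpecialFibre 1 2 α) :
    ∃ y ∈ frobPart X.toSpecialFibre 0 2 α, X.res 0 y = z := by
  classical
  have hα' : (q : Ω)⁻¹ * α ∉ R := by rwa [← div_eq_inv_mul]
  have hcol : InColumn 1 1 := ⟨by simp, ⟨0, by simp⟩⟩
  have hxE : (Pi.single 1 z : X.C) ∈ X.E₁ 1 2 := by
    apply X.single_mem hcol
    simpa using hz.1
  have hres : X.res 1 z = 0 := by
    by_contra hne
    exact hα' (mem_of_int R (h2_curve X.toSpecialFibre hn hI
      (res_frobPart X.toSpecialFibre 1 2 hz) hne))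
  have hxc : (Pi.single 1 z : X.C) ∈ X.cocycles 1 2 := by
    refine ⟨hxE, ?_⟩
    rw [SetLike.mem_coe, LinearMap.mem_ker]
    funext b
    rw [X.diff_apply]
    by_cases hc : InColumn (1 + 1) b
    · have hc1 := hc.1
      rw [show |(1 : ℤ) + 1| = 2 by norm_num] at hc1
      rw [X.cut_of hc, Pi.add_apply, X.gysC_apply, Pi.single_eq_of_ne (by omega), map_zero,
        add_zero]
      cases b with
      | zero => rfl
      | succ b =>
        rw [X.resC_succ]
        by_cases hb : b = 1
        · subst hb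
          rw [Pi.single_eq_same, hres]
          rfl
        · rw [Pi.single_eq_of_ne hb, map_zero]
          rfl
    · rw [X.cut_of_not hc]
      rfl
  have hgen := single_gen X.toSpecialFibre 1 1 rfl hz.2
  by_cases hb : (Pi.single 1 z : X.C) ∈ X.coboundaries 1 2
  · obtain ⟨v, hvE, hvg, hv⟩ := cob_gen X.toSpecialFibre 1 2 hgen hb
    rw [show (1 : ℤ) - 1 = 0 by norm_num] at hvE hvg hv
    have hv2 : v 2 = 0 := by
      by_contra hne
      have h4 := comp_gen X.toSpecialFibre 0 hvg 2
      rw [show (((2 : ℕ) : ℤ) - 0) / 2 = 1 by norm_num, zpow_one] at h4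
      have h5 := (hvE 2).1
      rw [show (2 : ℤ) + 0 - ((2 : ℕ) : ℤ) = 0 by norm_num] at h5
      exact hα' (mem_of_int R (h0_root X.toSpecialFibre hI 2 ⟨h5, h4⟩ hne).1)
    refine ⟨v 0, ⟨?_, ?_⟩, ?_⟩
    · have h5 := (hvE 0).1
      rwa [show (2 : ℤ) + 0 - ((0 : ℕ) : ℤ) = 2 by norm_num] at h5
    · have h4 := comp_gen X.toSpecialFibre 0 hvg 0
      rwa [show (((0 : ℕ) : ℤ) - 0) / 2 = 0 by norm_num, zpow_zero, inv_one, one_mul] at h4
    · have h6 := congrFun hv 1
      rw [Pi.single_eq_same, X.diff_apply, X.cut_of (by simpa using hcol), Pi.add_apply,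
        X.gysC_apply] at h6
      have h7 : X.gys 1 (v (1 + 1)) = 0 := by
        have : v (1 + 1) = 0 := hv2
        rw [this, map_zero]
      rw [h7, add_zero] at h6
      exact h6
  · exfalso
    obtain ⟨x', hx', hxB', hx''⟩ := exists_eigen_mod (X.actC 1 X.frob) α (Z := X.cocycles 1 2)
      (fun x hx => zc_stable X 1 2 hx) hxc hb hgen
    have e : ((3 : ℕ) : ℤ) - 2 = 1 := by norm_num
    apply hα
    apply h3
    apply eigen_generic X 3 2 (x := x')
    · rw [e]; exact hx'
    · rw [e]; exact hxB'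
    · rw [e]; exact hx''

end loc

section cover

variable [IsAlgClosed Ω] (X : Degeneration.{u, v} Ω Γ n q)

/-- If the restriction is surjective on the part of eigenvalue `α`, the primitive part is covered. -/
lemma covered (hn : n = 3) (hI : HasIntegralFrobenius X.toSpecialFibre) {χ : Γ → Ω}
    (hα : ¬ IsTateNumber q (χ X.frob))
    (hs : ∀ z ∈ frobPart X.toSpecialFibre 1 2 (χ X.frob),
      ∃ y ∈ frobPart X.toSpecialFibre 0 2 (χ X.frob), X.res 0 y = z) :
    X.primPart 1 2 χ ≤ X.coboundaries 1 2 := by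
  classical
  have hq : (q : Ω) ≠ 0 := Nat.cast_ne_zero.2 X.q_ne
  rintro x ⟨⟨hxE, -⟩, hxW⟩
  have hxg : x ∈ Module.End.maxGenEigenspace (X.actC 1 X.frob) (χ X.frob) := by
    have h1 : x ∈ Wt (X.actC 1) χ := hxW
    unfold Wt at h1
    rw [Submodule.mem_iInf] at h1
    exact h1 X.frob
  have hcol : InColumn 1 1 := ⟨by simp, ⟨0, by simp⟩⟩
  have hx1 : x 1 ∈ frobPart X.toSpecialFibre 1 2 (χ X.frob) := by
    constructor
    · have := (hxE 1).1
      rwa [show (2 : ℤ) + 1 - ((1 : ℕ) : ℤ) = 2 by norm_num] at this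
    · have := comp_gen X.toSpecialFibre 1 hxg 1
      rwa [show (((1 : ℕ) : ℤ) - 1) / 2 = 0 by norm_num, zpow_zero, inv_one, one_mul] at this
  have hx : x = Pi.single 1 (x 1) := by
    funext b
    by_cases hb : b = 1
    · subst hb
      rw [Pi.single_eq_same]
    · rw [Pi.single_eq_of_ne hb]
      by_cases hc : InColumn 1 b
      · have hc2 := hc.2
        have hc1 := hc.1
        rw [abs_one] at hc1
        by_cases hb3 : b = 3
        · subst hb3
          by_contra hne
          have h3 := comp_gen X.toSpecialFibre 1 hxg 3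
          rw [show (((3 : ℕ) : ℤ) - 1) / 2 = 1 by norm_num, zpow_one] at h3
          have h4 := (hxE 3).1
          rw [show (2 : ℤ) + 1 - ((3 : ℕ) : ℤ) = 0 by norm_num] at h4
          obtain ⟨-, k, hk, hk'⟩ := h0_root X.toSpecialFibre hI 3 ⟨h4, h3⟩ hne
          exact hα (isTate_of_root hq hk hk')
        · exact X.eq_zero_of_lt (by omega) _
      · exact (hxE b).2 hc
  obtain ⟨y, hy, hyz⟩ := hs (x 1) hx1
  have hcol0 : InColumn 0 0 := ⟨by simp, ⟨0, by simp⟩⟩
  refine ⟨Pi.single 0 y, ?_, ?_⟩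
  · rw [show (1 : ℤ) - 1 = 0 by norm_num]
    apply X.single_mem hcol0
    simpa using hy.1
  · rw [show (1 : ℤ) - 1 = 0 by norm_num, hx]
    funext b
    rw [X.diff_apply]
    by_cases hc : InColumn (0 + 1) b
    · rw [X.cut_of hc, Pi.add_apply, X.gysC_apply, Pi.single_eq_of_ne (by omega), map_zero,
        add_zero]
      cases b with
      | zero =>
        have := hc.1
        rw [zero_add, abs_one] at this
        norm_num at this
      | succ b =>
        rw [X.resC_succ]
        by_cases hb : b = 0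
        · subst hb
          rw [Pi.single_eq_same, hyz]
          show x 1 = (Pi.single 1 (x 1) : X.C) 1
          rw [Pi.single_eq_same]
        · rw [Pi.single_eq_of_ne hb, map_zero, Pi.single_eq_of_ne (by omega)]
    · rw [X.cut_of_not hc]
      by_cases hb : b = 1
      · subst hb
        exact absurd (by simpa using hcol) hc
      · rw [Pi.single_eq_of_ne hb]

/-- mw purity of a threefold for which the restriction is surjective on the non-Tate part. -/
theorem mw_three (hn : n = 3) (hI : HasIntegralFrobenius X.toSpecialFibre)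
    (A : DivisorClasses X.toSpecialFibre) (hT : A.TateConj 0)
    (hs : ∀ α : Ω, ¬ IsTateNumber q α → ∀ z ∈ frobPart X.toSpecialFibre 1 2 α,
      ∃ y ∈ frobPart X.toSpecialFibre 0 2 α, X.res 0 y = z) (k : ℕ) :
    IsMWPure q k (X.actV k X.frob) (X.N k) := by
  apply mw X A k
  intro a w χ h1 h2 h3
  obtain rfl : w = 2 := by omega
  obtain rfl : a = 0 := by omega
  by_cases hα : IsTateNumber q (χ X.frob)
  · right
    right
    right
    refine ⟨rfl, fun x hx hxW => ?_⟩
    apply hT _ hα x hx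
    unfold Wt at hxW
    rw [Submodule.mem_iInf] at hxW
    exact hxW X.frob
  · left
    right
    left
    have := covered X hn hI hα (hs _ hα)
    simpa using this

end cover

section final

variable [IsAlgClosed Ω] {Ω' : Type u} [Field Ω'] [CharZero Ω'] [IsAlgClosed Ω'] {Γ' : Type}

/-- The bijectivity of the restriction on the non-Tate part, from the comparison of two theories. -/
theorem surj_of_compare (X : SemistableModel.{u, v} Ω Γ n q) (X' : SemistableModel.{u, v} Ω' Γ' n q)
    (hn : n = 3) (hq : IsPrimePow q)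
    (hI : HasIntegralFrobenius X.toSpecialFibre) (hI' : HasIntegralFrobenius X'.toSpecialFibre)
    (hC0 : SameFrobenius X.toSpecialFibre X'.toSpecialFibre 0 2)
    (hC1 : SameFrobenius X.toSpecialFibre X'.toSpecialFibre 1 2)
    (R : ValuationSubring Ω') (hR : ((q : Ω'))⁻¹ ∉ R)
    (h2 : ∀ α, IsEigenvalueOn X 2 α → IsTateNumber q α)
    (h3 : ∀ α, IsEigenvalueOn X' 3 α → α / q ∈ R)
    (α : Ω) (hα : ¬ IsTateNumber q α) (z : X.H 1) (hz : z ∈ frobPart X.toSpecialFibre 1 2 α) :
    ∃ y ∈ frobPart X.toSpecialFibre 0 2 α, X.res 0 y = z := by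
  by_cases hz0 : z = 0
  · exact ⟨0, Submodule.zero_mem _, by rw [hz0, map_zero]⟩
  obtain ⟨y, hy, hy0, hyα⟩ := exists_eigen_gr X.toSpecialFibre 1 2 hz hz0
  have hint := hI 1 2 α y hy hy0 hyα
  have hw := X.weil 1 2 α y hy hy0 hyα
  -- a conjugate of slope less than one
  obtain ⟨α', hα', hαR⟩ : ∃ α' : Ω', Polynomial.aeval α' (minpoly ℚ α) = 0 ∧ α' / q ∉ R := by
    by_contra hcon
    push Not at hcon
    exact hα (tate_of_val hq R hR hint hw hcon)
  have hconj : AreConjugate α α' := by
    have halg : IsAlgebraic ℚ α := hw.1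
    refine ⟨halg, ?_, ?_⟩
    · exact ⟨minpoly ℚ α, minpoly.ne_zero halg.isIntegral, hα'⟩
    · exact minpoly.eq_of_irreducible_of_monic (minpoly.irreducible halg.isIntegral) hα'
        (minpoly.monic halg.isIntegral)
  -- the comparison of the dimensions
  have hle : finrank Ω (frobPart X.toSpecialFibre 1 2 α) ≤
      finrank Ω (frobPart X.toSpecialFibre 0 2 α) := by
    rw [hC0 α α' hconj, hC1 α α' hconj]
    have h4 : frobPart X'.toSpecialFibre 1 2 α' ≤
        (frobPart X'.toSpecialFibre 0 2 α').map (X'.res 0) := by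
      intro z' hz'
      obtain ⟨y', hy', hyz'⟩ := res_surj X' hn hI' R h3 hαR hz'
      exact ⟨y', hy', hyz'⟩
    exact (Submodule.finrank_mono h4).trans (Submodule.finrank_map_le _ _)
  have hinj : Function.Injective ((X.res 0).domRestrict (frobPart X.toSpecialFibre 0 2 α)) := by
    rw [← LinearMap.ker_eq_bot, LinearMap.ker_eq_bot']
    intro y' hy'
    exact Subtype.ext (res_inj X hI h2 hα y'.2 hy')
  have hmap : (frobPart X.toSpecialFibre 0 2 α).map (X.res 0) ≤
      frobPart X.toSpecialFibre 1 2 α := by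
    rintro _ ⟨y', hy', rfl⟩
    exact res_frobPart X.toSpecialFibre 0 2 hy'
  have heq : finrank Ω ((frobPart X.toSpecialFibre 0 2 α).map (X.res 0)) =
      finrank Ω (frobPart X.toSpecialFibre 0 2 α) := by
    have h5 : LinearMap.range ((X.res 0).domRestrict (frobPart X.toSpecialFibre 0 2 α)) =
        (frobPart X.toSpecialFibre 0 2 α).map (X.res 0) := by
      ext t
      constructor
      · rintro ⟨s, rfl⟩
        exact ⟨s, s.2, rfl⟩
      · rintro ⟨s, hs, rfl⟩
        exact ⟨⟨s, hs⟩, rfl⟩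
    rw [← h5, LinearMap.finrank_range_of_inj hinj]
  have hfull := Submodule.eq_of_le_of_finrank_le hmap (by rw [heq]; exact hle)
  rw [← hfull] at hz
  obtain ⟨y', hy', hyz'⟩ := hz
  exact ⟨y', hy', hyz'⟩

end final

end Pool.Agent.X302.MW
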