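import Pool.Agent.X302.MW.Free2
import Pool.Agent.X302.MW.Three

/-!
# Characters, without the hard Lefschetz theorem on the generic fibre
-/

namespace Pool.Agent.X302.MW

universe u v

open Module Submodule Pool.Agent.Y143

section sym

variable {Ω : Type*} [Field Ω] {C : Type*} [AddCommGroup C] [Module Ω C] {Γ : Type*}
variable {d : ℤ → Module.End Ω C} {L : Module.End Ω C} {G : ℤ → ℤ → Submodule Ω C}
  {T : ℤ → Γ → Module.End Ω C} {c : Γ → Ω}

lemma pre_cl_neg_le (h : Sym d L G T c) (hG : PreComplex d L G) (χ : Γ → Ω) (n p : ℤ) (i j : ℤ) :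
    Cl G T c χ n p i j ≤ Cl G T c χ n p (-i) j := by
  rintro x ⟨h1, h2⟩
  refine ⟨by rw [hG.neg]; exact h1, ?_⟩
  rw [SetLike.mem_coe, chr_neg h.cne]
  exact h.neg_wt h2

variable [IsAlgClosed Ω] [FiniteDimensional Ω C]

/-- The class of `χ`. -/
theorem pre_cl (h : Sym d L G T c) (hG : PreComplex d L G) (χ : Γ → Ω) (n p : ℤ) :
    PreComplex d L (Cl G T c χ n p) where
  neg i j := by
    apply le_antisymm
    · have := pre_cl_neg_le h hG χ n p (-i) j
      rwa [neg_neg] at this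
    · exact pre_cl_neg_le h hG χ n p i j
  d_mem i j x hx := by
    refine ⟨hG.d_mem _ _ _ hx.1, ?_⟩
    rw [SetLike.mem_coe, chr_d]
    exact h.d_wt hx.2
  dd i j x hx := hG.dd i j x hx.1
  L_mem i j x hx := by
    refine ⟨hG.L_mem _ _ _ hx.1, ?_⟩
    rw [SetLike.mem_coe, chr_L h.cne]
    exact h.L_wt hx.2
  dL := hG.dL
  lefInj i m x hx h0 := hG.lefInj i m x hx.1 h0
  lefSurj i m y hy := by
    obtain ⟨x, hx, hxy⟩ := hG.lefSurj i m y hy.1
    refine ⟨prj (T i) (h.comm i) (chr c χ n p i (-m)) x, ⟨h.prj_mem_G _ hx, prj_mem _ _ _⟩, ?_⟩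
    rw [← h.prj_Lpow, hxy]
    apply prj_of_mem
    have := chr_Lpow (χ := χ) h.cne n p i (-m) m
    rw [show (-(m : ℤ) + 2 * m) = m by ring] at this
    rw [← this]
    exact hy.2
  out i hi j x hx h0 := hG.out i hi j x hx.1 h0
  incl i hi j z hz := by
    refine ⟨hG.incl i hi j z hz.1, ?_⟩
    have h1 := h.shift_wt 1 hz.2
    rw [show i + 1 - 2 * 1 = i - 1 by ring] at h1
    have h2 : chr c χ n p (i - 1) j = fun g => c g ^ (1 : ℤ) * chr c χ n p (i + 1) j g := by
      funext g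
      unfold chr
      rw [← mul_assoc, ← zpow_add₀ (h.cne g)]
      congr 2
      unfold ex
      omega
    rw [SetLike.mem_coe, h2]
    exact h1
  dneg := hG.dneg

end sym

variable {Ω : Type u} [Field Ω] [CharZero Ω] {Γ : Type} {n q : ℕ}

section special

variable [IsAlgClosed Ω] (X : SpecialFibre.{u, v} Ω Γ n q)

theorem cls_preComplex (χ : Γ → Ω) (p : ℤ) : PreComplex X.diff X.lefC (X.cls χ p) :=
  pre_cl X.sym (preComplex X) χ n p

omit [IsAlgClosed Ω] in
lemma wt_comp' {a : ℕ} {μ : Γ → Ω} {y : X.C} (hy : y ∈ Wt (X.actC a) μ) :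
    y a ∈ Wt (X.act a) μ := by
  rw [mem_Wt] at hy ⊢
  intro g
  obtain ⟨k, hk⟩ := hy g
  refine ⟨k, ?_⟩
  have h1 : ∀ (k : ℕ) (x : X.C), (((X.actC a g - μ g • (1 : Module.End Ω X.C)) ^ k) x) a =
      ((X.act a g - μ g • (1 : Module.End Ω (X.H a))) ^ k) (x a) := by
    intro k
    induction k with
    | zero => intro x; rfl
    | succ k ih =>
      intro x
      rw [pow_succ, Module.End.mul_apply, ih, pow_succ, Module.End.mul_apply]
      congr 1
      have h2 : X.actC a g x a = X.act a g (x a) := by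
        rw [X.actC_apply, show ((a : ℤ) - a) / 2 = 0 by simp, zpow_zero, Units.val_one, one_smul]
      show X.actC a g x a - μ g • x a = X.act a g (x a) - μ g • x a
      rw [h2]
  rw [← h1, hk]
  rfl

/-- A class in the part of character `χ` which is a coboundary is a coboundary in this part. -/
lemma bd_cls' {χ : Γ → Ω} {p i j : ℤ} {x : X.C} (hx : x ∈ X.cls χ p i j)
    (hb : x ∈ Bd X.diff X.tot i j) : x ∈ Bd X.diff (X.cls χ p) i j := by
  have h1 := X.sym.prj_bd χ n p hb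
  rwa [prj_of_mem (X.sym.comm i) hx.2] at h1

/-- Injectivity on the total complex gives injectivity on the parts. -/
lemma nInj_cls_of_tot {χ : Γ → Ω} {p i j : ℤ} (h : NInj X.diff X.tot i j) :
    NInj X.diff (X.cls χ p) i j := by
  rintro x ⟨hx1, hx2⟩
  exact bd_cls' X hx1.1 (h ⟨Sym.zc_cl_le χ n p _ _ hx1, Sym.bd_cl_le χ n p _ _ hx2⟩)

lemma nInj_cls' {χ : Γ → Ω} {p : ℤ} (a : ℕ) {w j : ℤ} (hw : w = n + j - ((a : ℤ) + 1))
    (hK : ∀ y ∈ X.gr a w, y ∈ Wt (X.act a) (chr X.cyc' χ n p ((a : ℤ) + 1) j) →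
      X.gys a (X.res a y) = 0 → (Pi.single (a + 1) (X.res a y) : X.C) ∈
        X.coboundaries (-((a : ℤ) + 1)) (w + 2 * ((a : ℤ) + 1))) :
    NInj X.diff (X.cls χ p) ((a : ℤ) + 1) j := by
  rintro x ⟨hx1, hx2⟩
  apply bd_cls' X hx1.1
  obtain ⟨y, hy, hyx⟩ := hx2
  rw [show (a : ℤ) + 1 - 1 = a by ring] at hy hyx
  have hyE : y ∈ X.E₁ a w := X.mem_E₁_cast rfl (by rw [hw]; ring) hy.1
  have hyW : y ∈ Wt (X.actC a) (chr X.cyc' χ n p ((a : ℤ) + 1) j) := by
    have h1 := hy.2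
    rw [show j = (j - 1) + 1 by ring, chr_d]
    exact h1
  have hx0 : X.diff (-((a : ℤ) + 1)) (X.diff a y) = 0 := by
    rw [hyx]
    exact hx1.2
  obtain ⟨h1, y', hy', h2⟩ := reduce X a w hyE hx0
  have hya : y a ∈ X.gr a w := by
    have := (hyE a).1
    rwa [show w + (a : ℤ) - a = w by ring] at this
  have h3 := hK (y a) hya (wt_comp' X hyW) h1
  rw [X.bd_eq, show (n : ℤ) + j - -((a : ℤ) + 1) = w + 2 * ((a : ℤ) + 1) by
    rw [hw]; ring, ← hyx, h2]
  exact Submodule.add_mem _ ⟨y', hy', rfl⟩ h3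

omit [IsAlgClosed Ω] in
lemma single_mem_cobound' (a : ℕ) {v : X.H (a + 2)} (hv : v ∈ X.gr (a + 2) 0)
    (hR : X.res (a + 2) v = 0) :
    (Pi.single (a + 1) (X.gys (a + 1) v) : X.C) ∈
      X.coboundaries (-((a : ℤ) + 1)) (2 + 2 * ((a : ℤ) + 1)) := by
  classical
  refine ⟨Pi.single (a + 2) v, ?_, ?_⟩
  · apply X.single_mem
    · refine ⟨?_, ?_⟩
      · rw [show -((a : ℤ) + 1) - 1 = -((a : ℤ) + 2) by ring, abs_neg,
          abs_of_nonneg (by positivity)]
        push_cast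
        rfl
      · refine ⟨(a : ℤ) + 2, by push_cast; ring⟩
    · rwa [show 2 + 2 * ((a : ℤ) + 1) + (-((a : ℤ) + 1) - 1) - ((a + 2 : ℕ) : ℤ) = 0 by
        push_cast; ring]
  · funext b
    rw [X.diff_apply, show -((a : ℤ) + 1) - 1 + 1 = -((a : ℤ) + 1) by ring, X.cut_neg]
    by_cases hc : InColumn ((a : ℤ) + 1) b
    · rw [X.cut_of hc, Pi.add_apply, X.gysC_apply]
      have hab : a + 1 ≤ b := by
        have := hc.1
        rw [abs_of_nonneg (by positivity)] at this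
        exact_mod_cast this
      obtain ⟨b', rfl⟩ : ∃ b', b = b' + 1 := ⟨b - 1, by omega⟩
      rw [X.resC_succ]
      by_cases hb : b' = a
      · subst hb
        rw [Pi.single_eq_of_ne (by omega), map_zero, zero_add, Pi.single_eq_same,
          Pi.single_eq_same]
      · by_cases hb2 : b' = a + 2
        · subst hb2
          rw [Pi.single_eq_same, hR, zero_add, Pi.single_eq_of_ne (by omega), map_zero,
            Pi.single_eq_of_ne (by omega)]
        · rw [Pi.single_eq_of_ne hb2, map_zero, zero_add, Pi.single_eq_of_ne (by omega), map_zero,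
            Pi.single_eq_of_ne (by omega)]
    · rw [X.cut_of_not hc, Pi.single_eq_of_ne]
      rintro rfl
      exact hc (inCol_succ_self a)

omit [IsAlgClosed Ω] in
lemma prim_le' (χ : Γ → Ω) (p : ℤ) (a m w : ℕ) (hw : (n : ℤ) - m - ((a : ℤ) + 1) = w) :
    Pr X.lefC (X.cls χ p) ((a : ℤ) + 1) m ≤
      X.primPart ((a : ℤ) + 1) w (chr X.cyc' χ n p ((a : ℤ) + 1) (-m)) := by
  rintro x ⟨⟨hx1, hx2⟩, hx3⟩
  refine ⟨⟨X.mem_E₁_cast rfl (by omega) hx1, ?_⟩, hx2⟩
  show x ∈ kerPow X.lefC ((n : ℤ) + 1 - ((a : ℤ) + 1) - w).toNat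
  rw [show ((n : ℤ) + 1 - ((a : ℤ) + 1) - w).toNat = m + 1 by omega]
  exact hx3

omit [IsAlgClosed Ω] in
lemma chr_dual' (χ : Γ → Ω) (p : ℤ) (i : ℤ) (m : ℕ) {w : ℤ} (hw : (n : ℤ) - m - i = w) :
    chr X.cyc' (X.dualChar χ) n (1 - p) i (-m) =
      dualAt X w (chr X.cyc' χ n p i (-m)) := by
  funext g
  show X.cyc' g ^ ex n (1 - p) i (-m) * (X.cyc' g * χ (X.tr g)) =
    X.cyc' g ^ w * (X.cyc' (X.tr g) ^ ex n p i (-m) * χ (X.tr g))
  rw [X.cyc'_tr, inv_zpow', ← mul_assoc, ← mul_assoc, ← zpow_add_one₀ (X.cyc'_ne g),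
    ← zpow_add₀ (X.cyc'_ne g)]
  congr 2
  unfold ex
  omega

omit [IsAlgClosed Ω] in
lemma exists_chr' (μ : Γ → Ω) (i j : ℤ) : ∃ χ : Γ → Ω, chr X.cyc' χ n 0 i j = μ := by
  refine ⟨fun g => (X.cyc' g ^ ex n 0 i j)⁻¹ * μ g, ?_⟩
  funext g
  unfold chr
  rw [mul_inv_cancel_left₀ (zpow_ne_zero _ (X.cyc'_ne g))]

/-- Injectivity on the total complex from injectivity on the parts. -/
theorem nInj_tot_of_cls (i j : ℤ)
    (h : ∀ χ : Γ → Ω, NInj X.diff (X.cls χ 0) i j) : NInj X.diff X.tot i j := by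
  rintro x ⟨hx1, hx2⟩
  apply mem_of_prj_mem (X.sym.comm (-i))
  intro μ
  obtain ⟨χ, hχ⟩ := exists_chr' X μ (-i) j
  have h1 := X.sym.prj_zc χ n 0 hx1
  have h2 := X.sym.prj_bd χ n 0 hx2
  have h3 := h χ
  have h4 : prj (X.actC (-i)) (X.sym.comm (-i)) μ x =
      prj (X.actC i) (X.sym.comm i) (chr X.cyc' χ n 0 i j) x := by
    have h5 := prj_equiv (X.sym.comm i) (X.sym.comm (-i)) (c := fun g => X.cyc' g ^ i)
      (fun g => zpow_ne_zero _ (X.cyc'_ne g)) (1 : Module.End Ω X.C)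
      (fun g x => by
        have := X.sym.shift i i g x
        rwa [show i - 2 * i = -i by ring] at this) (chr X.cyc' χ n 0 i j) x
    rw [← chr_neg X.cyc'_ne, hχ] at h5
    exact h5
  rw [hχ] at h1
  have h6 : prj (X.actC (-i)) (X.sym.comm (-i)) μ x ∈ Bd X.diff (X.cls χ 0) (-i) j := by
    apply h3
    refine ⟨h1, ?_⟩
    rw [h4]
    exact h2
  exact Sym.bd_cl_le χ n 0 _ _ h6

end special

/-- The condition on a character for the injectivity of `N` on the part of weight four of `H^3` of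
a threefold: the dual character is covered, or the primitive part does not meet the coboundaries, or
the character does not occur in `H^2` of the components, or its classes there are algebraic. -/
def InjectiveAt {X : SpecialFibre.{u, v} Ω Γ n q} (A : DivisorClasses X) (χ : Γ → Ω) : Prop :=
  CoveredAt X 1 2 (dualAt X 2 χ) ∨ Disjoint (X.primPart 1 2 χ) (X.coboundaries 1 2) ∨
    AbsentAt X 0 2 χ ∨ AlgebraicAt A 0 χ

/-- `N : gr_4 H^3 → gr_2 H^3` is injective for a threefold if all characters satisfy the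
condition. -/
theorem inj_three [IsAlgClosed Ω] (X : SpecialFibre.{u, v} Ω Γ 3 q) (A : DivisorClasses X)
    (hA : ∀ χ : Γ → Ω, InjectiveAt A χ) : NInj X.diff X.tot 1 0 := by
  apply nInj_tot_of_cls
  intro χ
  have hI : ∀ (χ : Γ → Ω) (p : ℤ), NInj X.diff (X.cls χ p) 1 2 := by
    intro χ p
    apply nInj_cls_of_tot
    have := inj_zero' A 1 le_rfl
    simpa using this
  have hw : ((3 : ℕ) : ℤ) - ((0 : ℕ) : ℤ) - (((0 : ℕ) : ℤ) + 1) = ((2 : ℕ) : ℤ) := by norm_num
  have hP := cls_preComplex X χ 0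
  have hprim := prim_le' X χ 0 0 0 2 hw
  have hbd : Bd X.diff X.tot 1 (-((0 : ℕ) : ℤ)) = X.coboundaries 1 2 := by
    rw [X.bd_eq]; norm_num
  have hch : chr X.cyc' χ ((3 : ℕ) : ℤ) 0 1 (-((0 : ℕ) : ℤ)) =
    chr X.cyc' χ ((3 : ℕ) : ℤ) 0 (((0 : ℕ) : ℤ) + 1) (-((0 : ℕ) : ℤ)) := by norm_num
  rcases hA (chr X.cyc' χ ((3 : ℕ) : ℤ) 0 1 (-((0 : ℕ) : ℤ))) with h | h | h | h
  · -- the dual character is covered
    have hd := chr_dual' X χ 0 1 0 (w := 2) (by norm_num)
    rw [← hd] at h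
    have hprim' := prim_le' X (X.dualChar χ) (1 - 0) 0 0 2 hw
    have hS : Pr X.lefC (X.cls (X.dualChar χ) (1 - 0)) 1 0 ≤
        Bd X.diff (X.cls (X.dualChar χ) (1 - 0)) 1 (-((0 : ℕ) : ℤ)) := by
      intro x hx
      apply bd_cls' X hx.1
      rw [hbd]
      apply h
      have := hprim' (by simpa using hx)
      simpa using this
    have hZ := pre_zp_eq_bot (X.cls_dual 0 χ).flip (cls_preComplex X (X.dualChar χ) (1 - 0)) hP 1 0
      hS
    have := hP.nInj_of_Zp 1 le_rfl 0 (by simpa using hI χ 0) hZ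
    simpa using this
  · -- the primitive part is disjoint from the coboundaries
    have hD : Disjoint (Pr X.lefC (X.cls χ 0) 1 0)
        (Bd X.diff (X.cls χ 0) 1 (-((0 : ℕ) : ℤ))) := by
      refine Disjoint.mono ?_ ?_ h
      · intro x hx
        have := hprim (by simpa using hx)
        simpa using this
      · rw [← hbd]
        exact Sym.bd_cl_le χ _ 0 _ _
    have := hP.nInj_of_Zp 1 le_rfl 0 (by simpa using hI χ 0)
      (hP.zp_eq_bot_of_disjoint 1 le_rfl 0 hD)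
    simpa using this
  · have key := nInj_cls' X (χ := χ) (p := 0) 0 (w := 2) (j := 0) (by norm_num) (by
      intro y hy hyW _
      have hyW' : y ∈ Wt (X.act 0) (chr X.cyc' χ ((3 : ℕ) : ℤ) 0 1 (-((0 : ℕ) : ℤ))) := by
        simpa using hyW
      rw [(Submodule.disjoint_def.1 h) y hy hyW', map_zero, Pi.single_zero]
      exact Submodule.zero_mem _)
    simpa using key
  · have key := nInj_cls' X (χ := χ) (p := 0) 0 (w := 2) (j := 0) (by norm_num) (by
      intro y hy hyW hG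
      have hyW' : y ∈ Wt (X.act 0) (chr X.cyc' χ ((3 : ℕ) : ℤ) 0 1 (-((0 : ℕ) : ℤ))) := by
        simpa using hyW
      obtain ⟨v, hv, hR, hz⟩ := crit2 A 0 (by norm_num) (h y hy hyW') hG
      rw [hz]
      exact single_mem_cobound' X 0 hv hR)
    simpa using key

end Pool.Agent.X302.MW
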