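import Pool.Agent.X302.MW.Free2
import Pool.Agent.X302.MW.Cal

/-!
# Multiplicities of Frobenius eigenvalues on the generic fibre and on the `E_2` term
-/

namespace Pool.Agent.X302.MW

universe u v

open Module Submodule Pool.Agent.Y143

section la

variable {Ω : Type*} [Field Ω] {V : Type*} [AddCommGroup V] [Module Ω V] {C : Type*}
  [AddCommGroup C] [Module Ω C]

/-- A relation inducing an isomorphism of subquotients preserves the dimension. -/
lemma finrank_rel [FiniteDimensional Ω V] [FiniteDimensional Ω C] {U A : Submodule Ω V}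
    {Z B : Submodule Ω C} (hAU : A ≤ U) (hBZ : B ≤ Z) (S : Submodule Ω (V × C))
    (hm : ∀ v x, (v, x) ∈ S → v ∈ U ∧ x ∈ Z) (hl : ∀ v ∈ U, ∃ x, (v, x) ∈ S)
    (hr : ∀ x ∈ Z, ∃ v, (v, x) ∈ S) (hk : ∀ v x, (v, x) ∈ S → (v ∈ A ↔ x ∈ B)) :
    (finrank Ω U : ℤ) - finrank Ω A = finrank Ω Z - finrank Ω B := by
  have h1 := finrank_map_add_ker (A.mkQ ∘ₗ LinearMap.fst Ω V C) S
  have h2 := finrank_map_add_ker (B.mkQ ∘ₗ LinearMap.snd Ω V C) S
  have h3 := finrank_map_add_ker A.mkQ U
  have h4 := finrank_map_add_ker B.mkQ Z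
  have e1 : S.map (A.mkQ ∘ₗ LinearMap.fst Ω V C) = U.map A.mkQ := by
    apply le_antisymm
    · rintro _ ⟨⟨v, x⟩, hx, rfl⟩
      exact ⟨v, (hm v x hx).1, rfl⟩
    · rintro _ ⟨v, hv, rfl⟩
      obtain ⟨x, hx⟩ := hl v hv
      exact ⟨(v, x), hx, rfl⟩
  have e2 : S.map (B.mkQ ∘ₗ LinearMap.snd Ω V C) = Z.map B.mkQ := by
    apply le_antisymm
    · rintro _ ⟨⟨v, x⟩, hx, rfl⟩
      exact ⟨x, (hm v x hx).2, rfl⟩
    · rintro _ ⟨x, hx, rfl⟩
      obtain ⟨v, hv⟩ := hr x hx
      exact ⟨(v, x), hv, rfl⟩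
  have e3 : (S ⊓ LinearMap.ker (A.mkQ ∘ₗ LinearMap.fst Ω V C) : Submodule Ω (V × C)) =
      S ⊓ LinearMap.ker (B.mkQ ∘ₗ LinearMap.snd Ω V C) := by
    ext ⟨v, x⟩
    simp only [Submodule.mem_inf, LinearMap.mem_ker, LinearMap.comp_apply, LinearMap.fst_apply,
      LinearMap.snd_apply, Submodule.mkQ_apply, Submodule.Quotient.mk_eq_zero]
    constructor
    · rintro ⟨a, b⟩
      exact ⟨a, (hk v x a).1 b⟩
    · rintro ⟨a, b⟩
      exact ⟨a, (hk v x a).2 b⟩
  have e4 : U ⊓ LinearMap.ker A.mkQ = A := by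
    rw [Submodule.ker_mkQ]
    exact inf_eq_right.2 hAU
  have e5 : Z ⊓ LinearMap.ker B.mkQ = B := by
    rw [Submodule.ker_mkQ]
    exact inf_eq_right.2 hBZ
  rw [e1, e3] at h1
  rw [e2] at h2
  rw [e4] at h3
  rw [e5] at h4
  omega

lemma pow_prod (Φ : Module.End Ω V) (T : Module.End Ω C) (α : Ω) (k : ℕ) (s : V × C) :
    (((Φ.prodMap T) - α • (1 : Module.End Ω (V × C))) ^ k) s =
      (((Φ - α • (1 : Module.End Ω V)) ^ k) s.1, ((T - α • (1 : Module.End Ω C)) ^ k) s.2) := by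
  induction k generalizing s with
  | zero => rfl
  | succ k ih =>
    rw [pow_succ, Module.End.mul_apply, ih, pow_succ, Module.End.mul_apply, pow_succ,
      Module.End.mul_apply]
    rfl

/-- Lifting of generalized eigenvectors along a stable relation. -/
lemma exists_gen_lift [FiniteDimensional Ω V] [FiniteDimensional Ω C] (Φ : Module.End Ω V)
    (T : Module.End Ω C) (α : Ω) (S : Submodule Ω (V × C))
    (hS : ∀ v x, (v, x) ∈ S → (Φ v, T x) ∈ S) {v : V} {x : C} (hvx : (v, x) ∈ S)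
    (hv : v ∈ Φ.maxGenEigenspace α) : ∃ x' ∈ T.maxGenEigenspace α, (v, x') ∈ S := by
  set D : Module.End Ω (V × C) := (Φ.prodMap T) - α • (1 : Module.End Ω (V × C)) with hD
  have hDS : ∀ s ∈ S, D s ∈ S := by
    rintro ⟨a, b⟩ hs
    have := S.sub_mem (hS a b hs) (S.smul_mem α hs)
    exact this
  let R : Module.End Ω S := D.restrict hDS
  set N := finrank Ω S + finrank Ω V with hN
  have hcompl := LinearMap.isCompl_iSup_ker_pow_iInf_range_pow R
  -- decomposition of the element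
  have htop : (⨆ k, LinearMap.ker (R ^ k)) ⊔ (⨅ k, LinearMap.range (R ^ k)) = ⊤ :=
    hcompl.sup_eq_top
  obtain ⟨s0, hs0, s1, hs1, hs⟩ : ∃ s0 ∈ (⨆ k, LinearMap.ker (R ^ k)),
      ∃ s1 ∈ (⨅ k, LinearMap.range (R ^ k)), s0 + s1 = ⟨(v, x), hvx⟩ := by
    apply Submodule.mem_sup.1
    rw [htop]
    trivial
  have hRpow : ∀ (k : ℕ) (s : S), (((R ^ k) s : S) : V × C) = (D ^ k) (s : V × C) := by
    intro k
    induction k with
    | zero => intro s; rfl
    | succ k ih =>
      intro s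
      rw [pow_succ', Module.End.mul_apply, pow_succ', Module.End.mul_apply, ← ih]
      rfl
  -- the first component of `s1` vanishes
  obtain ⟨k0, hk0⟩ : ∃ k, (R ^ k) s0 = 0 := by
    have hdir : Directed (· ≤ ·) (fun k => LinearMap.ker (R ^ k)) := by
      apply Monotone.directed_le
      intro a b hab
      obtain ⟨c, rfl⟩ := Nat.exists_eq_add_of_le hab
      intro y hy
      rw [LinearMap.mem_ker] at hy ⊢
      rw [add_comm, pow_add, Module.End.mul_apply, hy, map_zero]
    obtain ⟨k, hk⟩ := (Submodule.mem_iSup_of_directed _ hdir).1 hs0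
    exact ⟨k, hk⟩
  have hs0gen : (s0 : V × C).1 ∈ Φ.maxGenEigenspace α ∧ (s0 : V × C).2 ∈ T.maxGenEigenspace α := by
    have h1 := congrArg (Subtype.val) hk0
    rw [hRpow, hD, pow_prod] at h1
    constructor
    · rw [Module.End.mem_maxGenEigenspace]
      exact ⟨k0, congrArg Prod.fst h1⟩
    · rw [Module.End.mem_maxGenEigenspace]
      exact ⟨k0, congrArg Prod.snd h1⟩
  have hs1v : (s1 : V × C).1 ∈ Φ.maxGenEigenspace α := by
    have h1 : (s1 : V × C).1 = v - (s0 : V × C).1 := by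
      have := congrArg (fun s : S => (s : V × C).1) hs
      have h2 : (s0 : V × C).1 + (s1 : V × C).1 = v := this
      rw [← h2]
      abel
    rw [h1]
    exact Submodule.sub_mem _ hv hs0gen.1
  have hs10 : (s1 : V × C).1 = 0 := by
    obtain ⟨m, hm⟩ := (Module.End.mem_maxGenEigenspace Φ α _).1 hs1v
    -- `s1 = R ^ M s2` with `M` large
    have hgen : ∀ y : V, y ∈ Φ.maxGenEigenspace α → ((Φ - α • (1 : Module.End Ω V)) ^
        (finrank Ω V)) y = 0 := by
      intro y hy
      have := Module.End.maxGenEigenspace_eq_genEigenspace_finrank Φ α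
      rw [this, Module.End.mem_genEigenspace_nat] at hy
      exact hy
    obtain ⟨s2, hs2⟩ := (Submodule.mem_iInf _).1 hs1 (finrank Ω V)
    have h3 := congrArg (fun s : S => (s : V × C).1) hs2
    simp only [hRpow, hD, pow_prod] at h3
    have h4 : (s2 : V × C).1 ∈ Φ.maxGenEigenspace α := by
      rw [Module.End.mem_maxGenEigenspace]
      refine ⟨m + finrank Ω V, ?_⟩
      rw [pow_add, Module.End.mul_apply, h3, hm]
    rw [← h3, hgen _ h4]
  refine ⟨(s0 : V × C).2, hs0gen.2, ?_⟩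
  have h5 : (s0 : V × C).1 = v := by
    have := congrArg (fun s : S => (s : V × C).1) hs
    have h2 : (s0 : V × C).1 + (s1 : V × C).1 = v := this
    rw [hs10, add_zero] at h2
    exact h2
  have h6 := s0.2
  rw [show (s0 : V × C) = (v, (s0 : V × C).2) from Prod.ext h5 rfl] at h6
  exact h6

lemma exists_gen_lift' [FiniteDimensional Ω V] [FiniteDimensional Ω C] (Φ : Module.End Ω V)
    (T : Module.End Ω C) (α : Ω) (S : Submodule Ω (V × C))
    (hS : ∀ v x, (v, x) ∈ S → (Φ v, T x) ∈ S) {v : V} {x : C} (hvx : (v, x) ∈ S)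
    (hx : x ∈ T.maxGenEigenspace α) : ∃ v' ∈ Φ.maxGenEigenspace α, (v', x) ∈ S := by
  let e : (C × V) ≃ₗ[Ω] (V × C) := LinearEquiv.prodComm Ω C V
  obtain ⟨v', hv', h⟩ := exists_gen_lift T Φ α (S.comap (e : (C × V) →ₗ[Ω] (V × C)))
    (fun x v h => hS v x h) (v := x) (x := v) hvx hx
  exact ⟨v', hv', h⟩

/-- The dimensions of the generalized eigenspaces in a relation. -/
lemma finrank_rel_gen [FiniteDimensional Ω V] [FiniteDimensional Ω C] {U A : Submodule Ω V}
    {Z B : Submodule Ω C} (hAU : A ≤ U) (hBZ : B ≤ Z) (S : Submodule Ω (V × C))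
    (hm : ∀ v x, (v, x) ∈ S → v ∈ U ∧ x ∈ Z) (hl : ∀ v ∈ U, ∃ x, (v, x) ∈ S)
    (hr : ∀ x ∈ Z, ∃ v, (v, x) ∈ S) (hk : ∀ v x, (v, x) ∈ S → (v ∈ A ↔ x ∈ B))
    (Φ : Module.End Ω V) (T : Module.End Ω C) (hS : ∀ v x, (v, x) ∈ S → (Φ v, T x) ∈ S) (α : Ω) :
    (finrank Ω (U ⊓ Φ.maxGenEigenspace α : Submodule Ω V) : ℤ) -
      finrank Ω (A ⊓ Φ.maxGenEigenspace α : Submodule Ω V) =
    finrank Ω (Z ⊓ T.maxGenEigenspace α : Submodule Ω C) -
      finrank Ω (B ⊓ T.maxGenEigenspace α : Submodule Ω C) := by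
  apply finrank_rel (inf_le_inf_right _ hAU) (inf_le_inf_right _ hBZ)
    (S ⊓ (Φ.maxGenEigenspace α).prod (T.maxGenEigenspace α))
  · rintro v x ⟨h1, h2⟩
    exact ⟨⟨(hm v x h1).1, h2.1⟩, ⟨(hm v x h1).2, h2.2⟩⟩
  · rintro v ⟨hv, hv'⟩
    obtain ⟨x, hx⟩ := hl v hv
    obtain ⟨x', hx', h⟩ := exists_gen_lift Φ T α S hS hx hv'
    exact ⟨x', h, hv', hx'⟩
  · rintro x ⟨hx, hx'⟩
    obtain ⟨v, hv⟩ := hr x hx
    obtain ⟨v', hv', h⟩ := exists_gen_lift' Φ T α S hS hv hx'
    exact ⟨v', h, hv', hx'⟩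
  · rintro v x ⟨h1, h2⟩
    constructor
    · rintro ⟨h3, -⟩
      exact ⟨(hk v x h1).1 h3, h2.2⟩
    · rintro ⟨h3, -⟩
      exact ⟨(hk v x h1).2 h3, h2.1⟩

end la

section model

variable {Ω : Type u} [Field Ω] [CharZero Ω] {Γ : Type} {n q : ℕ}
  (X : SemistableModel.{u, v} Ω Γ n q)

lemma W_finite (k : ℕ) (w : ℤ) : FiniteDimensional Ω (X.W k w) := by
  obtain ⟨b, hb⟩ := X.W_bot k
  have key : ∀ m : ℕ, FiniteDimensional Ω (X.W k (b + m)) := by
    intro m
    induction m with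
    | zero =>
      rw [Nat.cast_zero, add_zero, hb]
      infer_instance
    | succ m ih =>
      set w := b + ((m + 1 : ℕ) : ℤ) with hw
      have hw1 : w - 1 = b + m := by rw [hw]; push_cast; ring
      let Z := X.cocycles (k - w) w
      let B := (X.coboundaries (k - w) w).comap Z.subtype
      have hex : ∀ v : X.W k w, ∃ x : Z, ((v : X.V k), (x : X.C)) ∈ X.sp k w := by
        intro v
        obtain ⟨x, hx⟩ := X.sp_left k w v v.2
        exact ⟨⟨x, (X.sp_mem k w v x hx).2⟩, hx⟩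
      obtain ⟨φ, hφ⟩ := exists_map (V := X.W k w) (K := Z ⧸ B)
        (((X.sp k w).comap ((X.W k w).subtype.prodMap Z.subtype)).map
          (LinearMap.id.prodMap B.mkQ)) (by
          intro v
          obtain ⟨x, hx⟩ := hex v
          exact ⟨B.mkQ x, ⟨(v, x), hx, rfl⟩⟩) (by
          rintro y ⟨⟨v, x⟩, hx, h⟩
          have h1 : v = 0 := congrArg Prod.fst h
          have h2 : B.mkQ x = y := congrArg Prod.snd h
          subst h1
          rw [← h2, Submodule.mkQ_apply, Submodule.Quotient.mk_eq_zero]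
          exact (X.sp_ker k w _ _ hx).1 (Submodule.zero_mem _))
      have : FiniteDimensional Ω (X.W k (w - 1)) := by rw [hw1]; exact ih
      apply finite_split (X.W_mono k (show w - 1 ≤ w by omega)) φ
      intro v
      obtain ⟨⟨v', x⟩, hx, h⟩ := hφ v
      have h1 : v' = v := congrArg Prod.fst h
      have h2 : B.mkQ x = φ v := congrArg Prod.snd h
      subst h1
      rw [← h2, Submodule.mkQ_apply, Submodule.Quotient.mk_eq_zero]
      exact (X.sp_ker k w _ _ hx).symm
  have h1 : X.W k w ≤ X.W k (b + (w - b).toNat) := by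
    apply X.W_mono
    have := Int.self_le_toNat (w - b)
    omega
  have := key (w - b).toNat
  exact Submodule.finiteDimensional_of_le h1

lemma V_finite (k : ℕ) : FiniteDimensional Ω (X.V k) := by
  obtain ⟨t, ht⟩ := X.W_top k
  have := W_finite X k t
  rw [ht] at this
  exact LinearEquiv.finiteDimensional (Submodule.topEquiv (R := Ω) (M := X.V k))

/-- The multiplicity of the eigenvalue `α` on the term `E_2^(r, w)`. -/
noncomputable def mult2 (r w : ℤ) (α : Ω) : ℤ :=
  (finrank Ω (X.cocycles r w ⊓ Module.End.maxGenEigenspace (X.actC r X.frob) α :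
    Submodule Ω X.C) : ℤ) -
  finrank Ω (X.coboundaries r w ⊓ Module.End.maxGenEigenspace (X.actC r X.frob) α :
    Submodule Ω X.C)

/-- The multiplicities on a graded piece. -/
lemma mult_step (k : ℕ) (w : ℤ) (α : Ω) :
    (finrank Ω (X.W k w ⊓ (X.actV k X.frob).maxGenEigenspace α : Submodule Ω (X.V k)) : ℤ) -
      finrank Ω (X.W k (w - 1) ⊓ (X.actV k X.frob).maxGenEigenspace α :
        Submodule Ω (X.V k)) = mult2 X (k - w) w α := by
  have := V_finite X k
  exact finrank_rel_gen (X.W_mono k (show w - 1 ≤ w by omega)) (X.bd_le_zc _ _) (X.sp k w)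
    (fun v x h => X.sp_mem k w v x h) (fun v hv => X.sp_left k w v hv)
    (fun x hx => X.sp_right k w x hx) (fun v x h => X.sp_ker k w v x h) _ _
    (fun v x h => X.sp_act k w v x X.frob h) α

/-- The dimension of a graded piece. -/
lemma dim_step (k : ℕ) (w : ℤ) : (finrank Ω (X.W k w) : ℤ) - finrank Ω (X.W k (w - 1)) =
    finrank Ω (X.cocycles (k - w) w) - finrank Ω (X.coboundaries (k - w) w) := by
  have := V_finite X k
  exact finrank_rel (X.W_mono k (show w - 1 ≤ w by omega)) (X.bd_le_zc _ _) (X.sp k w)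
    (fun v x h => X.sp_mem k w v x h) (fun v hv => X.sp_left k w v hv)
    (fun x hx => X.sp_right k w x hx) (fun v x h => X.sp_ker k w v x h)

lemma weil_unique {q : ℕ} (hq : 1 < q) {w w' : ℤ} {α : Ω} (h : IsWeilNumber q w α)
    (h' : IsWeilNumber q w' α) : w = w' := by
  obtain ⟨z, hz⟩ : ∃ z : ℂ, Polynomial.aeval z (minpoly ℚ α) = 0 := by
    have h1 : 0 < (minpoly ℚ α).natDegree := minpoly.natDegree_pos h.1.isIntegral
    obtain ⟨z, hz⟩ := Complex.exists_root (f := (minpoly ℚ α).map (algebraMap ℚ ℂ)) (by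
      rw [Polynomial.degree_map]
      exact Polynomial.natDegree_pos_iff_degree_pos.1 h1)
    refine ⟨z, ?_⟩
    rwa [Polynomial.IsRoot, Polynomial.eval_map_algebraMap] at hz
  have h1 := h.2 z hz
  rw [h'.2 z hz] at h1
  have hq' : (1 : ℝ) < q := by exact_mod_cast hq
  have h2 := Real.rpow_right_inj (by linarith) hq'.ne' |>.1 h1
  have h3 : (w' : ℝ) = w := by linarith
  exact_mod_cast h3.symm

/-- The multiplicity of an eigenvalue of the wrong weight is zero. -/
lemma mult2_eq_zero (hq : 1 < q) (r w : ℤ) {w' : ℤ} {α : Ω} (hα : IsWeilNumber q w' α)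
    (h : w ≠ w') : mult2 X r w α = 0 := by
  have h0 : X.E₁ r w ⊓ Module.End.maxGenEigenspace (X.actC r X.frob) α = ⊥ := by
    rw [eq_bot_iff]
    intro x hx
    by_contra hx0
    obtain ⟨y, hy, hy0, hyα⟩ := exists_eigen_mod (X.actC r X.frob) α (Z := X.E₁ r w) (B := ⊥)
      (fun x hx => X.actC_mem X.frob hx) hx.1 hx0 hx.2
    rw [Submodule.mem_bot] at hy0 hyα
    exact h (weil_unique hq (X.weil_E₁ hy hy0 (sub_eq_zero.1 hyα)) hα)
  have h1 : X.cocycles r w ⊓ Module.End.maxGenEigenspace (X.actC r X.frob) α = ⊥ := by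
    rw [eq_bot_iff, ← h0]
    exact inf_le_inf_right _ inf_le_left
  have h2 : X.coboundaries r w ⊓ Module.End.maxGenEigenspace (X.actC r X.frob) α = ⊥ := by
    rw [eq_bot_iff, ← h1]
    exact inf_le_inf_right _ (X.bd_le_zc r w)
  unfold mult2
  rw [h1, h2, finrank_bot]
  simp

/-- The multiplicity of an eigenvalue of weight `w` on `H^k`. -/
theorem mult_eq (hq : 1 < q) (k : ℕ) (w : ℤ) {α : Ω} (hα : IsWeilNumber q w α) :
    (finrank Ω ((X.actV k X.frob).maxGenEigenspace α) : ℤ) = mult2 X (k - w) w α := by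
  have := V_finite X k
  obtain ⟨b, hb⟩ := X.W_bot k
  set f : ℤ → ℤ := fun u => (finrank Ω (X.W k u ⊓ (X.actV k X.frob).maxGenEigenspace α :
    Submodule Ω (X.V k)) : ℤ) with hf
  have hlow : ∀ u, u ≤ b → f u = 0 := by
    intro u hu
    have : X.W k u = ⊥ := by
      rw [eq_bot_iff, ← hb]
      exact X.W_mono k hu
    rw [hf]
    simp only
    rw [this, bot_inf_eq, finrank_bot]
    rfl
  have hstep : ∀ u, u ≠ w → f u = f (u - 1) := by
    intro u hu
    have h1 := mult_step X k u α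
    rw [mult2_eq_zero X hq _ u hα hu] at h1
    have h2 : f u - f (u - 1) = 0 := h1
    omega
  have hw : f w - f (w - 1) = mult2 X (k - w) w α := mult_step X k w α
  have h1 : ∀ (u : ℤ) (m : ℕ), u + m < w → f (u + m) = f u := by
    intro u m
    induction m with
    | zero => intro _; simp
    | succ m ih =>
      intro hm
      rw [hstep _ (by omega), show u + ((m + 1 : ℕ) : ℤ) - 1 = u + m by push_cast; ring]
      exact ih (by push_cast at hm; omega)
  have h2 : ∀ (m : ℕ), f (w + m) = f w := by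
    intro m
    induction m with
    | zero => simp
    | succ m ih =>
      rw [hstep _ (by push_cast; omega), show w + ((m + 1 : ℕ) : ℤ) - 1 = w + m by
        push_cast; ring]
      exact ih
  have h3 : f (w - 1) = 0 := by
    rcases le_or_gt (w - 1) b with h | h
    · exact hlow _ h
    · have := h1 b (w - 1 - b).toNat (by
        rw [Int.toNat_of_nonneg (by omega)]; omega)
      rw [Int.toNat_of_nonneg (by omega), show b + (w - 1 - b) = w - 1 by ring] at this
      rw [this]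
      exact hlow b le_rfl
  obtain ⟨t, ht⟩ := X.W_top k
  have h4 : X.W k (w + (t - w).toNat) = ⊤ := by
    rw [eq_top_iff, ← ht]
    apply X.W_mono
    have := Int.self_le_toNat (t - w)
    omega
  have h5 := h2 (t - w).toNat
  have h6 : f (w + (t - w).toNat) = finrank Ω ((X.actV k X.frob).maxGenEigenspace α) := by
    rw [hf]
    simp only
    rw [h4, top_inf_eq]
  rw [← h6, h5]
  omega

end model

end Pool.Agent.X302.MW
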