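import Pool.Agent.X302.MW.CDefs

/-!
# Multiplicities of Frobenius eigenvalues on the cohomology of the generic fibre
-/

namespace Pool.Agent.X302.MW

universe u v

open Module Pool.Agent.Y143

/-- The multiplicity of the eigenvalue `α` of the Frobenius on `H^k` of the generic fibre. -/
noncomputable def frobMult {Ω : Type u} [Field Ω] [CharZero Ω] {Γ : Type} {n q : ℕ}
    (X : SemistableModel.{u, v} Ω Γ n q) (k : ℕ) (α : Ω) : ℕ :=
  finrank Ω ((X.actV k X.frob).maxGenEigenspace α)

/-- For every algebraic number `α` of weight two which is not a product of `q` and a root of unity,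
and every conjugate `α'` of `α`, the multiplicity of `α` on `H^k` of `X` is at most the multiplicity
of `α'` on `H^k` of `X'`. If `X` and `X'` are two theories of the same variety, this is the case if
the characteristic polynomials of the Frobenius on `H^k` in the two theories are equal and have
rational coefficients (independence of `ℓ` for `H^k`), and also if all eigenvalues of weight two on
`H^k` of `X` are products of `q` and roots of unity. -/
def NotMore {Ω : Type u} [Field Ω] [CharZero Ω] {Γ : Type} {Ω' : Type u} [Field Ω'] [CharZero Ω']
    {Γ' : Type} {n q : ℕ} (X : SemistableModel.{u, v} Ω Γ n q)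
    (X' : SemistableModel.{u, v} Ω' Γ' n q) (k : ℕ) : Prop :=
  ∀ (α : Ω) (α' : Ω'), AreConjugate α α' → IsWeilNumber q 2 α → ¬ IsTateNumber q α →
    frobMult X k α ≤ frobMult X' k α'

end Pool.Agent.X302.MW
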