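import Pool.Agent.X302.MW.Gen
import Pool.Agent.X302.MW.Free3
import Pool.Agent.X302.MW.Cal3
import Pool.Agent.X302.MW.IDefs

/-!
# Comparison of the restriction maps in two theories, from the multiplicities on `H^2`
-/

namespace Pool.Agent.X302.MW

universe u v

open Module Submodule Pool.Agent.Y143

variable {Ω : Type u} [Field Ω] [CharZero Ω] {Γ : Type} {n q : ℕ}

lemma weil_of_conj {Ω' : Type u} [Field Ω'] [CharZero Ω'] {w : ℤ} {α : Ω} {α' : Ω'}
    (h : AreConjugate α α') (hα : IsWeilNumber q w α) : IsWeilNumber q w α' :=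
  ⟨h.2.1, fun z hz => hα.2 z (by rw [h.2.2]; exact hz)⟩

section cols

variable (X : SpecialFibre.{u, v} Ω Γ n q)

/-- A generalized eigenvector in column `r` is concentrated in the first stratum. -/
lemma col_single (hI : HasIntegralFrobenius X) {α : Ω} (hα : ¬ IsTateNumber q α) (r : ℕ)
    (hr : r ≤ 1) {x : X.C} (hx : x ∈ X.E₁ r 2)
    (hg : x ∈ Module.End.maxGenEigenspace (X.actC r X.frob) α) :
    x r ∈ frobPart X r 2 α ∧ x = Pi.single r (x r) := by
  classical
  have hq : (q : Ω) ≠ 0 := Nat.cast_ne_zero.2 X.q_ne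
  constructor
  · constructor
    · have := (hx r).1
      rwa [show (2 : ℤ) + r - r = 2 by ring] at this
    · have := comp_gen X r hg r
      rwa [show ((r : ℤ) - r) / 2 = 0 by simp, zpow_zero, inv_one, one_mul] at this
  · funext b
    by_cases hb : b = r
    · subst hb
      rw [Pi.single_eq_same]
    · rw [Pi.single_eq_of_ne hb]
      by_cases hc : InColumn (r : ℤ) b
      · have h1 := hc.1
        have h2 := hc.2
        rw [Nat.abs_cast] at h1
        by_cases hb2 : b = r + 2
        · subst hb2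
          by_contra hne
          have h3 := comp_gen X r hg (r + 2)
          rw [show (((r + 2 : ℕ) : ℤ) - r) / 2 = 1 by push_cast; omega, zpow_one] at h3
          have h4 := (hx (r + 2)).1
          rw [show (2 : ℤ) + r - ((r + 2 : ℕ) : ℤ) = 0 by push_cast; ring] at h4
          obtain ⟨-, k, hk, hk'⟩ := h0_root X hI (r + 2) ⟨h4, h3⟩ hne
          exact hα (isTate_of_root hq hk hk')
        · have h3 := (hx b).1
          rw [X.gr_eq_bot b _ (Or.inl (by omega)), Submodule.mem_bot] at h3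
          exact h3
      · exact (hx b).2 hc

/-- The column `-1` has no non-Tate part of weight two. -/
lemma col_neg (hI : HasIntegralFrobenius X) {α : Ω} (hα : ¬ IsTateNumber q α) {x : X.C}
    (hx : x ∈ X.E₁ (-1) 2) (hg : x ∈ Module.End.maxGenEigenspace (X.actC (-1) X.frob) α) :
    x = 0 := by
  have hq : (q : Ω) ≠ 0 := Nat.cast_ne_zero.2 X.q_ne
  funext b
  by_cases hc : InColumn (-1 : ℤ) b
  · have h1 := hc.1
    have h2 := hc.2
    rw [abs_neg, abs_one] at h1
    by_cases hb : b = 1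
    · subst hb
      by_contra hne
      have h3 := comp_gen X (-1) hg 1
      rw [show (((1 : ℕ) : ℤ) - (-1)) / 2 = 1 by norm_num, zpow_one] at h3
      have h4 := (hx 1).1
      rw [show (2 : ℤ) + -1 - ((1 : ℕ) : ℤ) = 0 by norm_num] at h4
      obtain ⟨-, k, hk, hk'⟩ := h0_root X hI 1 ⟨h4, h3⟩ hne
      exact hα (isTate_of_root hq hk hk')
    · have h3 := (hx b).1
      rw [X.gr_eq_bot b _ (Or.inl (by omega)), Submodule.mem_bot] at h3
      exact h3
  · exact (hx b).2 hc

end cols

section mult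

variable [IsAlgClosed Ω] (X : SemistableModel.{u, v} Ω Γ n q)

/-- The non-Tate multiplicities of weight two on `H^2`. -/
lemma mult2_zero (hI : HasIntegralFrobenius X.toSpecialFibre) {α : Ω}
    (hα : ¬ IsTateNumber q α) : mult2 X 0 2 α =
      finrank Ω (frobPart X.toSpecialFibre 0 2 α ⊓ LinearMap.ker (X.res 0) :
        Submodule Ω (X.H 0)) := by
  classical
  have hB : X.coboundaries 0 2 ⊓ Module.End.maxGenEigenspace (X.actC 0 X.frob) α = ⊥ := by
    rw [eq_bot_iff]
    rintro x ⟨hx, hg⟩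
    obtain ⟨y, hy, hyg, rfl⟩ := cob_gen X.toSpecialFibre 0 2 hg hx
    have hy0 : y = 0 := by
      apply col_neg X.toSpecialFibre hI hα (x := y)
      · exact hy
      · exact hyg
    rw [hy0, map_zero]
    exact Submodule.zero_mem _
  have hZ : X.cocycles 0 2 ⊓ Module.End.maxGenEigenspace (X.actC 0 X.frob) α =
      (frobPart X.toSpecialFibre 0 2 α ⊓ LinearMap.ker (X.res 0)).map
        (LinearMap.single Ω X.H 0) := by
    apply le_antisymm
    · rintro x ⟨hx, hg⟩
      obtain ⟨h1, h2⟩ := col_single X.toSpecialFibre hI hα 0 (by norm_num) (x := x) hx.1 hg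
      refine ⟨x 0, ⟨h1, ?_⟩, h2.symm⟩
      have h3 : X.diff ((0 : ℕ) : ℤ) x = 0 := hx.2
      rw [h2, diff_single] at h3
      have := congrFun h3 1
      rwa [Pi.single_eq_same] at this
    · rintro _ ⟨y, ⟨hy, hr⟩, rfl⟩
      refine ⟨⟨?_, ?_⟩, single_gen X.toSpecialFibre 0 0 rfl hy.2⟩
      · apply X.single_mem ⟨by simp, ⟨0, by simp⟩⟩
        simpa using hy.1
      · rw [SetLike.mem_coe, LinearMap.mem_ker]
        have h3 := diff_single X.toSpecialFibre 0 y
        rw [show X.res 0 y = 0 from hr, Pi.single_zero] at h3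
        exact h3
  have hinj : Function.Injective (LinearMap.single Ω X.H 0) := by
    intro a b h
    have := congrFun h 0
    simpa using this
  have h5 := (Submodule.equivMapOfInjective (LinearMap.single Ω X.H 0) hinj
    (frobPart X.toSpecialFibre 0 2 α ⊓ LinearMap.ker (X.res 0))).finrank_eq
  unfold mult2
  rw [hB, finrank_bot, hZ, ← h5]
  simp

/-- The multiplicity on `H^2` of a non-Tate eigenvalue of weight two. -/
lemma frobMult_two (hq : 1 < q) (hI : HasIntegralFrobenius X.toSpecialFibre) {α : Ω}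
    (hw : IsWeilNumber q 2 α) (hα : ¬ IsTateNumber q α) : frobMult X 2 α =
      finrank Ω (frobPart X.toSpecialFibre 0 2 α ⊓ LinearMap.ker (X.res 0) :
        Submodule Ω (X.H 0)) := by
  have h1 := mult_eq X hq 2 2 hw
  rw [show ((2 : ℕ) : ℤ) - 2 = 0 by norm_num, mult2_zero X hI hα] at h1
  exact_mod_cast h1

end mult

section final

variable [IsAlgClosed Ω] {Ω' : Type u} [Field Ω'] [CharZero Ω'] [IsAlgClosed Ω'] {Γ' : Type}

/-- The surjectivity of the restriction on the non-Tate part, from the comparison of two theories. -/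
theorem surj_of_compare4 (X : SemistableModel.{u, v} Ω Γ n q)
    (X' : SemistableModel.{u, v} Ω' Γ' n q) (hq : IsPrimePow q)
    (hC : AreComparable X.toSpecialFibre X'.toSpecialFibre)
    (R : ValuationSubring Ω') (hR : ((q : Ω'))⁻¹ ∉ R) (hM : NotMore X X' 2)
    (hs : ∀ α' : Ω', α' / q ∉ R → ∀ z' ∈ frobPart X'.toSpecialFibre 1 2 α',
      ∃ y' ∈ frobPart X'.toSpecialFibre 0 2 α', X'.res 0 y' = z')
    (α : Ω) (hα : ¬ IsTateNumber q α) (z : X.H 1) (hz : z ∈ frobPart X.toSpecialFibre 1 2 α) :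
    ∃ y ∈ frobPart X.toSpecialFibre 0 2 α, X.res 0 y = z := by
  obtain ⟨hI, hI', hC0, hC1⟩ := hC
  by_cases hz0 : z = 0
  · exact ⟨0, Submodule.zero_mem _, by rw [hz0, map_zero]⟩
  obtain ⟨y, hy, hy0, hyα⟩ := exists_eigen_gr X.toSpecialFibre 1 2 hz hz0
  have hint := hI 1 2 α y hy hy0 hyα
  have hw := X.weil 1 2 α y hy hy0 hyα
  have hq1 : 1 < q := hq.one_lt
  have hq' : (q : Ω') ≠ 0 := Nat.cast_ne_zero.2 X.q_ne
  obtain ⟨α', hα', hαR⟩ : ∃ α' : Ω', Polynomial.aeval α' (minpoly ℚ α) = 0 ∧ α' / q ∉ R := by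
    by_contra hcon
    push Not at hcon
    exact hα (tate_of_val hq R hR hint hw hcon)
  have hconj : AreConjugate α α' := by
    have halg : IsAlgebraic ℚ α := hw.1
    refine ⟨halg, ?_, ?_⟩
    · exact ⟨minpoly ℚ α, minpoly.ne_zero halg.isIntegral, hα'⟩
    · exact minpoly.eq_of_irreducible_of_monic (minpoly.irreducible halg.isIntegral) hα'
        (minpoly.monic halg.isIntegral)
  have hnT' : ¬ IsTateNumber q α' := not_tate_of_not_mem hq' R hαR
  have hle := hM α α' hconj hw hα
  rw [frobMult_two X hq1 hI hw hα, frobMult_two X' hq1 hI' (weil_of_conj hconj hw) hnT'] at hle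
  have e0 := hC0 α α' hconj
  have e1 := hC1 α α' hconj
  have h1 := finrank_map_add_ker (X.res 0) (frobPart X.toSpecialFibre 0 2 α)
  have h2 := finrank_map_add_ker (X'.res 0) (frobPart X'.toSpecialFibre 0 2 α')
  have h4 : (frobPart X'.toSpecialFibre 0 2 α').map (X'.res 0) =
      frobPart X'.toSpecialFibre 1 2 α' := by
    apply le_antisymm
    · rintro _ ⟨y', hy', rfl⟩
      exact res_frobPart X'.toSpecialFibre 0 2 hy'
    · intro z' hz'
      obtain ⟨y', hy', hyz'⟩ := hs α' hαR z' hz'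
      exact ⟨y', hy', hyz'⟩
  have hmap : (frobPart X.toSpecialFibre 0 2 α).map (X.res 0) ≤
      frobPart X.toSpecialFibre 1 2 α := by
    rintro _ ⟨y', hy', rfl⟩
    exact res_frobPart X.toSpecialFibre 0 2 hy'
  rw [h4] at h2
  have h2' : finrank Ω' (frobPart X'.toSpecialFibre 1 2 α') +
    finrank Ω' (frobPart X'.toSpecialFibre 0 2 α' ⊓ LinearMap.ker (X'.res 0) :
      Submodule Ω' (X'.H 0)) = finrank Ω' (frobPart X'.toSpecialFibre 0 2 α') := h2
  have hfin : finrank Ω (frobPart X.toSpecialFibre 1 2 α) ≤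
      finrank Ω ((frobPart X.toSpecialFibre 0 2 α).map (X.res 0)) := by
    rw [e1]
    omega
  have hfull := Submodule.eq_of_le_of_finrank_le hmap hfin
  rw [← hfull] at hz
  obtain ⟨y', hy', hyz'⟩ := hz
  exact ⟨y', hy', hyz'⟩

end final

end Pool.Agent.X302.MW
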