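import Pool.Agent.Y143.SimpleDefs

/-!
# Kato's log `ℓ`-adic monodromy-weight conjecture: statements

`X` is a projective SNCL scheme of relative dimension `n` over the log point of a finite field with
`q` elements (or a rigid-analytic space with a strictly semistable formal model with projective
special fibre); `SemistableModel` contains the cohomology of the strata, the Kummer log étale
cohomology `V m = H^m` with the weight filtration `W = P`, the monodromy operator `N`, and the weight
spectral sequence.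
-/

namespace Pool.Agent.X302.MW

universe u v

open Module Pool.Agent.Y143

/-- The map `Z / B → Z' / B'` given by `L ^ s` is injective. -/
def InjOnSub {Ω : Type*} [Field Ω] {C : Type*} [AddCommGroup C] [Module Ω C]
    (L : Module.End Ω C) (s : ℕ) (Z B B' : Submodule Ω C) : Prop :=
  ∀ x ∈ Z, (L ^ s) x ∈ B' → x ∈ B

variable {Ω : Type u} [Field Ω] [CharZero Ω] {Γ : Type} {n q : ℕ}

/-- `N ^ e : gr_(m + e) H^m → gr_(m - e) H^m` is injective. -/
def PowerInj (X : SemistableModel.{u, v} Ω Γ n q) (m e : ℕ) : Prop :=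
  ∀ v ∈ X.W m ((m : ℤ) + e), (X.N m ^ e) v ∈ X.W m ((m : ℤ) - e - 1) →
    v ∈ X.W m ((m : ℤ) + e - 1)

/-- `N ^ e : gr_(m + e) H^m → gr_(m - e) H^m` is surjective. -/
def PowerSurj (X : SemistableModel.{u, v} Ω Γ n q) (m e : ℕ) : Prop :=
  ∀ v ∈ X.W m ((m : ℤ) - e), ∃ u ∈ X.W m ((m : ℤ) + e),
    v - (X.N m ^ e) u ∈ X.W m ((m : ℤ) - e - 1)

/-- Kato's conjecture for `H^m`: the maps `N ^ e : gr_(m + e) H^m → gr_(m - e) H^m` are bijective
for all `e ≥ 1`. -/
def KatoFor (X : SemistableModel.{u, v} Ω Γ n q) (m : ℕ) : Prop :=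
  ∀ e : ℕ, 1 ≤ e → PowerInj X m e ∧ PowerSurj X m e

/-- The dimension of `gr_w H^m`. -/
noncomputable def grDim (X : SemistableModel.{u, v} Ω Γ n q) (m : ℕ) (w : ℤ) : ℕ :=
  finrank Ω (X.W m w) - finrank Ω (X.W m (w - 1))

/-- A part of the log hard Lefschetz theorem: `L ^ (n - 2) : gr_1 H^2 → gr_(2 n - 3) H^(2 n - 2)` is
injective; here these graded pieces are the terms `E_2^(1, 1)` and `E_2^(1, 2 n - 3)` of the weight
spectral sequence. -/
def LefschetzOnGrOne (X : SemistableModel.{u, v} Ω Γ n q) : Prop :=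
  InjOnSub X.lefC (n - 2) (X.cocycles 1 1) (X.coboundaries 1 1)
    (X.coboundaries 1 (2 * (n : ℤ) - 3))

end Pool.Agent.X302.MW
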