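import Pool.Agent.X302.MW.Gen
import Pool.Agent.X302.MW.LDefs

/-!
# The extreme weights
-/

namespace Pool.Agent.X302.MW

universe u v

open Module Submodule Pool.Agent.Y143

variable {Ω : Type u} [Field Ω] [CharZero Ω] {Γ : Type} {n q : ℕ}

section

variable (X : SemistableModel.{u, v} Ω Γ n q)

lemma bd_tot_deg (m : ℕ) (a : ℤ) :
    Bd X.diff X.tot a ((m : ℤ) - n) = X.coboundaries a (m - a) := by
  rw [X.bd_eq]
  congr 1
  ring

lemma zc_tot_deg (m : ℕ) (a : ℤ) :
    Zc X.diff X.tot a ((m : ℤ) - n) = X.cocycles a (m - a) := by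
  rw [X.zc_eq]
  congr 1
  ring

lemma sp_ker' (m : ℕ) (w r : ℤ) (hr : (m : ℤ) - w = r) (v : X.V m) (x : X.C)
    (h : (v, x) ∈ X.sp m w) : v ∈ X.W m (w - 1) ↔ x ∈ X.coboundaries r w := by
  subst hr
  exact X.sp_ker m w v x h

lemma sp_mem' (m : ℕ) (w r : ℤ) (hr : (m : ℤ) - w = r) (v : X.V m) (x : X.C)
    (h : (v, x) ∈ X.sp m w) : v ∈ X.W m w ∧ x ∈ X.cocycles r w := by
  subst hr
  exact X.sp_mem m w v x h

lemma sp_right' (m : ℕ) (w r : ℤ) (hr : (m : ℤ) - w = r) (x : X.C)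
    (h : x ∈ X.cocycles r w) : ∃ v, (v, x) ∈ X.sp m w := by
  subst hr
  exact X.sp_right m w x h

theorem powerInj_iff (m e : ℕ) : PowerInj X m e ↔ NInj X.diff X.tot e ((m : ℤ) - n) := by
  have hcob1 : Bd X.diff X.tot e ((m : ℤ) - n) = X.coboundaries e (m - e) := bd_tot_deg X m e
  have hcob2 : Bd X.diff X.tot (-(e : ℤ)) ((m : ℤ) - n) = X.coboundaries (-(e : ℤ)) (m + e) := by
    rw [bd_tot_deg, sub_neg_eq_add]
  have hcoc2 : Zc X.diff X.tot (-(e : ℤ)) ((m : ℤ) - n) = X.cocycles (-(e : ℤ)) (m + e) := by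
    rw [zc_tot_deg, sub_neg_eq_add]
  constructor
  · rintro h x ⟨hx1, hx2⟩
    rw [hcoc2] at hx1
    rw [hcob1] at hx2
    rw [hcob2]
    obtain ⟨v, hv⟩ := sp_right' X m (m + e) (-(e : ℤ)) (by ring) x hx1
    have h1 := X.N_pow_sp hv e le_rfl
    have h1' := X.sp_cast (show (m : ℤ) + e - 2 * e = m - e by ring) h1
    have h2 := (sp_ker' X m (m - e) e (by ring) _ _ h1').2 hx2
    have h3 := h v (sp_mem' X m (m + e) (-(e : ℤ)) (by ring) _ _ hv).1 h2
    exact (sp_ker' X m (m + e) (-(e : ℤ)) (by ring) _ _ hv).1 h3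
  · intro h v hv hN
    obtain ⟨x, hx⟩ := X.sp_left m _ v hv
    have h1 := X.N_pow_sp hx e le_rfl
    have h1' := X.sp_cast (show (m : ℤ) + e - 2 * e = m - e by ring) h1
    have h2 := (sp_ker' X m (m - e) e (by ring) _ _ h1').1 hN
    have h3 := (sp_mem' X m (m + e) (-(e : ℤ)) (by ring) _ _ hx).2
    rw [← hcob1] at h2
    rw [← hcoc2] at h3
    have h4 := h ⟨h3, h2⟩
    rw [hcob2] at h4
    exact (sp_ker' X m (m + e) (-(e : ℤ)) (by ring) _ _ hx).2 h4

theorem powerSurj_iff (m e : ℕ) : PowerSurj X m e ↔ NSurj X.diff X.tot e ((m : ℤ) - n) := by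
  have hcob1 : Bd X.diff X.tot e ((m : ℤ) - n) = X.coboundaries e (m - e) := bd_tot_deg X m e
  have hcoc1 : Zc X.diff X.tot e ((m : ℤ) - n) = X.cocycles e (m - e) := zc_tot_deg X m e
  have hcoc2 : Zc X.diff X.tot (-(e : ℤ)) ((m : ℤ) - n) = X.cocycles (-(e : ℤ)) (m + e) := by
    rw [zc_tot_deg, sub_neg_eq_add]
  constructor
  · intro h y hy
    rw [hcoc1] at hy
    obtain ⟨v, hv⟩ := sp_right' X m (m - e) e (by ring) y hy
    obtain ⟨u, hu, hvu⟩ := h v (sp_mem' X m (m - e) e (by ring) _ _ hv).1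
    obtain ⟨x, hx⟩ := X.sp_left m _ u hu
    have h1 := X.sp_cast (show (m : ℤ) + e - 2 * e = m - e by ring) (X.N_pow_sp hx e le_rfl)
    have h2 : (v - (X.N m ^ e) u, y - x) ∈ X.sp m (m - e) := Submodule.sub_mem _ hv h1
    have h3 := (sp_ker' X m (m - e) e (by ring) _ _ h2).1 hvu
    have h4 := (sp_mem' X m (m + e) (-(e : ℤ)) (by ring) _ _ hx).2
    rw [← hcoc2] at h4
    rw [← hcob1] at h3
    exact Submodule.mem_sup.2 ⟨x, h4, y - x, h3, by abel⟩
  · intro h v hv
    obtain ⟨y, hy⟩ := X.sp_left m _ v hv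
    have h1 := (sp_mem' X m (m - e) e (by ring) _ _ hy).2
    rw [← hcoc1] at h1
    obtain ⟨x, hx, b, hb, hxb⟩ := Submodule.mem_sup.1 (h h1)
    rw [hcoc2] at hx
    obtain ⟨u, hu⟩ := sp_right' X m (m + e) (-(e : ℤ)) (by ring) x hx
    refine ⟨u, (sp_mem' X m (m + e) (-(e : ℤ)) (by ring) _ _ hu).1, ?_⟩
    have h2 := X.sp_cast (show (m : ℤ) + e - 2 * e = m - e by ring) (X.N_pow_sp hu e le_rfl)
    have h3 : (v - (X.N m ^ e) u, b) ∈ X.sp m (m - e) := by
      have h4 := Submodule.sub_mem _ hy h2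
      have h5 : b = y - x := by rw [← hxb]; abel
      rw [h5]
      exact h4
    rw [hcob1] at hb
    exact (sp_ker' X m (m - e) e (by ring) _ _ h3).2 hb

/-- The dimension of a graded piece is the dimension of the `E_2` term. -/
lemma grDim_eq (m : ℕ) (i w : ℤ) (h : w = m - i) :
    (grDim X m w : ℤ) = hh X.diff X.tot i ((m : ℤ) - n) := by
  have h1 := dim_step X m w
  have := W_finite X m w
  have h2 := Submodule.finrank_mono (X.W_mono m (show w - 1 ≤ w by omega))
  unfold grDim hh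
  rw [zc_tot_deg, bd_tot_deg, Nat.cast_sub h2, h1, h]
  rw [show (m : ℤ) - (m - i) = i by ring]

/-- Duality: Kato's conjecture for `H^m` is equivalent to the one for `H^(2 n - m)`. -/
theorem kato_dual {m m' : ℕ} (h : m + m' = 2 * n) (hm : KatoFor X m) : KatoFor X m' := by
  intro e he
  obtain ⟨h1, h2⟩ := hm e he
  rw [powerInj_iff] at h1
  rw [powerSurj_iff] at h2
  have e1 : (m : ℤ) - n = -((m' : ℤ) - n) := by omega
  rw [e1] at h1 h2
  refine ⟨(powerInj_iff X m' e).2 ?_, (powerSurj_iff X m' e).2 ?_⟩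
  · exact pre_nInj_of_nSurj X.lefDual (preComplex X.toSpecialFibre)
      (preComplex X.toSpecialFibre) _ _ h2
  · exact pre_nSurj_of_nInj X.lefDual (preComplex X.toSpecialFibre)
      (preComplex X.toSpecialFibre) _ (by exact_mod_cast he) _ h1

end

section

variable {X : SemistableModel.{u, v} Ω Γ n q} (A : DivisorClasses X.toSpecialFibre)
include A

/-- The extreme weights in the degrees `m ≤ n`. -/
theorem top_low (m : ℕ) (hm : 1 ≤ m) : PowerInj X m m ∧ PowerSurj X m m :=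
  ⟨(powerInj_iff X m m).2 (inj_zero A m (by exact_mod_cast hm)),
    (powerSurj_iff X m m).2 (surj_zero A m (by exact_mod_cast hm))⟩

/-- The extreme weights in the degrees `m ≥ n`. -/
theorem top_high (m e : ℕ) (he : 1 ≤ e) (h : m + e = 2 * n) : PowerInj X m e ∧ PowerSurj X m e := by
  have e1 : (m : ℤ) - n = n - e := by omega
  rw [powerInj_iff, powerSurj_iff, e1]
  exact ⟨inj_zero' A e (by exact_mod_cast he), surj_zero' A e (by exact_mod_cast he)⟩

theorem second_low (e : ℕ) (he : 1 ≤ e) : PowerInj X (e + 1) e := by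
  rw [powerInj_iff]
  have := inj_one A e (by exact_mod_cast he)
  rwa [show (((e + 1 : ℕ) : ℤ)) - n = (e : ℤ) + 1 - n by push_cast; ring]

theorem second_high (m e : ℕ) (he : 1 ≤ e) (h : m + e + 1 = 2 * n) : PowerSurj X m e := by
  rw [powerSurj_iff]
  have := surj_one' A e (by exact_mod_cast he)
  rwa [show (m : ℤ) - n = (n : ℤ) - 1 - e by omega]

/-- The two extreme weights in the middle degree. -/
theorem second_middle (e : ℕ) (he : 1 ≤ e) (h : e + 1 = n) :
    PowerInj X n e ∧ PowerSurj X n e := by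
  subst h
  exact ⟨second_low A e he, second_high A (e + 1) e he (by ring)⟩

omit A in
lemma power_trivial (X : SemistableModel.{u, v} Ω Γ n q) (m e : ℕ) (he : 1 ≤ e)
    (h : m < e ∨ 2 * n < m + e) : PowerInj X m e ∧ PowerSurj X m e := by
  rw [powerInj_iff, powerSurj_iff]
  have he' : (1 : ℤ) ≤ e := by exact_mod_cast he
  rcases h with h | h
  · exact ⟨nInj_of_neg _ _ _ he' (by omega), nSurj_of_neg _ _ _ he' (by omega)⟩
  · exact ⟨nInj_of_neg' _ _ _ he' (by omega), nSurj_of_neg' _ _ _ he' (by omega)⟩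

/-- `H^0` and `H^1`. -/
theorem kato_le_one (m : ℕ) (hm : m ≤ 1) : KatoFor X m := by
  intro e he
  rcases lt_or_ge m e with h | h
  · exact power_trivial X m e he (Or.inl h)
  · obtain rfl : m = e := by omega
    exact top_low A m he

/-- `H^2`. -/
theorem kato_two_iff : KatoFor X 2 ↔ grDim X 2 1 ≤ grDim X 2 3 := by
  have e1 : (grDim X 2 1 : ℤ) = hh X.diff X.tot 1 (((2 : ℕ) : ℤ) - n) :=
    grDim_eq X 2 1 1 (by norm_num)
  have e3 : (grDim X 2 3 : ℤ) = hh X.diff X.tot (-1) (((2 : ℕ) : ℤ) - n) :=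
    grDim_eq X 2 (-1) 3 (by norm_num)
  constructor
  · intro h
    obtain ⟨h1, h2⟩ := h 1 le_rfl
    rw [powerInj_iff] at h1
    rw [powerSurj_iff] at h2
    have := (preComplex X.toSpecialFibre).hh_eq_of_good _ (by norm_num) _ h1 h2
    rw [Nat.cast_one, ← e1, ← e3] at this
    omega
  · intro h e he
    rcases lt_or_ge 2 e with h2 | h2
    · exact power_trivial X 2 e he (Or.inl h2)
    rcases Nat.lt_or_ge 1 e with h3 | h3
    · obtain rfl : e = 2 := by omega
      exact top_low A 2 he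
    obtain rfl : e = 1 := by omega
    have h4 := second_low A 1 le_rfl
    refine ⟨h4, ?_⟩
    rw [powerInj_iff] at h4
    rw [powerSurj_iff]
    apply (preComplex X.toSpecialFibre).nSurj_of_hh _ (by norm_num) _ h4
    show hh X.diff X.tot ((1 : ℕ) : ℤ) (((2 : ℕ) : ℤ) - n) ≤
      hh X.diff X.tot (-((1 : ℕ) : ℤ)) (((2 : ℕ) : ℤ) - n)
    rw [Nat.cast_one, ← e1, ← e3]
    exact_mod_cast h

/-- `H^2`, from a part of the log hard Lefschetz theorem. -/
theorem kato_two_of_lefschetz (hn : 2 ≤ n) (hL : LefschetzOnGrOne X) : KatoFor X 2 := by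
  rw [kato_two_iff A]
  have e1 : (grDim X 2 1 : ℤ) = hh X.diff X.tot 1 (((2 : ℕ) : ℤ) - n) :=
    grDim_eq X 2 1 1 (by norm_num)
  have e3 : (grDim X 2 3 : ℤ) = hh X.diff X.tot (-1) (((2 : ℕ) : ℤ) - n) :=
    grDim_eq X 2 (-1) 3 (by norm_num)
  have hP := preComplex X.toSpecialFibre
  have e4 := pre_hh_dual X.lefDual hP hP (-1) (((2 : ℕ) : ℤ) - n)
  rw [neg_neg] at e4
  have hz1 : Zc X.diff X.tot 1 (((2 : ℕ) : ℤ) - n) = X.cocycles 1 1 := by
    rw [zc_tot_deg]; norm_num
  have hb1 : Bd X.diff X.tot 1 (((2 : ℕ) : ℤ) - n) = X.coboundaries 1 1 := by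
    rw [bd_tot_deg]; norm_num
  have hb2 : Bd X.diff X.tot 1 (-(((2 : ℕ) : ℤ) - n)) = X.coboundaries 1 (2 * (n : ℤ) - 3) := by
    rw [X.bd_eq]
    congr 1
    push_cast
    ring
  have hexp : -(((2 : ℕ) : ℤ) - n) = (((2 : ℕ) : ℤ) - n) + 2 * ((n - 2 : ℕ) : ℤ) := by
    push_cast [Nat.cast_sub hn]
    ring
  -- the map `L ^ (n - 2)` on cohomology is injective
  have key : hh X.diff X.tot 1 (((2 : ℕ) : ℤ) - n) ≤ hh X.diff X.tot 1 (-(((2 : ℕ) : ℤ) - n)) := by
    set j : ℤ := (((2 : ℕ) : ℤ) - n) with hj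
    set B' := Bd X.diff X.tot 1 (-j) with hB'
    set Z' := Zc X.diff X.tot 1 (-j) with hZ'
    have h1 := finrank_map_add_ker (B'.mkQ ∘ₗ (X.lefC ^ (n - 2))) (Zc X.diff X.tot 1 j)
    have h2 : Zc X.diff X.tot 1 j ⊓ LinearMap.ker (B'.mkQ ∘ₗ (X.lefC ^ (n - 2))) =
        Bd X.diff X.tot 1 j := by
      apply le_antisymm
      · rintro x ⟨hx1, hx2⟩
        rw [SetLike.mem_coe, LinearMap.mem_ker, LinearMap.comp_apply, Submodule.mkQ_apply,
          Submodule.Quotient.mk_eq_zero] at hx2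
        rw [hb1]
        apply hL x
        · rw [← hz1]; exact hx1
        · rw [← hb2]; exact hx2
      · intro x hx
        refine ⟨hP.bd_le _ _ hx, ?_⟩
        rw [SetLike.mem_coe, LinearMap.mem_ker, LinearMap.comp_apply, Submodule.mkQ_apply,
          Submodule.Quotient.mk_eq_zero, hB', hexp]
        exact hP.Lpow_bd (n - 2) hx
    have h3 := finrank_map_add_ker B'.mkQ Z'
    have h4 : Z' ⊓ LinearMap.ker B'.mkQ = B' := by
      rw [Submodule.ker_mkQ]
      exact inf_eq_right.2 (hP.bd_le _ _)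
    have h5 : (Zc X.diff X.tot 1 j).map (B'.mkQ ∘ₗ (X.lefC ^ (n - 2))) ≤ Z'.map B'.mkQ := by
      rintro _ ⟨x, hx, rfl⟩
      refine ⟨(X.lefC ^ (n - 2)) x, ?_, rfl⟩
      rw [hZ', hexp]
      exact hP.Lpow_zc (n - 2) hx
    have h6 := Submodule.finrank_mono h5
    rw [h2] at h1
    rw [h4] at h3
    have h7 : hh X.diff X.tot 1 j = finrank Ω (Zc X.diff X.tot 1 j) -
      finrank Ω (Bd X.diff X.tot 1 j) := rfl
    have h8 : hh X.diff X.tot 1 (-j) = finrank Ω Z' - finrank Ω B' := rfl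
    omega
  have : (grDim X 2 1 : ℤ) ≤ grDim X 2 3 := by
    rw [e1, e3, e4]
    exact key
  exact_mod_cast this

end

section ker

variable (X : SemistableModel.{u, v} Ω Γ n q)

lemma W_step (m : ℕ) (w : ℤ) (h : ∀ x ∈ X.E₁ ((m : ℤ) - w) w, x = 0) :
    X.W m w ≤ X.W m (w - 1) := by
  intro v hv
  obtain ⟨x, hx⟩ := X.sp_left m w v hv
  refine (X.sp_ker m w v x hx).2 ?_
  rw [h x (X.sp_mem m w v x hx).2.1]
  exact Submodule.zero_mem _

lemma E_zero_low (m : ℕ) {w : ℤ} (hw : w < 0) : ∀ x ∈ X.E₁ ((m : ℤ) - w) w, x = 0 := by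
  intro x hx
  funext a
  by_cases hc : InColumn ((m : ℤ) - w) a
  · have h1 := hc.1
    rw [abs_of_nonneg (by omega)] at h1
    have h3 := (hx a).1
    rw [X.gr_eq_bot a _ (Or.inl (by omega)), Submodule.mem_bot] at h3
    exact h3
  · exact (hx a).2 hc

lemma E_zero_high (m : ℕ) {w : ℤ} (hw : 2 * (m : ℤ) < w) :
    ∀ x ∈ X.E₁ ((m : ℤ) - w) w, x = 0 := by
  intro x hx
  funext a
  by_cases hc : InColumn ((m : ℤ) - w) a
  · have h1 := hc.1
    rw [abs_of_nonpos (by omega)] at h1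
    have h3 := (hx a).1
    rw [X.gr_eq_bot a _ (Or.inl (by omega)), Submodule.mem_bot] at h3
    exact h3
  · exact (hx a).2 hc

/-- The weights of `H^m` are nonnegative. -/
lemma W_eq_bot (m : ℕ) {w : ℤ} (hw : w < 0) : X.W m w = ⊥ := by
  obtain ⟨b, hb⟩ := X.W_bot m
  have key : ∀ k : ℕ, X.W m w ≤ X.W m (w - k) := by
    intro k
    induction k with
    | zero => simp
    | succ k ih =>
      refine ih.trans ?_
      have := W_step X m (w - k) (E_zero_low X m (by omega))
      rwa [show w - (k : ℤ) - 1 = w - ((k + 1 : ℕ) : ℤ) by push_cast; ring] at this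
  rw [eq_bot_iff, ← hb]
  refine (key (w - b).toNat).trans (X.W_mono m ?_)
  have := Int.self_le_toNat (w - b)
  omega

/-- The weights of `H^m` are at most `2 m`. -/
lemma W_eq_top (m : ℕ) {w : ℤ} (hw : 2 * (m : ℤ) ≤ w) : X.W m w = ⊤ := by
  obtain ⟨t, ht⟩ := X.W_top m
  have key : ∀ k : ℕ, X.W m (w + k) ≤ X.W m w := by
    intro k
    induction k with
    | zero => simp
    | succ k ih =>
      refine le_trans ?_ ih
      have := W_step X m (w + ((k + 1 : ℕ) : ℤ)) (E_zero_high X m (by push_cast; omega))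
      rwa [show w + ((k + 1 : ℕ) : ℤ) - 1 = w + k by push_cast; ring] at this
  rw [eq_top_iff, ← ht]
  refine (X.W_mono m ?_).trans (key (t - w).toNat)
  have := Int.self_le_toNat (t - w)
  omega

end ker

/-- The kernel and the image of `N ^ m` on `H^m`. -/
theorem ker_range {X : SemistableModel.{u, v} Ω Γ n q} (A : DivisorClasses X.toSpecialFibre)
    (m : ℕ) (hm : 1 ≤ m) : LinearMap.ker (X.N m ^ m) = X.W m (2 * m - 1) ∧
      LinearMap.range (X.N m ^ m) = X.W m 0 := by
  obtain ⟨h1, h2⟩ := top_low A m hm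
  have htop : X.W m ((m : ℤ) + m) = ⊤ := W_eq_top X m (by omega)
  have hbot : X.W m ((m : ℤ) - m - 1) = ⊥ := W_eq_bot X m (by omega)
  have hmap : ∀ v : X.V m, (X.N m ^ m) v ∈ X.W m 0 := by
    intro v
    obtain ⟨x, hx⟩ := X.sp_left m ((m : ℤ) + m) v (by rw [htop]; trivial)
    have h3 := X.N_pow_sp hx m le_rfl
    have h4 := (X.sp_mem m _ _ _ h3).1
    rwa [show (m : ℤ) + m - 2 * m = 0 by ring] at h4
  constructor
  · apply le_antisymm
    · intro v hv
      have h3 := h1 v (by rw [htop]; trivial) (by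
        rw [LinearMap.mem_ker] at hv
        rw [hv]
        exact Submodule.zero_mem _)
      rwa [show (m : ℤ) + m - 1 = 2 * m - 1 by ring] at h3
    · intro v hv
      rw [LinearMap.mem_ker]
      -- `N` lowers the weight by two
      have key : ∀ (k : ℕ) (w : ℤ) (v : X.V m), v ∈ X.W m w → (X.N m ^ k) v ∈ X.W m (w - 2 * k) := by
        intro k
        induction k with
        | zero => intro w v hv; simpa using hv
        | succ k ih =>
          intro w v hv
          rw [pow_succ, Module.End.mul_apply]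
          obtain ⟨x, hx⟩ := X.sp_left m w v hv
          have h3 := (X.sp_mem m _ _ _ (X.sp_N m w v x hx)).1
          have h4 := ih (w - 2) _ h3
          rwa [show w - 2 - 2 * (k : ℤ) = w - 2 * ((k + 1 : ℕ) : ℤ) by push_cast; ring] at h4
      have h3 := key m _ v hv
      rw [W_eq_bot X m (by omega)] at h3
      exact h3
  · apply le_antisymm
    · rintro _ ⟨v, rfl⟩
      exact hmap v
    · intro v hv
      obtain ⟨u, -, hu⟩ := h2 v (by rwa [sub_self])
      rw [hbot, Submodule.mem_bot, sub_eq_zero] at hu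
      exact ⟨u, hu.symm⟩

/-- Relative dimension three. -/
theorem kato_three_iff {X : SemistableModel.{u, v} Ω Γ 3 q} (A : DivisorClasses X.toSpecialFibre) :
    (∀ m, KatoFor X m) ↔ grDim X 2 1 ≤ grDim X 2 3 ∧ PowerInj X 3 1 := by
  constructor
  · intro h
    exact ⟨(kato_two_iff A).1 (h 2), (h 3 1 le_rfl).1⟩
  · rintro ⟨h1, h2⟩
    have h3 : KatoFor X 3 := by
      intro e he
      rcases lt_or_ge 3 e with h | h
      · exact power_trivial X 3 e he (Or.inl h)
      interval_cases e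
      · refine ⟨h2, ?_⟩
        rw [powerInj_iff] at h2
        rw [powerSurj_iff]
        have h4 : NInj X.diff X.tot 1 0 := by simpa using h2
        have h5 := pre_good_middle X.lefDual (preComplex X.toSpecialFibre)
          (preComplex X.toSpecialFibre) 1 le_rfl h4
        simpa using h5
      · exact second_middle A 2 (by norm_num) rfl
      · exact top_low A 3 (by norm_num)
    intro m
    rcases lt_or_ge m 2 with h | h
    · exact kato_le_one A m (by omega)
    rcases lt_or_ge 6 m with h6 | h6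
    · intro e he
      exact power_trivial X m e he (Or.inr (by omega))
    interval_cases m
    · exact (kato_two_iff A).2 h1
    · exact h3
    · exact kato_dual X (m := 2) (by norm_num) ((kato_two_iff A).2 h1)
    · exact kato_dual X (m := 1) (by norm_num) (kato_le_one A 1 (by norm_num))
    · exact kato_dual X (m := 0) (by norm_num) (kato_le_one A 0 (by norm_num))

end Pool.Agent.X302.MW
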