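import Pool.Agent.Y143.Pure

/-!
# Weil numbers of weight two all of whose slopes are at least one
-/

namespace Pool.Agent.X302.MW

open Polynomial Pool.Agent.Y143

/-- Kronecker's theorem. -/
lemma root_of_unity {Ω : Type*} [Field Ω] [CharZero Ω] {β : Ω} (hint : IsIntegral ℤ β)
    (hn : ∀ z : ℂ, aeval z (minpoly ℚ β) = 0 → ‖z‖ = 1) : ∃ k : ℕ, 0 < k ∧ β ^ k = 1 := by
  have hQ : IsIntegral ℚ β := hint.tower_top
  let K := IntermediateField.adjoin ℚ ({β} : Set Ω)
  have hfin : FiniteDimensional ℚ K := IntermediateField.adjoin.finiteDimensional hQ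
  have : NumberField K := { to_charZero := inferInstance, to_finiteDimensional := hfin }
  let x : K := IntermediateField.AdjoinSimple.gen ℚ β
  have hx : (x : Ω) = β := IntermediateField.AdjoinSimple.coe_gen ℚ β
  have hxi : IsIntegral ℤ x := by
    have h1 : IsIntegral ℤ ((algebraMap K Ω) x) := by
      show IsIntegral ℤ (x : Ω)
      rw [hx]
      exact hint
    exact (isIntegral_algebraMap_iff (algebraMap K Ω).injective).1 h1
  have hmin : minpoly ℚ x = minpoly ℚ β := by
    rw [← hx]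
    exact (minpoly.algebraMap_eq (algebraMap K Ω).injective x).symm
  have hnorm : ∀ φ : K →+* ℂ, ‖φ x‖ = 1 := by
    intro φ
    apply hn
    rw [← hmin]
    let φ' : K →ₐ[ℚ] ℂ := φ.toRatAlgHom
    have h2 : φ x = φ' x := rfl
    rw [h2, aeval_algHom_apply, minpoly.aeval, map_zero]
  obtain ⟨k, hk, hk'⟩ := NumberField.Embeddings.pow_eq_one_of_norm_eq_one K ℂ hxi hnorm
  refine ⟨k, hk, ?_⟩
  rw [← hx]
  exact_mod_cast congrArg (algebraMap K Ω) hk'

lemma rat_mem_int {F : Type*} [Field F] [CharZero F] {q : ℕ} (hq : IsPrimePow q)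
    (R : ValuationSubring F) (hR : ((q : F))⁻¹ ∉ R) {c : ℚ} (hc : (c : F) ∈ R) {N : ℕ}
    (hN : ∃ m : ℤ, (q : ℚ) ^ N * c = m) : ∃ m : ℤ, c = m := by
  obtain ⟨p, k, hp, hk, rfl⟩ := (isPrimePow_nat_iff q).1 hq
  have hpF : ((p : F))⁻¹ ∉ R := by
    intro h
    apply hR
    push_cast
    rw [← inv_pow]
    exact pow_mem h k
  by_contra hcon
  -- the prime divides the denominator
  have hden : c.den ≠ 1 := by
    intro h
    apply hcon
    refine ⟨c.num, ?_⟩
    conv_lhs => rw [← Rat.num_div_den c, h]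
    simp
  obtain ⟨m, hm⟩ := hN
  have h1 : (c.den : ℤ) ∣ ((p ^ k) ^ N : ℕ) := by
    have h2 : (((p ^ k) ^ N : ℕ) : ℤ) * c.num = m * c.den := by
      have h3 : (((p ^ k : ℕ) : ℚ)) ^ N * (c.num / c.den) = m := by
        rw [Rat.num_div_den]
        exact hm
      have h4 : (c.den : ℚ) ≠ 0 := by exact_mod_cast c.den_ne_zero
      have h5 : (((p ^ k) ^ N : ℕ) : ℚ) * c.num = m * c.den := by
        rw [← h3]
        push_cast
        field_simp
      exact_mod_cast h5
    have h6 : (c.den : ℤ) ∣ (((p ^ k) ^ N : ℕ) : ℤ) * c.num := ⟨m, by rw [h2, mul_comm]⟩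
    exact (Int.isCoprime_iff_gcd_eq_one.2 (by
      rw [Int.gcd_comm]
      exact_mod_cast c.reduced)).dvd_of_dvd_mul_right h6
  have h2 : c.den ∣ (p ^ k) ^ N := by exact_mod_cast h1
  rw [← pow_mul] at h2
  obtain ⟨j, hj, hj'⟩ := (Nat.dvd_prime_pow hp).1 h2
  have hj0 : j ≠ 0 := by
    rintro rfl
    exact hden (by rw [hj', pow_zero])
  have hpd : p ∣ c.den := by
    rw [hj']
    exact dvd_pow_self p hj0
  obtain ⟨e, he⟩ := hpd
  have hcop : IsCoprime c.num (p : ℤ) := by
    have h3 : IsCoprime c.num (c.den : ℤ) := by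
      rw [Int.isCoprime_iff_gcd_eq_one]
      exact_mod_cast c.reduced
    rw [he] at h3
    push_cast at h3
    exact h3.of_mul_right_left
  obtain ⟨u, w, huw⟩ := hcop
  apply hpF
  have hpF0 : (p : F) ≠ 0 := by exact_mod_cast hp.ne_zero
  have he0 : (e : F) ≠ 0 := by
    have : e ≠ 0 := by
      rintro rfl
      exact c.den_ne_zero (by rw [he, mul_zero])
    exact_mod_cast this
  have h4 : ((c : ℚ) : F) = (c.num : F) / ((p : F) * e) := by
    conv_lhs => rw [← Rat.num_div_den c]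
    rw [he]
    push_cast
    rfl
  have h5 : ((p : F))⁻¹ = (u : F) * ((e : F) * (c : F)) + (w : F) := by
    rw [h4]
    have h6 : (u : F) * c.num + w * p = 1 := by exact_mod_cast congrArg (fun x : ℤ => (x : F)) huw
    field_simp
    linear_combination -h6
  rw [h5]
  have hZ : ∀ t : ℤ, (t : F) ∈ R := fun t => intCast_mem R t
  have hNat : ∀ t : ℕ, (t : F) ∈ R := fun t => natCast_mem R t
  exact add_mem (mul_mem (hZ u) (mul_mem (hNat e) hc)) (hZ w)

/-- If all the conjugates of `α / q` in a `p`-adic field are integral, then `α / q` is integral. -/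
lemma integral_of_val {Ω Ω' : Type*} [Field Ω] [CharZero Ω] [Field Ω'] [CharZero Ω']
    [IsAlgClosed Ω'] {q : ℕ} (hq : IsPrimePow q) (R : ValuationSubring Ω')
    (hR : ((q : Ω'))⁻¹ ∉ R) {α : Ω} (hα : IsIntegral ℤ α)
    (h : ∀ α' : Ω', aeval α' (minpoly ℚ α) = 0 → α' / q ∈ R) : IsIntegral ℤ (α / q) := by
  have hq0 : q ≠ 0 := hq.ne_zero
  have hqQ : (q : ℚ) ≠ 0 := by exact_mod_cast hq0
  have hqΩ : (q : Ω) ≠ 0 := by exact_mod_cast hq0
  have hqΩ' : (q : Ω') ≠ 0 := by exact_mod_cast hq0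
  set P := minpoly ℚ α with hP
  have hPm : P.Monic := minpoly.monic hα.tower_top
  have hPZ : ∀ i, ∃ m : ℤ, P.coeff i = m := by
    intro i
    have h1 : P = (minpoly ℤ α).map (algebraMap ℤ ℚ) := minpoly.isIntegrallyClosed_eq_field_fractions' ℚ hα
    rw [h1, coeff_map]
    exact ⟨_, rfl⟩
  set Q := P.scaleRoots ((q : ℚ)⁻¹) with hQ
  have hQm : Q.Monic := monic_scaleRoots_iff _ |>.2 hPm
  have hQα : aeval (α / q) Q = 0 := by
    have h1 : aeval α P = 0 := minpoly.aeval ℚ α
    have h2 := scaleRoots_aeval_eq_zero (r := (q : ℚ)⁻¹) h1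
    rw [hQ]
    convert h2 using 2
    rw [map_inv₀, map_natCast, div_eq_inv_mul]
  -- the coefficients are in the valuation ring
  have hcoefR : ∀ i, ((Q.coeff i : ℚ) : Ω') ∈ R := by
    have hlift : Q.map (algebraMap ℚ Ω') ∈ Polynomial.lifts R.subtype := by
      have hsplit := IsAlgClosed.splits (Q.map (algebraMap ℚ Ω'))
      have hprod : Q.map (algebraMap ℚ Ω') =
          ((Q.map (algebraMap ℚ Ω')).roots.map (fun a => X - C a)).prod := by
        have := hsplit.eq_prod_roots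
        rwa [(hQm.map (algebraMap ℚ Ω')).leadingCoeff, C_1, one_mul] at this
      rw [hprod]
      apply Subsemiring.multiset_prod_mem
      intro f hf
      obtain ⟨r, hr, rfl⟩ := Multiset.mem_map.1 hf
      have hr' : r ∈ R := by
        have h1 := (mem_roots'.1 hr).2
        rw [IsRoot.def, eval_map_algebraMap] at h1
        -- `r = (q r) / q`
        have h2 : aeval ((q : Ω') * r) P = 0 := by
          have h3 := scaleRoots_aeval_eq_zero (r := (q : ℚ)) h1
          have h4 : Q.scaleRoots (q : ℚ) = P := by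
            rw [hQ, ← scaleRoots_mul, inv_mul_cancel₀ hqQ, scaleRoots_one]
          rw [h4, map_natCast] at h3
          exact h3
        have h5 := h _ h2
        rwa [mul_div_cancel_left₀ _ hqΩ'] at h5
      rw [Polynomial.mem_lifts]
      exact ⟨X - C ⟨r, hr'⟩, by simp⟩
    intro i
    rw [Polynomial.lifts_iff_coeff_lifts] at hlift
    obtain ⟨⟨y, hy⟩, hyi⟩ := hlift i
    rw [coeff_map] at hyi
    have : ((Q.coeff i : ℚ) : Ω') = y := hyi.symm
    rw [this]
    exact hy
  -- the coefficients are integers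
  have hcoefZ : ∀ i, ∃ m : ℤ, Q.coeff i = m := by
    intro i
    apply rat_mem_int hq R hR (hcoefR i) (N := P.natDegree - i)
    obtain ⟨m, hm⟩ := hPZ i
    refine ⟨m, ?_⟩
    rw [hQ, coeff_scaleRoots, hm, inv_pow]
    field_simp
  have hliftZ : Q ∈ Polynomial.lifts (algebraMap ℤ ℚ) := by
    rw [Polynomial.lifts_iff_coeff_lifts]
    intro i
    obtain ⟨m, hm⟩ := hcoefZ i
    exact ⟨m, by rw [hm]; rfl⟩
  obtain ⟨S, hS, -, hSm⟩ := Polynomial.lifts_and_natDegree_eq_and_monic hliftZ hQm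
  refine ⟨S, hSm, ?_⟩
  have h7 : aeval (α / q) S = 0 := by
    rw [← hQα, ← hS, aeval_map_algebraMap]
  exact h7

/-- A Weil number of weight two all of whose slopes are at least one is a Tate number. -/
lemma tate_of_val {Ω Ω' : Type*} [Field Ω] [CharZero Ω] [Field Ω'] [CharZero Ω']
    [IsAlgClosed Ω'] {q : ℕ} (hq : IsPrimePow q) (R : ValuationSubring Ω')
    (hR : ((q : Ω'))⁻¹ ∉ R) {α : Ω} (hα : IsIntegral ℤ α) (hw : IsWeilNumber q 2 α)
    (h : ∀ α' : Ω', aeval α' (minpoly ℚ α) = 0 → α' / q ∈ R) : IsTateNumber q α := by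
  have hq0 : q ≠ 0 := hq.ne_zero
  have hqΩ : (q : Ω) ≠ 0 := by exact_mod_cast hq0
  have hint := integral_of_val hq R hR hα h
  have hw0 : IsWeilNumber q 0 (α / q) := by
    have := hw.twist hq0 (-1)
    rwa [show (2 : ℤ) + 2 * (-1) = 0 by norm_num, zpow_neg_one, ← div_eq_inv_mul] at this
  obtain ⟨k, hk, hk'⟩ := root_of_unity hint (fun z hz => by
    have := hw0.2 z hz
    rwa [Int.cast_zero, zero_div, Real.rpow_zero] at this)
  refine ⟨k, hk, ?_⟩
  rw [div_pow, div_eq_one_iff_eq (pow_ne_zero _ hqΩ)] at hk'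
  exact hk'

end Pool.Agent.X302.MW
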