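import Pool.Agent.X302.MW.Three

/-!
# The `p`-adic theory: slopes different from one
-/

namespace Pool.Agent.X302.MW

universe u v

open Module Pool.Agent.Y143

variable {Ω : Type u} [Field Ω] [CharZero Ω] {Γ : Type} {n q : ℕ}

/-- If the character `χ` occurs, its value at the inverse of the Frobenius is the inverse of its
value at the Frobenius. -/
lemma inv_of_occurs (X : SpecialFibre.{u, v} Ω Γ n q) (r : ℤ) {χ : Γ → Ω} {x : X.C}
    (hx : x ∈ Wt (X.actC r) χ) (hx0 : x ≠ 0) : χ (X.tr X.frob) * χ X.frob = 1 := by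
  have hcomm := X.actC_comm r
  unfold Wt at hx
  rw [Submodule.mem_iInf] at hx
  have h1 := hx X.frob
  have h2 := hx (X.tr X.frob)
  obtain ⟨y, hy, hy0, h⟩ := exists_eigen_mod (X.actC r X.frob) (χ X.frob)
    (Z := Module.End.maxGenEigenspace (X.actC r (X.tr X.frob)) (χ (X.tr X.frob))) (B := ⊥)
    (fun z hz => Module.End.mapsTo_maxGenEigenspace_of_comm
      (hcomm (X.tr X.frob) X.frob) (χ (X.tr X.frob)) hz) h2 (by simpa using hx0) h1
  have hyF : X.actC r X.frob y = χ X.frob • y := by simpa [sub_eq_zero] using h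
  have hy0' : y ≠ 0 := by simpa using hy0
  have hinv : X.actC r (X.tr X.frob) (X.actC r X.frob y) = y := by
    funext a
    rw [X.actC_apply, X.actC_apply, map_smul, X.frob_inv, smul_smul, ← Units.val_mul, X.cyc_tr,
      inv_zpow, inv_mul_cancel, Units.val_one, one_smul]
  rw [hyF, map_smul] at hinv
  have hα : χ X.frob ≠ 0 := by
    intro h0
    rw [h0, zero_smul] at hinv
    exact hy0' hinv.symm
  have hyF' : X.actC r (X.tr X.frob) y = (χ X.frob)⁻¹ • y := by
    rw [eq_inv_smul_iff₀ hα]
    exact hinv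
  obtain ⟨k, hk⟩ := Module.End.mem_maxGenEigenspace _ _ _ |>.1 hy
  have h3 : ∀ k : ℕ, ((X.actC r (X.tr X.frob) - χ (X.tr X.frob) • (1 : Module.End Ω X.C)) ^ k) y =
      ((χ X.frob)⁻¹ - χ (X.tr X.frob)) ^ k • y := by
    intro k
    induction k with
    | zero => simp
    | succ k ih =>
      rw [pow_succ', Module.End.mul_apply, ih, map_smul, pow_succ', mul_smul]
      have h4 : (X.actC r (X.tr X.frob) - χ (X.tr X.frob) • (1 : Module.End Ω X.C)) y =
          ((χ X.frob)⁻¹ - χ (X.tr X.frob)) • y := by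
        show X.actC r (X.tr X.frob) y - χ (X.tr X.frob) • y = _
        rw [hyF', sub_smul]
      rw [h4, smul_comm]
  rw [h3] at hk
  have h5 := (smul_eq_zero.1 hk).resolve_right hy0'
  have h6 : (χ X.frob)⁻¹ - χ (X.tr X.frob) = 0 := by
    by_contra hne
    exact pow_ne_zero k hne h5
  rw [sub_eq_zero] at h6
  rw [← h6, inv_mul_cancel₀ hα]

section

variable [IsAlgClosed Ω] (X : Degeneration.{u, v} Ω Γ n q)

omit [IsAlgClosed Ω] [CharZero Ω] in
lemma not_tate_of_not_mem (hq : (q : Ω) ≠ 0) (R : ValuationSubring Ω) {α : Ω}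
    (hα : α / q ∉ R) : ¬ IsTateNumber q α := by
  rintro ⟨k, hk, h⟩
  apply hα
  have h1 : (α / q) ^ k = 1 := by
    rw [div_pow, h, div_self (pow_ne_zero _ hq)]
  apply mem_of_int
  exact IsIntegral.of_pow hk (by rw [h1]; exact isIntegral_one)

/-- mw purity of a threefold with all slopes of `H^3` at least one, if the characters of slope one
are controlled. -/
theorem mw_slopes (hn : n = 3) (hI : HasIntegralFrobenius X.toSpecialFibre)
    (A : DivisorClasses X.toSpecialFibre) (R : ValuationSubring Ω)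
    (h3 : ∀ α, IsEigenvalueOn X.toSemistableModel 3 α → α / q ∈ R)
    (hS : ∀ χ : Γ → Ω, χ X.frob / q ∈ R → q / χ X.frob ∈ R → ControlledAt A 0 2 χ) (k : ℕ) :
    IsMWPure q k (X.actV k X.frob) (X.N k) := by
  have hq : (q : Ω) ≠ 0 := Nat.cast_ne_zero.2 X.q_ne
  have hcov : ∀ χ : Γ → Ω, χ X.frob / q ∉ R → X.primPart 1 2 χ ≤ X.coboundaries 1 2 := by
    intro χ hχ
    exact covered X hn hI (not_tate_of_not_mem hq R hχ)
      (fun z hz => res_surj X.toSemistableModel hn hI R h3 hχ hz)
  apply mw X A k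
  intro a w χ h1 h2 h4
  obtain rfl : w = 2 := by omega
  obtain rfl : a = 0 := by omega
  by_cases hα : χ X.frob / q ∈ R
  · by_cases hα' : (q : Ω) / χ X.frob ∈ R
    · exact hS χ hα hα'
    · by_cases hocc : X.primPart 1 2 χ = ⊥
      · left
        right
        left
        have : X.primPart 1 2 χ ≤ X.coboundaries 1 2 := by rw [hocc]; exact bot_le
        simpa using this
      · obtain ⟨x, hx, hx0⟩ := Submodule.exists_mem_ne_zero_of_ne_bot hocc
        have h5 := inv_of_occurs X.toSpecialFibre 1 hx.2 hx0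
        right
        left
        have h6 : dualAt X.toSpecialFibre 2 χ X.frob / q = q / χ X.frob := by
          have h7 : χ X.frob ≠ 0 := right_ne_zero_of_mul_eq_one h5
          have h8 : χ (X.tr X.frob) = (χ X.frob)⁻¹ := eq_inv_of_mul_eq_one_left h5
          show (X.cyc X.frob : Ω) ^ (2 : ℤ) * χ (X.tr X.frob) / q = q / χ X.frob
          rw [X.cyc_frob, h8, zpow_ofNat]
          field_simp
        have := hcov (dualAt X.toSpecialFibre 2 χ) (by rw [h6]; exact hα')
        show X.primPart _ _ _ ≤ _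
        simpa using this
  · left
    right
    left
    have := hcov χ hα
    simpa using this

end

end Pool.Agent.X302.MW
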