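import Pool.Agent.X302.MW.Indep
import Pool.Agent.X302.MW.Log

/-!
# Rigid-analytic threefolds
-/

namespace Pool.Agent.X302.MW

universe u v

open Module Submodule Pool.Agent.Y143

variable {Ω : Type u} [Field Ω] [CharZero Ω] {Γ : Type} {n q : ℕ}

/-- Bijectivity of the powers of `N` on the graded pieces of the weight filtration gives mw purity. -/
theorem pure_of_kato (X : SemistableModel.{u, v} Ω Γ n q) (k : ℕ) (h : KatoFor X k) :
    IsMWPure q k (X.actV k X.frob) (X.N k) :=
  X.isMWPure_of k (fun a ha => (powerInj_iff X k a).1 (h a ha).1)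
    (fun a ha => (powerSurj_iff X k a).1 (h a ha).2)

section special

variable [IsAlgClosed Ω] (X : SpecialFibre.{u, v} Ω Γ n q)

/-- If the restriction is surjective on the part of eigenvalue `α`, the primitive part is covered. -/
lemma covered' (hI : HasIntegralFrobenius X) {χ : Γ → Ω}
    (hα : ¬ IsTateNumber q (χ X.frob))
    (hs : ∀ z ∈ frobPart X 1 2 (χ X.frob),
      ∃ y ∈ frobPart X 0 2 (χ X.frob), X.res 0 y = z) :
    X.primPart 1 2 χ ≤ X.coboundaries 1 2 := by
  classical
  rintro x ⟨⟨hxE, -⟩, hxW⟩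
  have hxg : x ∈ Module.End.maxGenEigenspace (X.actC ((1 : ℕ) : ℤ) X.frob) (χ X.frob) := by
    have h1 : x ∈ Wt (X.actC 1) χ := hxW
    unfold Wt at h1
    rw [Submodule.mem_iInf] at h1
    exact h1 X.frob
  obtain ⟨h1, h2⟩ := col_single X hI hα 1 le_rfl hxE hxg
  obtain ⟨y, hy, hyz⟩ := hs (x 1) h1
  refine ⟨Pi.single 0 y, ?_, ?_⟩
  · rw [show (1 : ℤ) - 1 = 0 by norm_num]
    apply X.single_mem ⟨by simp, ⟨0, by simp⟩⟩
    simpa using hy.1
  · have h3 := diff_single X 0 y
    rw [h2, ← hyz]
    exact h3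

/-- The condition on the characters, from the surjectivity of the restriction on the non-Tate part
and the Tate conjecture for divisors on the components. -/
lemma injectiveAt (hI : HasIntegralFrobenius X) (A : DivisorClasses X) (hT : A.TateConj 0)
    (hs : ∀ α : Ω, ¬ IsTateNumber q α → ∀ z ∈ frobPart X 1 2 α,
      ∃ y ∈ frobPart X 0 2 α, X.res 0 y = z) (χ : Γ → Ω) : InjectiveAt A χ := by
  have hq : (q : Ω) ≠ 0 := Nat.cast_ne_zero.2 X.q_ne
  by_cases hα : IsTateNumber q (χ X.frob)
  · right
    right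
    right
    intro x hx hxW
    apply hT _ hα x hx
    unfold Wt at hxW
    rw [Submodule.mem_iInf] at hxW
    exact hxW X.frob
  · by_cases hocc : X.primPart 1 2 χ = ⊥
    · right
      left
      rw [hocc]
      exact disjoint_bot_left
    · left
      obtain ⟨x, hx, hx0⟩ := Submodule.exists_mem_ne_zero_of_ne_bot hocc
      have h5 := inv_of_occurs X 1 hx.2 hx0
      have h7 : χ X.frob ≠ 0 := right_ne_zero_of_mul_eq_one h5
      have h8 : χ (X.tr X.frob) = (χ X.frob)⁻¹ := eq_inv_of_mul_eq_one_left h5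
      have h6 : dualAt X 2 χ X.frob = (q : Ω) ^ 2 / χ X.frob := by
        show (X.cyc X.frob : Ω) ^ (2 : ℤ) * χ (X.tr X.frob) = _
        rw [X.cyc_frob, h8, zpow_ofNat, div_eq_mul_inv]
      have h9 : ¬ IsTateNumber q (dualAt X 2 χ X.frob) := by
        rw [h6]
        rintro ⟨k, hk, h⟩
        apply hα
        refine ⟨k, hk, ?_⟩
        rw [div_pow, div_eq_iff (pow_ne_zero _ h7)] at h
        have h10 : (q : Ω) ^ k ≠ 0 := pow_ne_zero _ hq
        apply mul_left_cancel₀ h10
        rw [← h, ← pow_mul, ← pow_add]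
        congr 1
        omega
      exact covered' X hI h9 (hs _ h9)

end special

/-- The weight-monodromy statement for a rigid-analytic threefold. -/
theorem rigid_three [IsAlgClosed Ω] (X : SemistableModel.{u, v} Ω Γ 3 q)
    (A : DivisorClasses X.toSpecialFibre) (hinj : NInj X.diff X.tot 1 0) :
    (∀ k : ℕ, k ≠ 2 → k ≠ 4 → KatoFor X k) ∧
      (grDim X 2 1 ≤ grDim X 2 3 → ∀ k : ℕ, KatoFor X k) := by
  have h2 : PowerInj X 3 1 := by
    rw [powerInj_iff]
    simpa using hinj
  have h3 : KatoFor X 3 := by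
    intro e he
    rcases lt_or_ge 3 e with h | h
    · exact power_trivial X 3 e he (Or.inl h)
    interval_cases e
    · refine ⟨h2, ?_⟩
      rw [powerSurj_iff]
      have h5 := pre_good_middle X.lefDual (preComplex X.toSpecialFibre)
        (preComplex X.toSpecialFibre) 1 le_rfl hinj
      simpa using h5
    · exact second_middle A 2 (by norm_num) rfl
    · exact top_low A 3 (by norm_num)
  refine ⟨fun k hk2 hk4 => ?_, fun h => ?_⟩
  · rcases lt_or_ge k 2 with h | h
    · exact kato_le_one A k (by omega)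
    rcases lt_or_ge 6 k with h6 | h6
    · intro e he
      exact power_trivial X k e he (Or.inr (by omega))
    interval_cases k
    · exact absurd rfl hk2
    · exact h3
    · exact absurd rfl hk4
    · exact kato_dual X (m := 1) (by norm_num) (kato_le_one A 1 (by norm_num))
    · exact kato_dual X (m := 0) (by norm_num) (kato_le_one A 0 (by norm_num))
  · exact (kato_three_iff A).2 ⟨h, h2⟩

section final

variable [IsAlgClosed Ω] {Ω' : Type u} [Field Ω'] [CharZero Ω'] [IsAlgClosed Ω'] {Γ' : Type}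

/-- Rigid-analytic threefolds whose forms of degree three degenerate completely. -/
theorem rigid_deg (hq : IsPrimePow q)
    (X : SemistableModel.{u, v} Ω Γ 3 q) (A : DivisorClasses X.toSpecialFibre)
    (X' : SemistableModel.{u, v} Ω' Γ' 3 q) (A' : DivisorClasses X'.toSpecialFibre)
    (hC : AreComparable X.toSpecialFibre X'.toSpecialFibre)
    (R : ValuationSubring Ω') (hR : ((q : Ω'))⁻¹ ∉ R)
    (hM : NotMore X X' 2)
    {h : ℕ} (hN : NewtonBound X' 3 h R)
    (hW : IsCompletelyDegenerate X' 3 h)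
    (hT : A.TateConj 0) : NInj X.diff X.tot 1 0 :=
  inj_three X.toSpecialFibre A (injectiveAt X.toSpecialFibre hC.1 A hT
    (fun α hα z hz => surj_of_compare4 X X' hq hC R hR hM
    (fun _ hα' _ hz' => res_surj2 X' hC.2.1 R
      (fun _ _ _ hv1 hvα => slope_two X' A' R hN hW hv1 hvα) hα' hz') α hα z hz))

/-- The same with the hard Lefschetz theorem. -/
theorem mw_indep (hq : IsPrimePow q)
    (X : Degeneration.{u, v} Ω Γ 3 q) (A : DivisorClasses X.toSpecialFibre)
    (X' : SemistableModel.{u, v} Ω' Γ' 3 q) (A' : DivisorClasses X'.toSpecialFibre)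
    (hC : AreComparable X.toSpecialFibre X'.toSpecialFibre)
    (R : ValuationSubring Ω') (hR : ((q : Ω'))⁻¹ ∉ R)
    (hM : NotMore X.toSemistableModel X' 2)
    {h : ℕ} (hN : NewtonBound X' 3 h R)
    (hW : IsCompletelyDegenerate X' 3 h)
    (hT : A.TateConj 0) (k : ℕ) :
    IsMWPure q k (X.actV k X.frob) (X.N k) :=
  mw_three X rfl hC.1 A hT (fun α hα z hz => surj_of_compare4 X.toSemistableModel X' hq hC R hR hM
    (fun _ hα' _ hz' => res_surj2 X' hC.2.1 R
      (fun _ _ _ hv1 hvα => slope_two X' A' R hN hW hv1 hvα) hα' hz') α hα z hz) k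

end final

end Pool.Agent.X302.MW
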