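import Pool.Agent.Y143.SimpleDefs

/-!
# Frobenius eigenvalues on the cohomology of the strata and of the generic fibre
-/

namespace Pool.Agent.X302.MW

universe u v

open Module Pool.Agent.Y143

section

variable {Ω : Type u} [Field Ω] [CharZero Ω] {Γ : Type} {n q : ℕ}

/-- The generalized eigenspace of the Frobenius in `H^m(Y^(a+1))` for the eigenvalue `α`. -/
def frobPart (X : SpecialFibre.{u, v} Ω Γ n q) (a : ℕ) (m : ℤ) (α : Ω) : Submodule Ω (X.H a) :=
  X.gr a m ⊓ (X.act a X.frob).maxGenEigenspace α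

/-- Deligne, Katz-Messing: the eigenvalues of the Frobenius on the cohomology of the strata are
algebraic integers. -/
def HasIntegralFrobenius (X : SpecialFibre.{u, v} Ω Γ n q) : Prop :=
  ∀ (a : ℕ) (m : ℤ) (α : Ω) (x : X.H a), x ∈ X.gr a m → x ≠ 0 → X.act a X.frob x = α • x →
    IsIntegral ℤ α

/-- `α` is an eigenvalue of the Frobenius on a graded piece of the weight filtration of `H^k` of
the geometric generic fibre. -/
def IsEigenvalueOn (X : SemistableModel.{u, v} Ω Γ n q) (k : ℕ) (α : Ω) : Prop :=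
  ∃ (w : ℤ) (v : X.V k), v ∈ X.W k w ∧ v ∉ X.W k (w - 1) ∧
    X.actV k X.frob v - α • v ∈ X.W k (w - 1)

end

/-- The elements `α` and `α'` of two fields are algebraic numbers with the same minimal polynomial
over `ℚ`. -/
def AreConjugate {Ω : Type*} [Field Ω] [CharZero Ω] {Ω' : Type*} [Field Ω'] [CharZero Ω'] (α : Ω)
    (α' : Ω') : Prop :=
  IsAlgebraic ℚ α ∧ IsAlgebraic ℚ α' ∧ minpoly ℚ α = minpoly ℚ α'

/-- Deligne, Katz-Messing: the characteristic polynomials of the Frobenius on `H^m(Y^(a+1))` in the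
two theories are equal and have rational coefficients; that is, conjugate numbers have the same
multiplicities. -/
def SameFrobenius {Ω : Type*} [Field Ω] [CharZero Ω] {Γ : Type} {Ω' : Type*} [Field Ω']
    [CharZero Ω'] {Γ' : Type} {n q : ℕ} (X : SpecialFibre Ω Γ n q) (X' : SpecialFibre Ω' Γ' n q)
    (a : ℕ) (m : ℤ) : Prop :=
  ∀ (α : Ω) (α' : Ω'), AreConjugate α α' →
    finrank Ω (frobPart X a m α) = finrank Ω' (frobPart X' a m α')

end Pool.Agent.X302.MW
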