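import Pool.Agent.X302.MW.Fin
import Pool.Agent.X302.MW.Num
import Pool.Agent.X302.MW.SDefs

/-!
# Threefolds without differential forms: the restriction on the non-Tate part of `H^2`
-/

namespace Pool.Agent.X302.MW

universe u v

open Module Pool.Agent.Y143

section gen

variable {Ω : Type*} [Field Ω] {C : Type*} [AddCommGroup C] [Module Ω C]

/-- From a generalized eigenvector outside `B` to an eigenvector modulo `B`. -/
lemma exists_eigen_mod (T : Module.End Ω C) (α : Ω) {Z B : Submodule Ω C}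
    (hZ : ∀ x ∈ Z, T x ∈ Z) {x : C} (hx : x ∈ Z) (hxB : x ∉ B)
    (hgen : x ∈ T.maxGenEigenspace α) : ∃ y ∈ Z, y ∉ B ∧ T y - α • y ∈ B := by
  classical
  obtain ⟨k, hk⟩ := Module.End.mem_maxGenEigenspace T α x |>.1 hgen
  have hex : ∃ k, ((T - α • (1 : Module.End Ω C)) ^ k) x ∈ B := ⟨k, by rw [hk]; exact B.zero_mem⟩
  have hmin := Nat.find_spec hex
  have hpos : Nat.find hex ≠ 0 := by
    intro h
    rw [h] at hmin
    exact hxB (by simpa using hmin)
  obtain ⟨j, hj⟩ := Nat.exists_eq_succ_of_ne_zero hpos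
  have hZT : ∀ k, ((T - α • (1 : Module.End Ω C)) ^ k) x ∈ Z := by
    intro k
    induction k with
    | zero => simpa using hx
    | succ k ih =>
      rw [pow_succ', Module.End.mul_apply]
      exact Z.sub_mem (hZ _ ih) (Z.smul_mem _ ih)
  refine ⟨((T - α • (1 : Module.End Ω C)) ^ j) x, hZT j, Nat.find_min hex (by omega), ?_⟩
  rw [hj, Nat.succ_eq_add_one, pow_succ', Module.End.mul_apply] at hmin
  exact hmin

end gen

variable {Ω : Type u} [Field Ω] [CharZero Ω] {Γ : Type} {n q : ℕ}

section basic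

variable (X : SpecialFibre.{u, v} Ω Γ n q)

lemma exists_eigen_gr (a : ℕ) (m : ℤ) {α : Ω} {x : X.H a} (hx : x ∈ frobPart X a m α)
    (hx0 : x ≠ 0) : ∃ y ∈ X.gr a m, y ≠ 0 ∧ X.act a X.frob y = α • y := by
  obtain ⟨y, hy, hy0, h⟩ := exists_eigen_mod (X.act a X.frob) α (Z := X.gr a m) (B := ⊥)
    (fun x hx => X.act_gr a m X.frob x hx) hx.1 (by simpa using hx0) hx.2
  refine ⟨y, hy, by simpa using hy0, ?_⟩
  simpa [sub_eq_zero] using h

/-- The components of a generalized eigenvector in a column. -/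
lemma comp_gen (r : ℤ) {α : Ω} {x : X.C}
    (hx : x ∈ Module.End.maxGenEigenspace (X.actC r X.frob) α) (a : ℕ) :
    x a ∈ (X.act a X.frob).maxGenEigenspace (((q : Ω) ^ (((a : ℤ) - r) / 2))⁻¹ * α) := by
  obtain ⟨k, hk⟩ := Module.End.mem_maxGenEigenspace _ _ _ |>.1 hx
  rw [Module.End.mem_maxGenEigenspace]
  refine ⟨k, ?_⟩
  set c : Ω := (q : Ω) ^ (((a : ℤ) - r) / 2) with hc
  have hq : (q : Ω) ≠ 0 := Nat.cast_ne_zero.2 X.q_ne
  have hc0 : c ≠ 0 := zpow_ne_zero _ hq
  have h1 : ∀ (k : ℕ) (x : X.C), (((X.actC r X.frob - α • (1 : Module.End Ω X.C)) ^ k) x) a =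
      c ^ k • ((X.act a X.frob - (c⁻¹ * α) • (1 : Module.End Ω (X.H a))) ^ k) (x a) := by
    intro k
    induction k with
    | zero => intro x; simp
    | succ k ih =>
      intro x
      have h3 : (((X.actC r X.frob - α • (1 : Module.End Ω X.C))) x) a =
          c • ((X.act a X.frob - (c⁻¹ * α) • (1 : Module.End Ω (X.H a)))) (x a) := by
        show X.actC r X.frob x a - α • x a =
          c • (X.act a X.frob (x a) - (c⁻¹ * α) • (x a))
        rw [X.actC_apply, Units.val_zpow_eq_zpow_val, X.cyc_frob, ← hc, smul_sub, smul_smul,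
          mul_inv_cancel_left₀ hc0]
      rw [pow_succ, Module.End.mul_apply, ih, h3, map_smul, smul_smul, pow_succ, pow_succ,
        Module.End.mul_apply]
  have h2 := h1 k x
  rw [hk, Pi.zero_apply] at h2
  exact (smul_eq_zero.1 h2.symm).resolve_left (pow_ne_zero _ hc0)

lemma single_gen (r : ℤ) {α : Ω} (a : ℕ) (ha : (a : ℤ) = r) {z : X.H a}
    (hz : z ∈ (X.act a X.frob).maxGenEigenspace α) :
    (Pi.single a z : X.C) ∈ Module.End.maxGenEigenspace (X.actC r X.frob) α := by
  classical
  obtain ⟨k, hk⟩ := Module.End.mem_maxGenEigenspace _ _ _ |>.1 hz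
  rw [Module.End.mem_maxGenEigenspace]
  refine ⟨k, ?_⟩
  have h1 : ∀ (k : ℕ) (z : X.H a),
      ((X.actC r X.frob - α • (1 : Module.End Ω X.C)) ^ k) (Pi.single a z : X.C) =
      Pi.single a (((X.act a X.frob - α • (1 : Module.End Ω (X.H a))) ^ k) z) := by
    intro k
    induction k with
    | zero => intro z; simp
    | succ k ih =>
      intro z
      have h3 : (X.actC r X.frob - α • (1 : Module.End Ω X.C)) (Pi.single a z : X.C) =
          Pi.single a ((X.act a X.frob - α • (1 : Module.End Ω (X.H a))) z) := by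
        funext b
        show X.actC r X.frob (Pi.single a z : X.C) b - α • (Pi.single a z : X.C) b = _
        rw [X.actC_apply]
        by_cases hb : b = a
        · subst hb
          rw [Pi.single_eq_same, Pi.single_eq_same, ha, sub_self, Int.zero_ediv, zpow_zero,
            Units.val_one, one_smul]
          rfl
        · rw [Pi.single_eq_of_ne hb, Pi.single_eq_of_ne hb, map_zero, smul_zero, smul_zero,
            sub_zero]
      rw [pow_succ, Module.End.mul_apply, h3, ih, pow_succ, Module.End.mul_apply]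
  rw [h1, hk, Pi.single_zero]

/-- The projection of a coboundary to a generalized eigenspace of the Frobenius. -/
lemma cob_gen [IsAlgClosed Ω] (r w : ℤ) {α : Ω} {x : X.C}
    (hx : x ∈ Module.End.maxGenEigenspace (X.actC r X.frob) α) (hb : x ∈ X.coboundaries r w) :
    ∃ y ∈ X.E₁ (r - 1) w, y ∈ Module.End.maxGenEigenspace (X.actC (r - 1) X.frob) α ∧
      X.diff (r - 1) y = x := by
  -- the family consisting of the Frobenius only
  have hS : Sym X.diff X.lefC X.tot (fun i (_ : Unit) => X.actC i X.frob)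
      (fun _ : Unit => X.cyc' X.frob) :=
    { comm := fun i _ _ => X.sym.comm i X.frob X.frob
      stab := fun i j _ x hx => X.sym.stab i j X.frob x hx
      shift := fun i k _ x => X.sym.shift i k X.frob x
      dT := fun i _ x => X.sym.dT i X.frob x
      LT := fun i _ x => X.sym.LT i X.frob x
      cne := fun _ => X.cyc'_ne X.frob }
  obtain ⟨y, hy, rfl⟩ := hb
  have hr : r - 1 + 1 = r := by ring
  refine ⟨prj _ (hS.comm (r - 1)) (fun _ => α) y, ?_, ?_, ?_⟩
  · exact prj_stable (hS.comm (r - 1)) (fun _ x hx => X.actC_mem X.frob hx) _ hy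
  · have := prj_mem (hS.comm (r - 1)) (fun _ => α) y
    unfold Wt at this
    rw [Submodule.mem_iInf] at this
    exact this ()
  · rw [← hS.prj_d (r - 1)]
    have key : ∀ s : ℤ, s = r → ∀ hk, prj (fun _ : Unit => X.actC s X.frob) hk (fun _ => α)
        (X.diff (r - 1) y) = X.diff (r - 1) y := by
      intro s hs hk
      subst hs
      apply prj_of_mem
      unfold Wt
      rw [Submodule.mem_iInf]
      intro _
      exact hx
    exact key _ hr _

end basic

section generic

variable (X : SemistableModel.{u, v} Ω Γ n q)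

/-- An eigenvalue on the `E_2` term is an eigenvalue on the cohomology of the generic fibre. -/
lemma eigen_generic (k : ℕ) (w : ℤ) {α : Ω} {x : X.C} (hx : x ∈ X.cocycles (k - w) w)
    (hxB : x ∉ X.coboundaries (k - w) w)
    (h : X.actC (k - w) X.frob x - α • x ∈ X.coboundaries (k - w) w) :
    IsEigenvalueOn X k α := by
  obtain ⟨v, hv⟩ := X.sp_right k w x hx
  refine ⟨w, v, (X.sp_mem k w v x hv).1, fun hc => hxB ((X.sp_ker k w v x hv).1 hc), ?_⟩
  have h1 : (X.actV k X.frob v - α • v, X.actC (k - w) X.frob x - α • x) ∈ X.sp k w :=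
    Submodule.sub_mem _ (X.sp_act k w v x X.frob hv) (Submodule.smul_mem _ α hv)
  exact (X.sp_ker k w _ _ h1).2 h

lemma zc_stable (r w : ℤ) {x : X.C} (hx : x ∈ X.cocycles r w) :
    X.actC r X.frob x ∈ X.cocycles r w := by
  refine ⟨X.actC_mem X.frob hx.1, ?_⟩
  rw [SetLike.mem_coe, LinearMap.mem_ker, ← X.diff_actC, show X.diff r x = 0 from hx.2, map_zero]

end generic

end Pool.Agent.X302.MW
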