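import Pool.Agent.X302.MW.Indep
import Pool.Agent.X302.MW.Log

/-!
# Degree three in all dimensions
-/

namespace Pool.Agent.X302.MW

universe u v

open Module Submodule Pool.Agent.Y143

variable {Ω : Type u} [Field Ω] [CharZero Ω] {Γ : Type} {n q : ℕ}

section deg

variable [IsAlgClosed Ω]

/-- Surjectivity on the total complex from surjectivity on the parts. -/
theorem nSurj_tot_of_cls (X : SpecialFibre.{u, v} Ω Γ n q) (i j : ℤ)
    (h : ∀ χ : Γ → Ω, NSurj X.diff (X.cls χ 0) i j) : NSurj X.diff X.tot i j := by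
  intro y hy
  apply mem_of_prj_mem (X.sym.comm i)
  intro μ
  obtain ⟨χ, hχ⟩ := exists_chr' X μ i j
  have h1 := X.sym.prj_zc χ n 0 hy
  rw [hχ] at h1
  obtain ⟨u, hu, v, hv, huv⟩ := Submodule.mem_sup.1 (h χ h1)
  exact Submodule.mem_sup.2 ⟨u, Sym.zc_cl_le χ n 0 _ _ hu, v, Sym.bd_cl_le χ n 0 _ _ hv, huv⟩

/-- mw purity of `H^k` from the condition `CritP` on the pairs of dual characters. -/
theorem mw_of_crit (X : Degeneration.{u, v} Ω Γ n q) (k : ℕ)
    (hP : ∀ (χ : Γ → Ω) (i : ℤ), 1 ≤ i → ∀ m : ℕ, ((k : ℤ) - n).natAbs ≤ m →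
      CritP X.diff X.lefC (X.cls χ 0) (X.cls (X.dualChar χ) (1 - 0)) i m) :
    IsMWPure q k (X.actV k X.frob) (X.N k) := by
  have hg : ∀ (χ : Γ → Ω) (i : ℤ), 1 ≤ i →
      Good2 X.diff (X.cls χ 0) (X.cls (X.dualChar χ) (1 - 0)) i ((k : ℤ) - n) := by
    intro χ i hi
    exact good (X.cls_dual 0 χ) (X.cls_lefComplex χ 0) (X.cls_lefComplex (X.dualChar χ) (1 - 0))
      ((k : ℤ) - n).natAbs (fun i hi m hm => hP χ i hi m hm) i _ hi (by rw [Int.abs_eq_natAbs])
  apply X.toSemistableModel.isMWPure_of k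
  · intro a ha
    exact nInj_tot_of_cls X.toSpecialFibre a _ (fun χ => (hg χ a (by exact_mod_cast ha)).inj)
  · intro a ha
    exact nSurj_tot_of_cls X.toSpecialFibre a _ (fun χ => (hg χ a (by exact_mod_cast ha)).surj)

/-- If neither complex has cohomology in bidegree `(i, -m)`, the critical condition holds. -/
lemma critP_of_vanish {C : Type*} [AddCommGroup C] [Module Ω C] [FiniteDimensional Ω C]
    {ψ : C →ₗ[Ω] C →ₗ[Ω] Ω} {d : ℤ → Module.End Ω C} {L : Module.End Ω C}
    {G G' : ℤ → ℤ → Submodule Ω C} (h : LefDual ψ d L G G') (hG : LefComplex d L G)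
    (hG' : LefComplex d L G') (i : ℤ) (m : ℕ) (h1 : Zc d G i (-m) ≤ Bd d G i (-m))
    (h2 : Zc d G' i (-m) ≤ Bd d G' i (-m)) : CritP d L G G' i m := by
  have key : ∀ {G G' : ℤ → ℤ → Submodule Ω C} {ψ : C →ₗ[Ω] C →ₗ[Ω] Ω}, LefDual ψ d L G G' →
      LefComplex d L G → LefComplex d L G' → Zc d G' i (-m) ≤ Bd d G' i (-m) →
      CritI d L G i m := by
    intro G G' ψ h hG hG' h2
    left
    have e1 := h.hh_neg hG hG' i (-m)
    have e2 : hh d G' i (-m) = 0 := by
      unfold hh
      rw [le_antisymm h2 (hG'.bd_le _ _)]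
      ring
    rw [e2] at e1
    have e3 : Zc d G (-i) (-m) = Bd d G (-i) (-m) := by
      symm
      apply Submodule.eq_of_le_of_finrank_le (hG.bd_le _ _)
      unfold hh at e1
      omega
    intro x hx
    rw [← e3]
    exact hx.1
  exact Or.inl ⟨key h hG hG' h2, key h.flip hG' hG h1⟩

/-- If `gr_2 H^3` has only Tate eigenvalues, the other characters do not occur in `E_2^(1, 2)`. -/
lemma vanish_one_two (X : Degeneration.{u, v} Ω Γ n q)
    (hG : GradedTate X.toSemistableModel 3 2) (χ : Γ → Ω) (p : ℤ) (m : ℕ)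
    (hm : (n : ℤ) - m - 1 = 2)
    (hα : ¬ IsTateNumber q (chr X.cyc' χ n p 1 (-m) X.frob)) :
    Zc X.diff (X.cls χ p) 1 (-m) ≤ Bd X.diff (X.cls χ p) 1 (-m) := by
  intro x hx
  apply bd_cls' X.toSpecialFibre hx.1
  rw [X.bd_eq, show (n : ℤ) + -m - 1 = 2 by omega]
  have hxc : x ∈ X.cocycles 1 2 := by
    have := Sym.zc_cl_le χ n p _ _ hx
    rw [X.zc_eq, show (n : ℤ) + -m - 1 = 2 by omega] at this
    exact this
  by_contra hb
  set α := chr X.cyc' χ n p 1 (-m) X.frob with hα'
  have hgen : x ∈ Module.End.maxGenEigenspace (X.actC 1 X.frob) α := by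
    have h1 := hx.1.2
    rw [SetLike.mem_coe] at h1
    unfold Wt at h1
    rw [Submodule.mem_iInf] at h1
    exact h1 X.frob
  obtain ⟨x', hx', hxB', hx''⟩ := exists_eigen_mod (X.actC 1 X.frob) α (Z := X.cocycles 1 2)
    (fun x hx => zc_stable X.toSemistableModel 1 2 hx) hxc hb hgen
  obtain ⟨v, hv⟩ := sp_right' X.toSemistableModel 3 2 1 (by norm_num) x' hx'
  apply hα
  refine hG α v (sp_mem' X.toSemistableModel 3 2 1 (by norm_num) v x' hv).1 (fun hc => hxB' ?_) ?_
  · exact (sp_ker' X.toSemistableModel 3 2 1 (by norm_num) v x' hv).1 hc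
  · have h1 : (X.actV 3 X.frob v - α • v, X.actC (((3 : ℕ) : ℤ) - 2) X.frob x' - α • x') ∈
        X.sp 3 2 :=
      Submodule.sub_mem _ (X.sp_act 3 2 v x' X.frob hv) (Submodule.smul_mem _ α hv)
    rw [show ((3 : ℕ) : ℤ) - 2 = 1 by norm_num] at h1
    exact (sp_ker' X.toSemistableModel 3 2 1 (by norm_num) _ _ h1).2 hx''

/-- **Degree three.** If `gr_2 H^3` has only Tate eigenvalues and the components satisfy the Tate
conjecture for divisors, then `H^k` is mw pure for `k ≤ 3` and `k ≥ 2 n - 3`. -/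
theorem mw_degree_three (X : Degeneration.{u, v} Ω Γ n q) (A : DivisorClasses X.toSpecialFibre)
    (hT : A.TateConj 0) (hG : GradedTate X.toSemistableModel 3 2) (k : ℕ)
    (hk : k ≤ 3 ∨ 2 * n ≤ k + 3) : IsMWPure q k (X.actV k X.frob) (X.N k) := by
  have hq : (q : Ω) ≠ 0 := Nat.cast_ne_zero.2 X.q_ne
  apply mw_of_crit X k
  intro χ i hi m hm
  obtain ⟨a, ha⟩ := Int.eq_ofNat_of_zero_le (show 0 ≤ i - 1 by omega)
  obtain rfl : i = (a : ℤ) + 1 := by omega
  rcases lt_or_ge ((n : ℤ) - m - ((a : ℤ) + 1)) 2 with hw | hw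
  · exact Or.inl ⟨critI_low X A χ 0 a m hw, critI_low X A _ _ a m hw⟩
  obtain rfl : a = 0 := by omega
  have hm3 : (n : ℤ) - m - 1 = 2 := by push_cast at hw; omega
  have hw2 : (n : ℤ) - m - (((0 : ℕ) : ℤ) + 1) = 2 := by push_cast; omega
  have e0 : ((0 : ℕ) : ℤ) + 1 = 1 := by norm_num
  rw [e0]
  have hdual := chr_dual' X.toSpecialFibre χ 0 1 m (w := 2) (by omega)
  -- the algebraic case
  have alg : ∀ (χ : Γ → Ω) (p : ℤ), IsTateNumber q (chr X.cyc' χ n p 1 (-m) X.frob) →
      CritI X.diff X.lefC (X.cls χ p) 1 m := by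
    intro χ p hα
    left
    have key := nInj_cls' X.toSpecialFibre (χ := χ) (p := p) 0 (w := 2) (j := -m)
      (by push_cast; omega) (by
      intro y hy hyW hG
      have hyA : y ∈ Submodule.span Ω (A.A1 0 : Set (X.H 0)) := by
        apply hT _ hα y hy
        unfold Wt at hyW
        rw [Submodule.mem_iInf] at hyW
        have := hyW X.frob
        rwa [e0] at this
      obtain ⟨v, hv, hR, hz⟩ := crit2 A 0 (by omega) hyA hG
      rw [hz]
      exact single_mem_cobound' X.toSpecialFibre 0 hv hR)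
    rwa [e0] at key
  by_cases hα : IsTateNumber q (chr X.cyc' χ n 0 1 (-m) X.frob)
  · by_cases hα' : IsTateNumber q (chr X.cyc' (X.dualChar χ) n (1 - 0) 1 (-m) X.frob)
    · exact Or.inl ⟨alg _ _ hα, alg _ _ hα'⟩
    · -- the dual character does not occur
      left
      refine ⟨alg _ _ hα, ?_⟩
      left
      -- the complex for the dual character has no elements in bidegree `(1, -m)`
      have hbot : X.cls (X.dualChar χ) (1 - 0) 1 (-m) = ⊥ := by
        rw [eq_bot_iff]
        intro x hx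
        rw [Submodule.mem_bot]
        by_contra hx0
        have hxW : x ∈ Wt (X.actC 1) (chr X.cyc' (X.dualChar χ) n (1 - 0) 1 (-m)) := hx.2
        have h5 := inv_of_occurs X.toSpecialFibre 1 hxW hx0
        apply hα'
        -- `χ(frob)` and the dual value multiply to `q ^ 2`
        have h6 : chr X.cyc' (X.dualChar χ) n (1 - 0) 1 (-m) X.frob =
            (q : Ω) ^ (2 : ℤ) * chr X.cyc' χ n 0 1 (-m) (X.tr X.frob) := by
          rw [hdual]
          show (X.cyc X.frob : Ω) ^ (2 : ℤ) * _ = _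
          rw [X.cyc_frob]
        have h7 : chr X.cyc' (X.dualChar χ) n (1 - 0) 1 (-m) (X.tr X.frob) =
            (q : Ω) ^ (-2 : ℤ) * chr X.cyc' χ n 0 1 (-m) X.frob := by
          rw [hdual]
          show (X.cyc' (X.tr X.frob)) ^ (2 : ℤ) * _ = _
          rw [X.cyc'_tr, X.tr_tr]
          unfold SpecialFibre.cyc'
          rw [X.cyc_frob, inv_zpow', ]
        obtain ⟨k, hk, hk'⟩ := hα
        have h8 : chr X.cyc' (X.dualChar χ) n (1 - 0) 1 (-m) X.frob *
            chr X.cyc' χ n 0 1 (-m) X.frob = (q : Ω) ^ 2 := by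
          rw [h7] at h5
          have h9 : (q : Ω) ^ (-2 : ℤ) = ((q : Ω) ^ 2)⁻¹ := by
            rw [zpow_neg]; norm_cast
          rw [h9] at h5
          have h10 : (q : Ω) ^ 2 ≠ 0 := pow_ne_zero _ hq
          field_simp at h5
          rw [mul_comm]
          exact h5
        refine ⟨k, hk, ?_⟩
        have h11 := congrArg (fun t => t ^ k) h8
        simp only [mul_pow] at h11
        rw [hk', ← pow_mul, mul_comm 2 k, pow_mul, sq] at h11
        exact mul_right_cancel₀ (pow_ne_zero k hq) h11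
      have hneg : X.cls (X.dualChar χ) (1 - 0) (-1) (-m) = ⊥ := by
        rw [(X.cls_lefComplex (X.dualChar χ) (1 - 0)).neg, hbot]
      intro x hx
      have h1 : x ∈ X.cls (X.dualChar χ) (1 - 0) (-1) (-m) := hx.1.1
      rw [hneg, Submodule.mem_bot] at h1
      rw [h1]
      exact Submodule.zero_mem _
  · by_cases hα' : IsTateNumber q (chr X.cyc' (X.dualChar χ) n (1 - 0) 1 (-m) X.frob)
    · left
      refine ⟨?_, alg _ _ hα'⟩
      left
      have hbot : X.cls χ 0 1 (-m) = ⊥ := by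
        rw [eq_bot_iff]
        intro x hx
        rw [Submodule.mem_bot]
        by_contra hx0
        have hxW : x ∈ Wt (X.actC 1) (chr X.cyc' χ n 0 1 (-m)) := hx.2
        have h5 := inv_of_occurs X.toSpecialFibre 1 hxW hx0
        apply hα
        have h6 : chr X.cyc' (X.dualChar χ) n (1 - 0) 1 (-m) X.frob =
            (q : Ω) ^ 2 * chr X.cyc' χ n 0 1 (-m) (X.tr X.frob) := by
          rw [hdual]
          show (X.cyc X.frob : Ω) ^ (2 : ℤ) * _ = _
          rw [X.cyc_frob, zpow_ofNat]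
        obtain ⟨k, hk, hk'⟩ := hα'
        have h8 : chr X.cyc' (X.dualChar χ) n (1 - 0) 1 (-m) X.frob *
            chr X.cyc' χ n 0 1 (-m) X.frob = (q : Ω) ^ 2 := by
          rw [h6, mul_assoc, h5, mul_one]
        refine ⟨k, hk, ?_⟩
        have h11 := congrArg (fun t => t ^ k) h8
        simp only [mul_pow] at h11
        rw [hk', ← pow_mul, mul_comm 2 k, pow_mul, sq] at h11
        exact mul_left_cancel₀ (pow_ne_zero k hq) h11
      have hneg : X.cls χ 0 (-1) (-m) = ⊥ := by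
        rw [(X.cls_lefComplex χ 0).neg, hbot]
      intro x hx
      have h1 : x ∈ X.cls χ 0 (-1) (-m) := hx.1.1
      rw [hneg, Submodule.mem_bot] at h1
      rw [h1]
      exact Submodule.zero_mem _
    · exact critP_of_vanish (X.cls_dual 0 χ) (X.cls_lefComplex χ 0)
        (X.cls_lefComplex (X.dualChar χ) (1 - 0)) 1 m
        (vanish_one_two X hG χ 0 m hm3 hα)
        (vanish_one_two X hG (X.dualChar χ) (1 - 0) m hm3 hα')

end deg

end Pool.Agent.X302.MW
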