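import Pool.Agent.X302.MW.Det2
import Pool.Agent.X302.MW.Van

/-!
# Slopes of weight two from the Newton polygon, in all degrees and dimensions
-/

namespace Pool.Agent.X302.MW

universe u v

open Module Submodule Pool.Agent.Y143

section la

variable {Ω : Type*} [Field Ω] {V : Type*} [AddCommGroup V] [Module Ω V]

/-- The slope of an eigenvalue modulo a subspace, from the Newton polygon. -/
lemma slope_of_bound (F : Module.End Ω V) {q : ℕ} (hq : (q : Ω) ≠ 0) (W1 : Submodule Ω V)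
    [FiniteDimensional Ω W1] (hW1 : ∀ x ∈ W1, F x ∈ W1) {h w0 : ℕ} (R : ValuationSubring Ω)
    (hN : SlopeBound F q h R) (hle : w0 ≤ finrank Ω W1) (hW : 2 * h ≤ w0 + finrank Ω W1)
    (hd1 : LinearMap.det (F.restrict hW1) ^ 2 = (q : Ω) ^ (finrank Ω W1 - w0))
    {α : Ω} {v : V} (hv1 : v ∉ W1) (hα : F v - α • v ∈ W1) : α / q ∈ R := by
  classical
  let U : Submodule Ω V := W1 ⊔ Submodule.span Ω {v}
  have hvU : v ∈ U := Submodule.mem_sup_right (Submodule.mem_span_singleton_self v)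
  have hWU : W1 ≤ U := le_sup_left
  have hmem : ∀ x, x ∈ U ↔ ∃ c : Ω, x - c • v ∈ W1 := by
    intro x
    constructor
    · intro hx
      obtain ⟨y, hy, z, hz, rfl⟩ := Submodule.mem_sup.1 hx
      obtain ⟨c, rfl⟩ := Submodule.mem_span_singleton.1 hz
      exact ⟨c, by rwa [add_sub_cancel_right]⟩
    · rintro ⟨c, hc⟩
      have : x = (x - c • v) + c • v := by abel
      rw [this]
      exact U.add_mem (hWU hc) (U.smul_mem c hvU)
  have hFv : F v ∈ U := (hmem _).2 ⟨α, hα⟩
  have hU : ∀ x ∈ U, F x ∈ U := by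
    intro x hx
    obtain ⟨c, hc⟩ := (hmem x).1 hx
    have : F x = F (x - c • v) + c • F v := by
      rw [map_sub, map_smul]
      abel
    rw [this]
    exact U.add_mem (hWU (hW1 _ hc)) (U.smul_mem c hFv)
  let G : Submodule Ω (U × Ω) :=
    { carrier := {p | (p.1 : V) - p.2 • v ∈ W1}
      add_mem' := by
        rintro p p' h h'
        have := (W1).add_mem h h'
        show ((p.1 : V) + (p'.1 : V)) - (p.2 + p'.2) • v ∈ W1
        convert this using 1
        rw [add_smul]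
        abel
      zero_mem' := by
        show (0 : V) - (0 : Ω) • v ∈ W1
        simp
      smul_mem' := by
        rintro c p h
        have := (W1).smul_mem c h
        show c • (p.1 : V) - (c • p.2) • v ∈ W1
        rwa [smul_assoc, ← smul_sub] }
  obtain ⟨φ, hφ⟩ := exists_map G (fun x => by
      obtain ⟨c, hc⟩ := (hmem x).1 x.2
      exact ⟨c, hc⟩) (fun c hc => by
      by_contra hne
      have h1 : (0 : V) - c • v ∈ W1 := hc
      rw [zero_sub, Submodule.neg_mem_iff] at h1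
      have h2 := (W1).smul_mem c⁻¹ h1
      rw [smul_smul, inv_mul_cancel₀ hne, one_smul] at h2
      exact hv1 h2)
  have hφ0 : ∀ (x : U) (c : Ω), (x : V) - c • v ∈ W1 → φ x = c := by
    intro x c hc
    have h1 := (W1).sub_mem hc (show (x : V) - φ x • v ∈ W1 from hφ x)
    have h2 : (x : V) - c • v - ((x : V) - φ x • v) = (φ x - c) • v := by
      rw [sub_smul]; abel
    rw [h2] at h1
    by_contra hne
    have h3 := (W1).smul_mem (φ x - c)⁻¹ h1
    rw [smul_smul, inv_mul_cancel₀ (sub_ne_zero.2 hne), one_smul] at h3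
    exact hv1 h3
  have hk : ∀ x : U, φ x = 0 ↔ (x : V) ∈ W1 := by
    intro x
    constructor
    · intro h0
      have h1 : (x : V) - φ x • v ∈ W1 := hφ x
      rwa [h0, zero_smul, sub_zero] at h1
    · intro h0
      exact hφ0 x 0 (by rwa [zero_smul, sub_zero])
  have hs : Function.Surjective φ := by
    intro c
    refine ⟨⟨c • v, U.smul_mem c hvU⟩, hφ0 _ _ ?_⟩
    rw [sub_self]
    exact Submodule.zero_mem _
  have hT : ∀ x : U, φ ⟨F x, hU x x.2⟩ = (α • (1 : Module.End Ω Ω)) (φ x) := by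
    intro x
    apply hφ0
    show F (x : V) - (α * φ x) • v ∈ W1
    have h1 : (x : V) - φ x • v ∈ W1 := hφ x
    have h2 := (W1).add_mem (hW1 _ h1) ((W1).smul_mem (φ x) hα)
    convert h2 using 1
    rw [map_sub, map_smul, smul_sub, smul_smul, mul_comm α]
    abel
  have hfU : FiniteDimensional Ω U := finite_split hWU φ hk
  have hdU := det_split F hWU hU hW1 φ hk hs (α • (1 : Module.End Ω Ω)) hT
  have hrU := finrank_split hWU φ hk hs
  rw [Module.finrank_self] at hrU
  rw [LinearMap.det_smul, Module.finrank_self, pow_one, map_one, mul_one] at hdU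
  have key : LinearMap.det (F.restrict hU) * (q : Ω) ^ h / (q : Ω) ^ finrank Ω U ∈ R := hN U hU
  rw [hdU, hrU] at key
  -- square
  have key2 := R.mul_mem _ _ key key
  set w1 := finrank Ω W1
  set D := LinearMap.det (F.restrict hW1) with hD
  have hd1' : D ^ 2 = (q : Ω) ^ (w1 - w0) := hd1
  have hmul : D * α * (q : Ω) ^ h / (q : Ω) ^ (w1 + 1) *
      (D * α * (q : Ω) ^ h / (q : Ω) ^ (w1 + 1)) * (q : Ω) ^ (w0 + w1 - 2 * h) =
        (α / q) ^ 2 := by
    have e1 : D * α * (q : Ω) ^ h / (q : Ω) ^ (w1 + 1) *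
      (D * α * (q : Ω) ^ h / (q : Ω) ^ (w1 + 1)) * (q : Ω) ^ (w0 + w1 - 2 * h) =
        D ^ 2 * α ^ 2 * ((q : Ω) ^ h * (q : Ω) ^ h * (q : Ω) ^ (w0 + w1 - 2 * h)) /
          ((q : Ω) ^ (w1 + 1) * (q : Ω) ^ (w1 + 1)) := by
      field_simp
    rw [e1, hd1', ← pow_add, ← pow_add, ← pow_add,
      show h + h + (w0 + w1 - 2 * h) = w0 + w1 by omega,
      show w1 + 1 + (w1 + 1) = (w1 - w0) + (w0 + w1) + 2 by omega, pow_add, pow_add]
    field_simp
    ring
  have hqR : (q : Ω) ^ (w0 + w1 - 2 * h) ∈ R := pow_mem (natCast_mem R q) _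
  have h3 := R.mul_mem _ _ key2 hqR
  rw [hmul] at h3
  have h4 : IsIntegral R (α / q) := by
    refine IsIntegral.of_pow (n := 2) (by norm_num) ?_
    exact isIntegral_algebraMap (R := R) (x := ⟨_, h3⟩)
  obtain ⟨y, hy⟩ := (IsIntegrallyClosed.isIntegral_iff (R := R) (K := Ω)).1 h4
  rw [← hy]
  exact y.2

end la

variable {Ω : Type u} [Field Ω] [CharZero Ω] {Γ : Type} {n q : ℕ}

section one

variable (X : SemistableModel.{u, v} Ω Γ n q)

/-- The slopes of the graded piece of weight two of `H^m`. -/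
theorem slope_weight_two (A : DivisorClasses X.toSpecialFibre) (m : ℕ) (hm : 2 ≤ m) {h : ℕ}
    (R : ValuationSubring Ω) (hN : NewtonBound X m h R) (hW : IsCompletelyDegenerate X m h) {α : Ω}
    {v : X.V m} (hv1 : v ∉ X.W m 1) (hα : X.actV m X.frob v - α • v ∈ X.W m 1) : α / q ∈ R := by
  have hf1 := W_finite X m 1
  obtain ⟨hle, hd⟩ := det_weight_one A m hm
  exact slope_of_bound (X.actV m X.frob) (Nat.cast_ne_zero.2 X.q_ne) (X.W m 1)
    (fun x hx => W_stable' m 1 hx) R hN hle hW hd hv1 hα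

/-- From an element of `E_2` to an eigenvalue on the graded piece. -/
lemma exists_eigen_graded (m : ℕ) (w r : ℤ) (hr : (m : ℤ) - w = r) {α : Ω} {x : X.C}
    (hx : x ∈ X.cocycles r w) (hxB : x ∉ X.coboundaries r w)
    (hg : x ∈ Module.End.maxGenEigenspace (X.actC r X.frob) α) :
    ∃ v ∈ X.W m w, v ∉ X.W m (w - 1) ∧ X.actV m X.frob v - α • v ∈ X.W m (w - 1) := by
  obtain ⟨x', hx', hxB', hx''⟩ := exists_eigen_mod (X.actC r X.frob) α (Z := X.cocycles r w)
    (fun x hx => zc_stable X r w hx) hx hxB hg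
  obtain ⟨v, hv⟩ := sp_right' X m w r hr x' hx'
  refine ⟨v, (sp_mem' X m w r hr v x' hv).1, fun hc => hxB' ?_, ?_⟩
  · exact (sp_ker' X m w r hr v x' hv).1 hc
  · have h1 : (X.actV m X.frob v - α • v, X.actC ((m : ℤ) - w) X.frob x' - α • x') ∈
        X.sp m w :=
      Submodule.sub_mem _ (X.sp_act m w v x' X.frob hv) (Submodule.smul_mem _ α hv)
    rw [hr] at h1
    exact (sp_ker' X m w r hr _ _ h1).2 hx''

/-- From an eigenvalue on the graded piece to an eigenvector in `E_1`. -/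
lemma exists_eigen_E (m : ℕ) (w r : ℤ) (hr : (m : ℤ) - w = r) {α : Ω} {v : X.V m}
    (hv : v ∈ X.W m w) (hv1 : v ∉ X.W m (w - 1))
    (hα : X.actV m X.frob v - α • v ∈ X.W m (w - 1)) :
    ∃ y ∈ X.E₁ r w, y ≠ 0 ∧ X.actC r X.frob y = α • y := by
  obtain ⟨x, hx⟩ := X.sp_left m w v hv
  have h1 := (sp_mem' X m w r hr v x hx).2
  have h2 : x ∉ X.coboundaries r w := fun hc => hv1 ((sp_ker' X m w r hr v x hx).2 hc)
  have h3 : (X.actV m X.frob v - α • v, X.actC ((m : ℤ) - w) X.frob x - α • x) ∈ X.sp m w :=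
    Submodule.sub_mem _ (X.sp_act m w v x X.frob hx) (Submodule.smul_mem _ α hx)
  rw [hr] at h3
  have h5 := (sp_ker' X m w r hr _ _ h3).1 hα
  obtain ⟨y, hy, hy0, hyα⟩ := exists_eigen (S := X.actC r X.frob)
    (X.bd_le_zc _ _) (fun x hx => X.actC_bd _ _ _ hx) h1 h2 h5
  exact ⟨y, hy.1, hy0, hyα⟩

/-- The eigenvalues of the Frobenius in the columns `r ≥ 0` are algebraic integers. -/
lemma integral_E (hI : HasIntegralFrobenius X.toSpecialFibre) {r w : ℤ} (hr : 0 ≤ r) {α : Ω}
    {y : X.C} (hy : y ∈ X.E₁ r w) (hy0 : y ≠ 0) (hα : X.actC r X.frob y = α • y) :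
    IsIntegral ℤ α := by
  obtain ⟨b, hb⟩ : ∃ b, y b ≠ 0 := by
    by_contra hcon
    push Not at hcon
    exact hy0 (funext hcon)
  have hc : InColumn r b := by
    by_contra hc
    exact hb ((hy b).2 hc)
  have hq : (q : Ω) ≠ 0 := Nat.cast_ne_zero.2 X.q_ne
  have h1 := congrFun hα b
  rw [X.actC_apply, Pi.smul_apply, Units.val_zpow_eq_zpow_val, X.cyc_frob] at h1
  obtain ⟨k, hk⟩ := Int.eq_ofNat_of_zero_le (show 0 ≤ ((b : ℤ) - r) / 2 by
    have := hc.1
    rw [abs_of_nonneg hr] at this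
    omega)
  rw [hk, zpow_natCast] at h1
  have h2 : X.act b X.frob (y b) = (((q : Ω) ^ k)⁻¹ * α) • y b := by
    rw [mul_smul, ← h1, smul_smul, inv_mul_cancel₀ (pow_ne_zero _ hq), one_smul]
  have h3 := hI b _ _ _ (hy b).1 hb h2
  have h4 : α = (q : Ω) ^ k * (((q : Ω) ^ k)⁻¹ * α) := by
    rw [mul_inv_cancel_left₀ (pow_ne_zero _ hq)]
  rw [h4]
  exact IsIntegral.mul ((isIntegral_algebraMap (R := ℤ) (x := (q : ℤ))).pow k |> fun h => by
    simpa using h) h3

/-- An eigenvalue of weight two of slope less than one does not occur in `H^m` if the slopes of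
`gr_2 H^m` are at least one. -/
lemma frobMult_eq_zero (hq : 1 < q) (m : ℕ) (R : ValuationSubring Ω)
    (hs : ∀ (α : Ω) (v : X.V m), v ∈ X.W m 2 → v ∉ X.W m 1 →
      X.actV m X.frob v - α • v ∈ X.W m 1 → α / q ∈ R) {α : Ω} (hw : IsWeilNumber q 2 α)
    (hα : α / q ∉ R) : frobMult X m α = 0 := by
  have h1 := mult_eq X hq m 2 hw
  have h2 : X.cocycles ((m : ℤ) - 2) 2 ⊓ Module.End.maxGenEigenspace
      (X.actC ((m : ℤ) - 2) X.frob) α ≤ X.coboundaries ((m : ℤ) - 2) 2 ⊓
        Module.End.maxGenEigenspace (X.actC ((m : ℤ) - 2) X.frob) α := by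
    rintro x ⟨hx, hg⟩
    refine ⟨?_, hg⟩
    by_contra hb
    obtain ⟨v, hv, hv1, hvα⟩ := exists_eigen_graded X m 2 _ rfl hx hb hg
    exact hα (hs α v hv hv1 hvα)
  have h3 := Submodule.finrank_mono h2
  unfold mult2 at h1
  have h4 : (frobMult X m α : ℤ) ≤ 0 := by
    show (finrank Ω ((X.actV m X.frob).maxGenEigenspace α) : ℤ) ≤ 0
    rw [h1]
    omega
  omega

/-- An eigenvalue on a graded piece of weight two has positive multiplicity. -/
lemma frobMult_pos (m : ℕ) {w : ℤ} {α : Ω} {v : X.V m}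
    (hv1 : v ∉ X.W m (w - 1)) (hα : X.actV m X.frob v - α • v ∈ X.W m (w - 1)) :
    frobMult X m α ≠ 0 := by
  intro h0
  have := V_finite X m
  have hbot : (X.actV m X.frob).maxGenEigenspace α = ⊥ := Submodule.finrank_eq_zero.1 h0
  have hinj : ∀ y, (X.actV m X.frob - α • (1 : Module.End Ω (X.V m))) y = 0 → y = 0 := by
    intro y hy
    have : y ∈ (X.actV m X.frob).maxGenEigenspace α := by
      rw [Module.End.mem_maxGenEigenspace]
      exact ⟨1, by rw [pow_one]; exact hy⟩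
    rw [hbot, Submodule.mem_bot] at this
    exact this
  have hmaps : ∀ y ∈ X.W m (w - 1),
      (X.actV m X.frob - α • (1 : Module.End Ω (X.V m))) y ∈ X.W m (w - 1) := by
    intro y hy
    exact Submodule.sub_mem _ (W_stable' m _ hy) (Submodule.smul_mem _ _ hy)
  let T := (X.actV m X.frob - α • (1 : Module.End Ω (X.V m))).restrict hmaps
  have hT : Function.Injective T := by
    rw [← LinearMap.ker_eq_bot, LinearMap.ker_eq_bot']
    intro y hy
    exact Subtype.ext (hinj y (congrArg Subtype.val hy))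
  obtain ⟨⟨y, hy⟩, hyv⟩ := (LinearMap.injective_iff_surjective.1 hT) ⟨_, hα⟩
  have h1 : (X.actV m X.frob - α • (1 : Module.End Ω (X.V m))) y = X.actV m X.frob v - α • v :=
    congrArg Subtype.val hyv
  have h2 : (X.actV m X.frob - α • (1 : Module.End Ω (X.V m))) (v - y) = 0 := by
    rw [map_sub, h1]
    exact sub_self _
  have h3 := hinj _ h2
  rw [sub_eq_zero] at h3
  rw [h3] at hv1
  exact hv1 hy

end one

section two

variable [IsAlgClosed Ω] {Ω' : Type u} [Field Ω'] [CharZero Ω'] [IsAlgClosed Ω'] {Γ' : Type}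

/-- The part of weight two of `H^m` has only Tate eigenvalues if the multiplicities on `H^m` are
independent of `ℓ` and the slopes of weight two are at least one. -/
theorem gradedTate_of_notMore (X : SemistableModel.{u, v} Ω Γ n q)
    (X' : SemistableModel.{u, v} Ω' Γ' n q) (hq : IsPrimePow q)
    (hI : HasIntegralFrobenius X.toSpecialFibre) (m : ℕ) (hm : 2 ≤ m) (hM : NotMore X X' m)
    (R : ValuationSubring Ω') (hR : ((q : Ω'))⁻¹ ∉ R)
    (hs : ∀ (α : Ω') (v : X'.V m), v ∈ X'.W m 2 → v ∉ X'.W m 1 →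
      X'.actV m X'.frob v - α • v ∈ X'.W m 1 → α / q ∈ R) : GradedTate X m 2 := by
  intro α v hv hv1 hα
  by_contra hT
  obtain ⟨y, hy, hy0, hyα⟩ := exists_eigen_E X m 2 _ rfl hv hv1 hα
  have hw := X.weil_E₁ hy hy0 hyα
  have hint := integral_E X hI (by omega) hy hy0 hyα
  obtain ⟨α', hα', hαR⟩ : ∃ α' : Ω', Polynomial.aeval α' (minpoly ℚ α) = 0 ∧ α' / q ∉ R := by
    by_contra hcon
    push Not at hcon
    exact hT (tate_of_val hq R hR hint hw hcon)
  have hconj : AreConjugate α α' := by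
    have halg : IsAlgebraic ℚ α := hw.1
    refine ⟨halg, ?_, ?_⟩
    · exact ⟨minpoly ℚ α, minpoly.ne_zero halg.isIntegral, hα'⟩
    · exact minpoly.eq_of_irreducible_of_monic (minpoly.irreducible halg.isIntegral) hα'
        (minpoly.monic halg.isIntegral)
  have h1 := hM α α' hconj hw hT
  rw [frobMult_eq_zero X' hq.one_lt m R hs (weil_of_conj hconj hw) hαR] at h1
  exact frobMult_pos X m hv1 hα (by omega)

/-- **Degree three in all dimensions.** -/
theorem mw_n_folds (hq : IsPrimePow q) (X : Degeneration.{u, v} Ω Γ n q)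
    (A : DivisorClasses X.toSpecialFibre)
    (X' : SemistableModel.{u, v} Ω' Γ' n q) (A' : DivisorClasses X'.toSpecialFibre)
    (hI : HasIntegralFrobenius X.toSpecialFibre)
    (R : ValuationSubring Ω') (hR : ((q : Ω'))⁻¹ ∉ R)
    (hM : NotMore X.toSemistableModel X' 3)
    {h : ℕ} (hN : NewtonBound X' 3 h R)
    (hW : IsCompletelyDegenerate X' 3 h)
    (hT : A.TateConj 0) (k : ℕ) (hk : k ≤ 3 ∨ 2 * n ≤ k + 3) :
    IsMWPure q k (X.actV k X.frob) (X.N k) :=
  mw_degree_three X A hT (gradedTate_of_notMore X.toSemistableModel X' hq hI 3 (by norm_num) hM R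
    hR (fun _ _ _ hv1 hα => slope_weight_two X' A' 3 (by norm_num) R hN hW hv1 hα)) k hk

end two

end Pool.Agent.X302.MW
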