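import Pool.Agent.X302.MW.IDefs
import Pool.Agent.X302.MW.LDefs

/-!
# The extreme weights: statements
-/

namespace Pool.Agent.X302.MW

universe u v

open Module Pool.Agent.Y143

variable {Ω : Type u} [Field Ω] [CharZero Ω] {Γ : Type} {n q : ℕ}

/-- `N ^ e : gr_(m + e) H^m → gr_(m - e) H^m` is bijective for all `e ≥ 1` with `e ≥ e₀`. -/
def PowerIsoFrom (X : SemistableModel.{u, v} Ω Γ n q) (m e₀ : ℕ) : Prop :=
  ∀ e : ℕ, 1 ≤ e → e₀ ≤ e → PowerInj X m e ∧ PowerSurj X m e

/-- The multiplicities of the Frobenius eigenvalues of weight two on `H^m` are rational: conjugate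
algebraic numbers have the same multiplicity. -/
def RationalMult (X : SemistableModel.{u, v} Ω Γ n q) (m : ℕ) : Prop :=
  ∀ α α' : Ω, AreConjugate α α' → IsWeilNumber q 2 α → frobMult X m α = frobMult X m α'

end Pool.Agent.X302.MW
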