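import Pool.Agent.X302.MW.Slope2
import Pool.Agent.X302.MW.Rig
import Pool.Agent.X302.MW.TDefs

/-!
# The third weight in all degrees
-/

namespace Pool.Agent.X302.MW

universe u v

open Module Submodule Pool.Agent.Y143

variable {Ω : Type u} [Field Ω] [CharZero Ω] {Γ : Type} {n q : ℕ}

section

variable [IsAlgClosed Ω]

/-- If `gr_2 H^k` has only Tate eigenvalues, the other characters do not occur in
`E_2^(k - 2, 2)`. -/
lemma vanish_two (X : SemistableModel.{u, v} Ω Γ n q) (k : ℕ) (i : ℤ) (hi : (k : ℤ) - 2 = i)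
    (hG : GradedTate X k 2) (χ : Γ → Ω) (p : ℤ) (j : ℤ)
    (hm : (n : ℤ) + j - i = 2)
    (hα : ¬ IsTateNumber q (chr X.cyc' χ n p i j X.frob)) :
    Zc X.diff (X.cls χ p) i j ≤ Bd X.diff (X.cls χ p) i j := by
  intro x hx
  apply bd_cls' X.toSpecialFibre hx.1
  rw [X.bd_eq, hm]
  have hxc : x ∈ X.cocycles i 2 := by
    have := Sym.zc_cl_le χ n p _ _ hx
    rw [X.zc_eq, hm] at this
    exact this
  by_contra hb
  have hgen : x ∈ Module.End.maxGenEigenspace (X.actC i X.frob)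
      (chr X.cyc' χ n p i j X.frob) := by
    have h1 := hx.1.2
    rw [SetLike.mem_coe] at h1
    unfold Wt at h1
    rw [Submodule.mem_iInf] at h1
    exact h1 X.frob
  obtain ⟨v, hv, hv1, hvα⟩ := exists_eigen_graded X k 2 i hi hxc hb hgen
  exact hα (hG _ v hv hv1 hvα)

/-- If a complex has no cohomology in bidegree `(i, j)`, then `N ^ i` is injective for the dual
complex. -/
lemma nInj_of_vanish {C : Type*} [AddCommGroup C] [Module Ω C] [FiniteDimensional Ω C]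
    {ψ : C →ₗ[Ω] C →ₗ[Ω] Ω} {d : ℤ → Module.End Ω C} {L : Module.End Ω C}
    {G G' : ℤ → ℤ → Submodule Ω C} (h : LefDual ψ d L G G') (hG : LefComplex d L G)
    (hG' : LefComplex d L G') (i j : ℤ) (h2 : Zc d G' i j ≤ Bd d G' i j) : NInj d G i j := by
  have e1 := h.hh_neg hG hG' i j
  have e2 : hh d G' i j = 0 := by
    unfold hh
    rw [le_antisymm h2 (hG'.bd_le _ _)]
    ring
  rw [e2] at e1
  have e3 : Zc d G (-i) j = Bd d G (-i) j := by
    symm
    apply Submodule.eq_of_le_of_finrank_le (hG.bd_le _ _)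
    unfold hh at e1
    omega
  intro x hx
  rw [← e3]
  exact hx.1

/-- The dual of a Tate character which occurs is a Tate character. -/
lemma tate_dual (X : SpecialFibre.{u, v} Ω Γ n q) (χ : Γ → Ω) (i : ℤ) (m : ℕ)
    (hm : (n : ℤ) - m - i = 2)
    (hα : IsTateNumber q (chr X.cyc' (X.dualChar χ) n (1 - 0) i (-m) X.frob))
    (hocc : X.cls χ 0 i (-m) ≠ ⊥) : IsTateNumber q (chr X.cyc' χ n 0 i (-m) X.frob) := by
  have hq : (q : Ω) ≠ 0 := Nat.cast_ne_zero.2 X.q_ne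
  obtain ⟨x, hx, hx0⟩ := Submodule.exists_mem_ne_zero_of_ne_bot hocc
  have hxW : x ∈ Wt (X.actC i) (chr X.cyc' χ n 0 i (-m)) := hx.2
  have h5 := inv_of_occurs X i hxW hx0
  have hdual := chr_dual' X χ 0 i m (w := 2) hm
  have h6 : chr X.cyc' (X.dualChar χ) n (1 - 0) i (-m) X.frob =
      (q : Ω) ^ 2 * chr X.cyc' χ n 0 i (-m) (X.tr X.frob) := by
    rw [hdual]
    show (X.cyc X.frob : Ω) ^ (2 : ℤ) * _ = _
    rw [X.cyc_frob, zpow_ofNat]
  obtain ⟨k, hk, hk'⟩ := hα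
  have h8 : chr X.cyc' (X.dualChar χ) n (1 - 0) i (-m) X.frob *
      chr X.cyc' χ n 0 i (-m) X.frob = (q : Ω) ^ 2 := by
    rw [h6, mul_assoc, h5, mul_one]
  refine ⟨k, hk, ?_⟩
  have h11 := congrArg (fun t => t ^ k) h8
  simp only [mul_pow] at h11
  rw [hk', ← pow_mul, mul_comm 2 k, pow_mul, sq] at h11
  exact mul_left_cancel₀ (pow_ne_zero k hq) h11

lemma tate_dual' (X : SpecialFibre.{u, v} Ω Γ n q) (χ : Γ → Ω) (i : ℤ) (m : ℕ)
    (hm : (n : ℤ) - m - i = 2)
    (hα : IsTateNumber q (chr X.cyc' χ n 0 i (-m) X.frob))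
    (hocc : X.cls (X.dualChar χ) (1 - 0) i (-m) ≠ ⊥) :
    IsTateNumber q (chr X.cyc' (X.dualChar χ) n (1 - 0) i (-m) X.frob) := by
  have hq : (q : Ω) ≠ 0 := Nat.cast_ne_zero.2 X.q_ne
  obtain ⟨x, hx, hx0⟩ := Submodule.exists_mem_ne_zero_of_ne_bot hocc
  have hxW : x ∈ Wt (X.actC i) (chr X.cyc' (X.dualChar χ) n (1 - 0) i (-m)) := hx.2
  have h5 := inv_of_occurs X i hxW hx0
  have hdual := chr_dual' X χ 0 i m (w := 2) hm
  have h7 : chr X.cyc' (X.dualChar χ) n (1 - 0) i (-m) (X.tr X.frob) =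
      (q : Ω) ^ (-2 : ℤ) * chr X.cyc' χ n 0 i (-m) X.frob := by
    rw [hdual]
    show (X.cyc' (X.tr X.frob)) ^ (2 : ℤ) * _ = _
    rw [X.cyc'_tr, X.tr_tr]
    unfold SpecialFibre.cyc'
    rw [X.cyc_frob, inv_zpow']
  obtain ⟨k, hk, hk'⟩ := hα
  have h8 : chr X.cyc' (X.dualChar χ) n (1 - 0) i (-m) X.frob *
      chr X.cyc' χ n 0 i (-m) X.frob = (q : Ω) ^ 2 := by
    rw [h7] at h5
    have h9 : (q : Ω) ^ (-2 : ℤ) = ((q : Ω) ^ 2)⁻¹ := by
      rw [zpow_neg]; norm_cast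
    rw [h9] at h5
    have h10 : (q : Ω) ^ 2 ≠ 0 := pow_ne_zero _ hq
    field_simp at h5
    rw [mul_comm]
    exact h5
  refine ⟨k, hk, ?_⟩
  have h11 := congrArg (fun t => t ^ k) h8
  simp only [mul_pow] at h11
  rw [hk', ← pow_mul, mul_comm 2 k, pow_mul, sq] at h11
  exact mul_right_cancel₀ (pow_ne_zero k hq) h11

/-- The row of weight two: bijectivity of `N ^ (a + 1)` on `E_2^(-(a + 1), 2 a + 4)`. -/
theorem row_two (X : Degeneration.{u, v} Ω Γ n q) (A : DivisorClasses X.toSpecialFibre)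
    (a : ℕ) (ha : a + 3 ≤ n) (hT : A.TateConj a)
    (hG : GradedTate X.toSemistableModel (a + 3) 2) :
    NInj X.diff X.tot ((a : ℤ) + 1) (((a + 3 : ℕ) : ℤ) - n) ∧
      NSurj X.diff X.tot ((a : ℤ) + 1) (((a + 3 : ℕ) : ℤ) - n) := by
  have hi : (1 : ℤ) ≤ (a : ℤ) + 1 := by omega
  obtain ⟨m, hm⟩ : ∃ m : ℕ, n = a + 3 + m := ⟨n - (a + 3), by omega⟩
  have hj : ((a + 3 : ℕ) : ℤ) - n = -(m : ℤ) := by subst hm; push_cast; ring
  have hw : (n : ℤ) - m - ((a : ℤ) + 1) = 2 := by subst hm; push_cast; ring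
  have hw' : (n : ℤ) + -(m : ℤ) - ((a : ℤ) + 1) = 2 := by omega
  have hk : (((a + 3 : ℕ) : ℤ)) - 2 = (a : ℤ) + 1 := by push_cast; ring
  rw [hj]
  -- the algebraic case
  have alg : ∀ (χ : Γ → Ω) (p : ℤ), IsTateNumber q (chr X.cyc' χ n p ((a : ℤ) + 1) (-m) X.frob) →
      NInj X.diff (X.cls χ p) ((a : ℤ) + 1) (-m) := by
    intro χ p hα
    apply nInj_cls' X.toSpecialFibre (χ := χ) (p := p) a (w := 2) (j := -m) (by omega)
    intro y hy hyW hG
    have hyA : y ∈ Submodule.span Ω (A.A1 a : Set (X.H a)) := by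
      apply hT _ hα y hy
      unfold Wt at hyW
      rw [Submodule.mem_iInf] at hyW
      exact hyW X.frob
    obtain ⟨v, hv, hR, hz⟩ := crit2 A a ha hyA hG
    rw [hz]
    exact single_mem_cobound' X.toSpecialFibre a hv hR
  have bot : ∀ (χ : Γ → Ω) (p : ℤ), X.cls χ p ((a : ℤ) + 1) (-m) = ⊥ →
      NInj X.diff (X.cls χ p) ((a : ℤ) + 1) (-m) := by
    intro χ p h x hx
    have h1 : x ∈ X.cls χ p (-((a : ℤ) + 1)) (-m) := hx.1.1
    rw [(X.cls_lefComplex χ p).neg, h, Submodule.mem_bot] at h1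
    rw [h1]
    exact Submodule.zero_mem _
  have key : ∀ χ : Γ → Ω, NInj X.diff (X.cls χ 0) ((a : ℤ) + 1) (-m) ∧
      NInj X.diff (X.cls (X.dualChar χ) (1 - 0)) ((a : ℤ) + 1) (-m) := by
    intro χ
    by_cases hα : IsTateNumber q (chr X.cyc' χ n 0 ((a : ℤ) + 1) (-m) X.frob)
    · refine ⟨alg _ _ hα, ?_⟩
      by_cases hocc : X.cls (X.dualChar χ) (1 - 0) ((a : ℤ) + 1) (-m) = ⊥
      · exact bot _ _ hocc
      · exact alg _ _ (tate_dual' X.toSpecialFibre χ _ m hw hα hocc)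
    · by_cases hα' : IsTateNumber q (chr X.cyc' (X.dualChar χ) n (1 - 0) ((a : ℤ) + 1) (-m)
        X.frob)
      · refine ⟨?_, alg _ _ hα'⟩
        by_cases hocc : X.cls χ 0 ((a : ℤ) + 1) (-m) = ⊥
        · exact bot _ _ hocc
        · exact absurd (tate_dual X.toSpecialFibre χ _ m hw hα' hocc) hα
      · have h := X.cls_dual 0 χ
        have hG1 := X.cls_lefComplex χ 0
        have hG2 := X.cls_lefComplex (X.dualChar χ) (1 - 0)
        exact ⟨nInj_of_vanish h hG1 hG2 _ _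
            (vanish_two X.toSemistableModel (a + 3) _ hk hG (X.dualChar χ) (1 - 0) _ hw' hα'),
          nInj_of_vanish h.flip hG2 hG1 _ _
            (vanish_two X.toSemistableModel (a + 3) _ hk hG χ 0 _ hw' hα)⟩
  have hgood : ∀ χ : Γ → Ω, Good2 X.diff (X.cls χ 0) (X.cls (X.dualChar χ) (1 - 0))
      ((a : ℤ) + 1) (-m) := fun χ =>
    (X.cls_dual 0 χ).good_of_inj (X.cls_lefComplex χ 0) (X.cls_lefComplex (X.dualChar χ) (1 - 0))
      _ hi _ (key χ).1 (key χ).2
  exact ⟨nInj_tot_of_cls X.toSpecialFibre _ _ (fun χ => (hgood χ).inj),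
    nSurj_tot_of_cls X.toSpecialFibre _ _ (fun χ => (hgood χ).surj)⟩

/-- The rows of weight zero and one, with the hard Lefschetz theorem. -/
theorem row_zero_one (X : Degeneration.{u, v} Ω Γ n q) (A : DivisorClasses X.toSpecialFibre)
    (k e : ℕ) (he : 1 ≤ e) (hk : k = e ∨ k = e + 1) :
    NInj X.diff X.tot e ((k : ℤ) - n) ∧ NSurj X.diff X.tot e ((k : ℤ) - n) := by
  have he' : (1 : ℤ) ≤ e := by exact_mod_cast he
  have hI : NInj X.diff X.tot e ((k : ℤ) - n) := by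
    rcases hk with h | h
    · have := inj_zero A e he'
      rwa [h]
    · have := inj_one A e he'
      rwa [show (k : ℤ) - n = (e : ℤ) + 1 - n by rw [h]; push_cast; ring]
  have := X.lefDual.good_of_inj X.lefComplex X.lefComplex e he' _ hI hI
  exact ⟨this.inj, this.surj⟩

end

lemma PowerIsoFrom.dual {X : SemistableModel.{u, v} Ω Γ n q} {m m' e₀ : ℕ} (h : m + m' = 2 * n)
    (hm : PowerIsoFrom X m e₀) : PowerIsoFrom X m' e₀ := by
  intro e he he0
  obtain ⟨h1, h2⟩ := hm e he he0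
  rw [powerInj_iff] at h1
  rw [powerSurj_iff] at h2
  have e1 : (m : ℤ) - n = -((m' : ℤ) - n) := by omega
  rw [e1] at h1 h2
  refine ⟨(powerInj_iff X m' e).2 ?_, (powerSurj_iff X m' e).2 ?_⟩
  · exact pre_nInj_of_nSurj X.lefDual (preComplex X.toSpecialFibre)
      (preComplex X.toSpecialFibre) _ _ h2
  · exact pre_nSurj_of_nInj X.lefDual (preComplex X.toSpecialFibre)
      (preComplex X.toSpecialFibre) _ (by exact_mod_cast he) _ h1

section final

variable [IsAlgClosed Ω]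

/-- The three extreme weights of `H^k`. -/
theorem three_extreme (X : Degeneration.{u, v} Ω Γ n q) (A : DivisorClasses X.toSpecialFibre)
    (k : ℕ) (hk : 3 ≤ k) (hkn : k ≤ n) (hT : A.TateConj (k - 3))
    (hG : GradedTate X.toSemistableModel k 2) :
    PowerIsoFrom X.toSemistableModel k (k - 2) := by
  intro e he he0
  rw [powerInj_iff, powerSurj_iff]
  rcases lt_or_ge k e with h | h
  · have h1 := power_trivial X.toSemistableModel k e he (Or.inl h)
    rwa [powerInj_iff, powerSurj_iff] at h1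
  · by_cases h2 : e = k - 2
    · obtain ⟨a, rfl⟩ : ∃ a, k = a + 3 := ⟨k - 3, by omega⟩
      have h3 := row_two X A a (by omega) (by simpa using hT) hG
      have h4 : (e : ℤ) = (a : ℤ) + 1 := by omega
      rw [h4]
      exact h3
    · exact row_zero_one X A k e he (by omega)

end final

section compare

variable [IsAlgClosed Ω] {Ω' : Type u} [Field Ω'] [CharZero Ω'] [IsAlgClosed Ω'] {Γ' : Type}

/-- `gr_2 H^k` is of Tate type if the forms of degree `k` degenerate completely. -/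
theorem gradedTate_of_degenerate (hq : IsPrimePow q) (X : SemistableModel.{u, v} Ω Γ n q)
    (X' : SemistableModel.{u, v} Ω' Γ' n q) (A' : DivisorClasses X'.toSpecialFibre)
    (hI : HasIntegralFrobenius X.toSpecialFibre)
    (R : ValuationSubring Ω') (hR : ((q : Ω'))⁻¹ ∉ R) (k : ℕ) (hk : 2 ≤ k)
    (hM : NotMore X X' k) {h : ℕ} (hN : NewtonBound X' k h R)
    (hW : IsCompletelyDegenerate X' k h) : GradedTate X k 2 :=
  gradedTate_of_notMore X X' hq hI k hk hM R hR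
    (fun _ _ _ hv1 hα => slope_weight_two X' A' k hk R hN hW hv1 hα)

/-- The three extreme weights in degree `k`, with the hard Lefschetz theorem. -/
theorem three_extreme_of_degenerate (hq : IsPrimePow q) (X : Degeneration.{u, v} Ω Γ n q)
    (A : DivisorClasses X.toSpecialFibre)
    (X' : SemistableModel.{u, v} Ω' Γ' n q) (A' : DivisorClasses X'.toSpecialFibre)
    (hI : HasIntegralFrobenius X.toSpecialFibre)
    (R : ValuationSubring Ω') (hR : ((q : Ω'))⁻¹ ∉ R) (k : ℕ) (hk : 3 ≤ k) (hkn : k ≤ n)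
    (hM : NotMore X.toSemistableModel X' k) {h : ℕ} (hN : NewtonBound X' k h R)
    (hW : IsCompletelyDegenerate X' k h) (hT : A.TateConj (k - 3)) :
    PowerIsoFrom X.toSemistableModel k (k - 2) ∧
      PowerIsoFrom X.toSemistableModel (2 * n - k) (k - 2) ∧
      (k = 3 → IsMWPure q k (X.actV k X.frob) (X.N k) ∧
        IsMWPure q (2 * n - k : ℕ) (X.actV (2 * n - k) X.frob) (X.N (2 * n - k))) := by
  have h1 := three_extreme X A k hk hkn hT
    (gradedTate_of_degenerate hq X.toSemistableModel X' A' hI R hR k (by omega) hM hN hW)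
  have h2 := h1.dual (m' := 2 * n - k) (by omega)
  refine ⟨h1, h2, fun h3 => ?_⟩
  subst h3
  exact ⟨pure_of_kato X.toSemistableModel 3 (fun e he => h1 e he (by omega)),
    pure_of_kato X.toSemistableModel (2 * n - 3) (fun e he => h2 e he (by omega))⟩

end compare

/-- The middle degree, without the hard Lefschetz theorem. -/
theorem middle_three [IsAlgClosed Ω] (X : SemistableModel.{u, v} Ω Γ n q)
    (A : DivisorClasses X.toSpecialFibre) (hn : 3 ≤ n) (hT : A.TateConj (n - 3))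
    (hG : GradedTate X n 2) : PowerIsoFrom X n (n - 2) := by
  intro e he he0
  rcases lt_or_ge n e with h | h
  · exact power_trivial X n e he (Or.inl h)
  by_cases h0 : e = n
  · subst h0
    exact top_low A e he
  by_cases h1 : e + 1 = n
  · exact second_middle A e he h1
  obtain ⟨a, rfl⟩ : ∃ a, n = a + 3 := ⟨n - 3, by omega⟩
  obtain rfl : e = a + 1 := by omega
  have hi : (1 : ℤ) ≤ (a : ℤ) + 1 := by omega
  have hw : ((a + 3 : ℕ) : ℤ) - ((0 : ℕ) : ℤ) - ((a : ℤ) + 1) = 2 := by push_cast; ring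
  have hw' : ((a + 3 : ℕ) : ℤ) + -((0 : ℕ) : ℤ) - ((a : ℤ) + 1) = 2 := by omega
  have hk : (((a + 3 : ℕ) : ℤ)) - 2 = (a : ℤ) + 1 := by push_cast; ring
  have hT' : A.TateConj a := by simpa using hT
  have alg : ∀ (χ : Γ → Ω) (p : ℤ),
      IsTateNumber q (chr X.cyc' χ ((a + 3 : ℕ) : ℤ) p ((a : ℤ) + 1) (-((0 : ℕ) : ℤ)) X.frob) →
      NInj X.diff (X.cls χ p) ((a : ℤ) + 1) (-((0 : ℕ) : ℤ)) := by
    intro χ p hα
    apply nInj_cls' X.toSpecialFibre (χ := χ) (p := p) a (w := 2) (j := -((0 : ℕ) : ℤ))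
      (by omega)
    intro y hy hyW hG
    have hyA : y ∈ Submodule.span Ω (A.A1 a : Set (X.H a)) := by
      apply hT' _ hα y hy
      unfold Wt at hyW
      rw [Submodule.mem_iInf] at hyW
      exact hyW X.frob
    obtain ⟨v, hv, hR, hz⟩ := crit2 A a le_rfl hyA hG
    rw [hz]
    exact single_mem_cobound' X.toSpecialFibre a hv hR
  -- a complex without cohomology in the dual bidegree
  have van : ∀ {G G' : ℤ → ℤ → Submodule Ω X.C} {ψ : X.C →ₗ[Ω] X.C →ₗ[Ω] Ω},
      LefDual ψ X.diff X.lefC G G' → PreComplex X.diff X.lefC G → PreComplex X.diff X.lefC G' →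
      Zc X.diff G' ((a : ℤ) + 1) (-((0 : ℕ) : ℤ)) ≤ Bd X.diff G' ((a : ℤ) + 1) (-((0 : ℕ) : ℤ)) →
      NInj X.diff G ((a : ℤ) + 1) (-((0 : ℕ) : ℤ)) := by
    intro G G' ψ h hG hG' h2
    have e1 := pre_hh_dual h hG hG' (-((a : ℤ) + 1)) (-((0 : ℕ) : ℤ))
    rw [neg_neg, neg_neg, show (((0 : ℕ) : ℤ)) = -((0 : ℕ) : ℤ) by norm_num] at e1
    have e2 : hh X.diff G' ((a : ℤ) + 1) (-((0 : ℕ) : ℤ)) = 0 := by
      unfold hh
      rw [le_antisymm h2 (hG'.bd_le _ _)]
      ring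
    have e1' : hh X.diff G (-((a : ℤ) + 1)) (-((0 : ℕ) : ℤ)) = 0 := by
      rw [← e2]
      simpa using e1
    have e3 : Zc X.diff G (-((a : ℤ) + 1)) (-((0 : ℕ) : ℤ)) =
        Bd X.diff G (-((a : ℤ) + 1)) (-((0 : ℕ) : ℤ)) := by
      symm
      apply Submodule.eq_of_le_of_finrank_le (hG.bd_le _ _)
      unfold hh at e1'
      omega
    intro x hx
    rw [← e3]
    exact hx.1
  have inj : ∀ χ : Γ → Ω, NInj X.diff (X.cls χ 0) ((a : ℤ) + 1) (-((0 : ℕ) : ℤ)) := by
    intro χ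
    by_cases hα : IsTateNumber q
        (chr X.cyc' χ ((a + 3 : ℕ) : ℤ) 0 ((a : ℤ) + 1) (-((0 : ℕ) : ℤ)) X.frob)
    · exact alg _ _ hα
    · by_cases hα' : IsTateNumber q
        (chr X.cyc' (X.dualChar χ) ((a + 3 : ℕ) : ℤ) (1 - 0) ((a : ℤ) + 1) (-((0 : ℕ) : ℤ)) X.frob)
      · by_cases hocc : X.cls χ 0 ((a : ℤ) + 1) (-((0 : ℕ) : ℤ)) = ⊥
        · intro x hx
          have h1 : x ∈ X.cls χ 0 (-((a : ℤ) + 1)) (-((0 : ℕ) : ℤ)) := hx.1.1
          rw [(cls_preComplex X.toSpecialFibre χ 0).neg, hocc, Submodule.mem_bot] at h1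
          rw [h1]
          exact Submodule.zero_mem _
        · exact absurd (tate_dual X.toSpecialFibre χ _ 0 hw hα' hocc) hα
      · exact van (X.cls_dual 0 χ) (cls_preComplex X.toSpecialFibre χ 0)
          (cls_preComplex X.toSpecialFibre (X.dualChar χ) (1 - 0))
          (vanish_two X (a + 3) _ hk hG (X.dualChar χ) (1 - 0) _ hw' hα')
  have htot : NInj X.diff X.tot ((a : ℤ) + 1) 0 := by
    have := nInj_tot_of_cls X.toSpecialFibre _ _ inj
    simpa using this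
  rw [powerInj_iff, powerSurj_iff]
  have e5 : ((a + 1 : ℕ) : ℤ) = (a : ℤ) + 1 := by push_cast; ring
  rw [e5, sub_self]
  exact ⟨htot, pre_good_middle X.lefDual (preComplex X.toSpecialFibre)
    (preComplex X.toSpecialFibre) _ hi htot⟩

end Pool.Agent.X302.MW
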